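import Mathlib
import Pool.Agent.Work.MP_59f3ad_nt.Defs

/-!
Block FE (captain helper6): from independent Tate-Shafarevich classes of the twists `ℤ_p(r_i)` of a
number field `L` to an abelian extension of `L(μ_(p^(m+1)))` (or `L(μ_p)`), unramified at all finite
places. Definitions.
-/

set_option autoImplicit false

open NumberField IsDedekindDomain

namespace Pool.Agent.Work.MP_59f3ad_nt.FE

universe u

/-! ### Group side -/

section grp

variable {p : ℕ} [Fact p.Prime] {G : Type u} [Group G] {n : ℕ}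

/-- The diagonal action of `g` on `T = ℤ_p(r_0) ⊕ ... ⊕ ℤ_p(r_(n-1))`: multiplication by this
element of the ring `ℤ_p^n`. -/
noncomputable def act (χ : G →* ℤ_[p]ˣ) (r : Fin n → ℤ) (g : G) : Fin n → ℤ_[p] :=
  fun i => (((χ g) ^ (r i) : ℤ_[p]ˣ) : ℤ_[p])

theorem act_mul (χ : G →* ℤ_[p]ˣ) (r : Fin n → ℤ) (g h : G) :
    act χ r (g * h) = act χ r g * act χ r h := by
  funext i
  simp [act, mul_zpow]

theorem act_one (χ : G →* ℤ_[p]ˣ) (r : Fin n → ℤ) : act χ r (1 : G) = 1 := by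
  funext i
  simp [act]

theorem act_eq_one (χ : G →* ℤ_[p]ˣ) (r : Fin n → ℤ) {g : G} (h : χ g = 1) : act χ r g = 1 := by
  funext i
  simp [act, h]

/-- A continuous cocycle with values in `T`, given by independent classes. -/
structure Coc [TopologicalSpace G] (χ : G →* ℤ_[p]ˣ) (r : Fin n → ℤ) (Φ : G → Fin n → ℤ_[p]) :
    Prop where
  cont : Continuous Φ
  mul : ∀ g h, Φ (g * h) = Φ g + act χ r g * Φ h
  ind : ∀ a : Fin n → ℤ_[p], (∀ ρ : ℤ, ∃ c : ℤ_[p], ∀ g,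
    ∑ i with r i = ρ, a i * Φ g i = ((((χ g) ^ ρ : ℤ_[p]ˣ) : ℤ_[p]) - 1) * c) → a = 0

/-- The elements with `χ(g) ≡ 1` modulo `p^m`. -/
def Lev (χ : G →* ℤ_[p]ˣ) (m : ℕ) : Subgroup G where
  carrier := {g | (p : ℤ_[p]) ^ m ∣ (χ g : ℤ_[p]) - 1}
  one_mem' := by simp
  mul_mem' := by
    intro g h hg hh
    have e : ((χ (g * h) : ℤ_[p]ˣ) : ℤ_[p]) - 1 =
        (χ g : ℤ_[p]) * ((χ h : ℤ_[p]) - 1) + ((χ g : ℤ_[p]) - 1) := by
      rw [map_mul, Units.val_mul]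
      ring
    show (p : ℤ_[p]) ^ m ∣ ((χ (g * h) : ℤ_[p]ˣ) : ℤ_[p]) - 1
    rw [e]
    exact dvd_add (Dvd.dvd.mul_left hh _) hg
  inv_mem' := by
    intro g hg
    have e : ((χ g⁻¹ : ℤ_[p]ˣ) : ℤ_[p]) - 1 =
        -((χ g⁻¹ : ℤ_[p]) * ((χ g : ℤ_[p]) - 1)) := by
      have h : ((χ g⁻¹ : ℤ_[p]ˣ) : ℤ_[p]) * (χ g : ℤ_[p]) = 1 := by
        rw [← Units.val_mul, ← map_mul, inv_mul_cancel, map_one, Units.val_one]
      rw [mul_sub, h]
      ring
    show (p : ℤ_[p]) ^ m ∣ ((χ g⁻¹ : ℤ_[p]ˣ) : ℤ_[p]) - 1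
    rw [e]
    exact (Dvd.dvd.mul_left hg _).neg_right

/-- `Y = Φ(ker χ)`. -/
def IsY (χ : G →* ℤ_[p]ˣ) (Φ : G → Fin n → ℤ_[p]) (Y : Submodule ℤ_[p] (Fin n → ℤ_[p])) : Prop :=
  ∀ t, t ∈ Y ↔ ∃ k, χ k = 1 ∧ Φ k = t

/-- `Y' = {t : (g - 1) t ∈ Y for all g of level m}`. -/
noncomputable def Yp (χ : G →* ℤ_[p]ˣ) (r : Fin n → ℤ) (m : ℕ)
    (Y : Submodule ℤ_[p] (Fin n → ℤ_[p])) : Submodule ℤ_[p] (Fin n → ℤ_[p]) where
  carrier := {t | ∀ g ∈ Lev χ m, (act χ r g - 1) * t ∈ Y}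
  zero_mem' := fun g _ => by rw [mul_zero]; exact Y.zero_mem
  add_mem' := by
    intro s t hs ht g hg
    rw [mul_add]
    exact Y.add_mem (hs g hg) (ht g hg)
  smul_mem' := by
    intro c t ht g hg
    rw [mul_smul_comm]
    exact Y.smul_mem c (ht g hg)

/-- `b X`. -/
noncomputable def mulS (b : Fin n → ℤ_[p]) (X : Submodule ℤ_[p] (Fin n → ℤ_[p])) :
    Submodule ℤ_[p] (Fin n → ℤ_[p]) := X.map (LinearMap.mulLeft ℤ_[p] b)

theorem mem_mulS (b : Fin n → ℤ_[p]) (X : Submodule ℤ_[p] (Fin n → ℤ_[p])) (t : Fin n → ℤ_[p]) :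
    t ∈ mulS b X ↔ ∃ x ∈ X, b * x = t := by
  simp [mulS, Submodule.mem_map]

/-- `I` is a set of inertia elements: `Φ` is a coboundary on `I`, and `χ` is trivial on `I` (places
not above `p`) or takes all values `≡ 1` modulo `p^m` (places above `p`; `m = 0`: all values). -/
structure Loc (χ : G →* ℤ_[p]ˣ) (r : Fin n → ℤ) (Φ : G → Fin n → ℤ_[p]) (m : ℕ) (I : Set G) :
    Prop where
  con : ∃ c : Fin n → ℤ_[p], ∀ h ∈ I, Φ h = (act χ r h - 1) * c
  kind : (∀ h ∈ I, χ h = 1) ∨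
    ∀ x : ℤ_[p]ˣ, (p : ℤ_[p]) ^ m ∣ (x : ℤ_[p]) - 1 → ∃ h ∈ I, χ h = x

end grp

/-! ### Field side -/

/-- `g` is in the inertia group of the prime `Q` of the ring of integers of `Ω`. -/
def Inr {k Ω : Type u} [Field k] [Field Ω] [Algebra k Ω] (Q : Ideal (𝓞 Ω)) (g : Ω ≃ₐ[k] Ω) : Prop :=
  ∀ y y' : 𝓞 Ω, (y' : Ω) = g (y : Ω) → y' - y ∈ Q

/-- `N` is a multiplicative nonarchimedean absolute value on the algebraic closure of the completion
`L_v` which extends `v`; `L` is dense in `L_v` for it. -/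
structure NN (L : Type u) [Field L] [NumberField L] (v : HeightOneSpectrum (𝓞 L))
    (N : AlgebraicClosure (v.adicCompletion L) → ℝ) : Prop where
  zero : N 0 = 0
  pos : ∀ x, x ≠ 0 → 0 < N x
  mul : ∀ x y, N (x * y) = N x * N y
  add : ∀ x y, N (x + y) ≤ max (N x) (N y)
  le : ∀ a : L, N (algebraMap L _ a) ≤ 1 ↔ v.valuation L a ≤ 1
  lt : ∀ a : L, N (algebraMap L _ a) < 1 ↔ v.valuation L a < 1
  den : ∀ (a : v.adicCompletion L) (ε : ℝ), 0 < ε →
    ∃ b : L, N (algebraMap (v.adicCompletion L) _ a - algebraMap L _ b) < ε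

/-- The prime `Q` of the ring of all algebraic integers is the one defined by the embedding `ι`. -/
structure QI (L : Type u) [Field L] [NumberField L] (v : HeightOneSpectrum (𝓞 L))
    (N : AlgebraicClosure (v.adicCompletion L) → ℝ) (Q : Ideal (𝓞 (AlgebraicClosure L)))
    (ι : AlgebraicClosure L →ₐ[L] AlgebraicClosure (v.adicCompletion L)) : Prop where
  pr : Q.IsPrime
  co : Q.comap (algebraMap (𝓞 L) (𝓞 (AlgebraicClosure L))) = v.asIdeal
  int : ∀ y : 𝓞 (AlgebraicClosure L), N (ι (y : AlgebraicClosure L)) ≤ 1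
  mem : ∀ y : 𝓞 (AlgebraicClosure L), y ∈ Q ↔ N (ι (y : AlgebraicClosure L)) < 1

/-- Independence of a family of cocycles for various twists (as in the other hand-ins). -/
def Indep (K : Type u) [Field K] [NumberField K] (p : ℕ) [Fact p.Prime] {n : ℕ} (r : Fin n → ℤ)
    (φ : Fin n → GK K → ℤ_[p]) : Prop :=
  ∀ a : Fin n → ℤ_[p], (∀ ρ : ℤ, (fun g => ∑ i with r i = ρ, a i * φ i g) ∈ B1 K p ρ) → a = 0

/-- `S` contains all finite places above `p`. -/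
def Above (K : Type u) [Field K] [NumberField K] (p : ℕ) (S : Set (HeightOneSpectrum (𝓞 K))) :
    Prop :=
  ∀ v : HeightOneSpectrum (𝓞 K), (p : 𝓞 K) ∈ v.asIdeal → v ∈ S

/-- `p^m` does not divide the ramification index of any place above `p`. -/
def Rm (L : Type u) [Field L] [NumberField L] (p m : ℕ) : Prop :=
  ∀ v : HeightOneSpectrum (𝓞 L), (p : 𝓞 L) ∈ v.asIdeal → ¬ p ^ m ∣ v.asIdeal.ramificationIdx ℤ

/-- `p` is unramified in `L`. -/
def Ur (L : Type u) [Field L] [NumberField L] (p : ℕ) : Prop :=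
  ∀ v : HeightOneSpectrum (𝓞 L), (p : 𝓞 L) ∈ v.asIdeal → v.asIdeal.ramificationIdx ℤ = 1

/-- The field `L(μ_(p^k))` inside the algebraic closure of `L`. -/
noncomputable def mu (L : Type u) [Field L] (p k : ℕ) : IntermediateField L (AlgebraicClosure L) :=
  IntermediateField.adjoin L {ζ | ζ ^ p ^ k = 1}

end Pool.Agent.Work.MP_59f3ad_nt.FE
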