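import Pool.Agent.Work.MP_59f3ad_nt.FE.StmtsF

/-!
Item DK of the block FE: inertia elements act on the linear relations over the completion.
-/

set_option autoImplicit false

open NumberField IsDedekindDomain

namespace Pool.Agent.Work.MP_59f3ad_nt.FE

universe u

namespace IDK

variable {L : Type u} [Field L] [NumberField L] {v : HeightOneSpectrum (𝓞 L)}
  {N : AlgebraicClosure (v.adicCompletion L) → ℝ}

lemma nn0 (hN : NN L v N) (x : AlgebraicClosure (v.adicCompletion L)) : 0 ≤ N x := by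
  by_cases h : x = 0
  · rw [h, hN.zero]
  · exact (hN.pos x h).le

lemma one (hN : NN L v N) : N 1 = 1 := by
  have h1 := hN.mul 1 1
  have h2 := hN.pos 1 one_ne_zero
  rw [mul_one] at h1
  have h3 : N 1 * N 1 = N 1 * 1 := by rw [← h1, mul_one]
  exact mul_left_cancel₀ h2.ne' h3

lemma neg (hN : NN L v N) (x : AlgebraicClosure (v.adicCompletion L)) : N (-x) = N x := by
  have h1 : N (-1) * N (-1) = 1 := by rw [← hN.mul, neg_mul_neg, one_mul, one hN]
  have h2 := nn0 hN (-1)
  have h3 : N (-1) = 1 := by nlinarith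
  rw [neg_eq_neg_one_mul, hN.mul, h3, one_mul]

lemma sum_le (hN : NN L v N) {α : Type*} (s : Finset α)
    (f : α → AlgebraicClosure (v.adicCompletion L)) {δ : ℝ} (hδ : 0 ≤ δ)
    (h : ∀ i ∈ s, N (f i) ≤ δ) : N (∑ i ∈ s, f i) ≤ δ := by
  classical
  induction s using Finset.induction_on with
  | empty => rw [Finset.sum_empty, hN.zero]; exact hδ
  | insert a s ha ih =>
    rw [Finset.sum_insert ha]
    exact (hN.add _ _).trans (max_le (h _ (Finset.mem_insert_self _ _))
      (ih fun i hi => h i (Finset.mem_insert_of_mem hi)))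

lemma pow (hN : NN L v N) (x : AlgebraicClosure (v.adicCompletion L)) (n : ℕ) :
    N (x ^ n) = N x ^ n := by
  induction n with
  | zero => rw [pow_zero, pow_zero, one hN]
  | succ n ih => rw [pow_succ, hN.mul, ih, pow_succ]

lemma small (hN : NN L v N) {ε : ℝ} (hε : 0 < ε) :
    ∃ c : L, c ≠ 0 ∧ N (algebraMap L _ c) < ε := by
  obtain ⟨a, ha, ha0⟩ := Submodule.exists_mem_ne_zero_of_ne_bot v.ne_bot
  have h1 : N (algebraMap L _ (a : L)) < 1 := by
    rw [hN.lt]
    exact (HeightOneSpectrum.valuation_lt_one_iff_mem v a).mpr ha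
  obtain ⟨k, hk⟩ := exists_pow_lt_of_lt_one hε h1
  refine ⟨(a : L) ^ k, pow_ne_zero _ (by simpa using ha0), ?_⟩
  rw [map_pow, pow hN]
  exact hk

lemma unit (hN : NN L v N) {Q : Ideal (𝓞 (AlgebraicClosure L))}
    {ι : AlgebraicClosure L →ₐ[L] AlgebraicClosure (v.adicCompletion L)} (hQ : QI L v N Q ι)
    {h : GK L} (hI : Inr Q h)
    (hDV : ∀ z : AlgebraicClosure L, N (ι z) ≤ 1 → ∃ a b : 𝓞 (AlgebraicClosure L), b ∉ Q ∧
      z * (b : AlgebraicClosure L) = (a : AlgebraicClosure L))
    (z : AlgebraicClosure L) (hz : N (ι z) ≤ 1) : N (ι (h z)) ≤ 1 := by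
  obtain ⟨a, b, hb, e⟩ := hDV z hz
  have hia : IsIntegral ℤ (h (a : AlgebraicClosure L)) :=
    map_isIntegral_int h (RingOfIntegers.isIntegral_coe a)
  have hib : IsIntegral ℤ (h (b : AlgebraicClosure L)) :=
    map_isIntegral_int h (RingOfIntegers.isIntegral_coe b)
  obtain ⟨a', ha'⟩ : ∃ a' : 𝓞 (AlgebraicClosure L), (a' : AlgebraicClosure L) = h a :=
    ⟨⟨_, hia⟩, rfl⟩
  obtain ⟨b', hb'⟩ : ∃ b' : 𝓞 (AlgebraicClosure L), (b' : AlgebraicClosure L) = h b :=
    ⟨⟨_, hib⟩, rfl⟩
  have h1 := hI b b' hb'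
  have h2 : b' ∉ Q := by
    intro h3
    apply hb
    have := Q.sub_mem h3 h1
    rwa [sub_sub_cancel] at this
  have h3 : N (ι (b' : AlgebraicClosure L)) = 1 :=
    le_antisymm (hQ.int b') (not_lt.1 fun h4 => h2 ((hQ.mem b').2 h4))
  have h4 : h z * (b' : AlgebraicClosure L) = (a' : AlgebraicClosure L) := by
    rw [hb', ha', ← map_mul, e]
  have h5 := congrArg (fun t => N (ι t)) h4
  simp only [map_mul, hN.mul, h3, mul_one] at h5
  rw [h5]
  exact hQ.int a'

end IDK

open IDK in
theorem pr_DK (hDV : StDV.{u}) : StDK.{u} := by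
  intro L _ _ v N hN Q ι hQ h hI n a x hx
  by_contra hne
  have hpos := hN.pos _ hne
  obtain ⟨c, hc0, hc⟩ := small hN hpos
  have hcpos : 0 < N (algebraMap L _ c) :=
    hN.pos _ (by simpa using hc0)
  set δ := N (algebraMap L (AlgebraicClosure (v.adicCompletion L)) c) with hδ
  set M := 1 + ∑ i, N (ι (x i)) + ∑ i, N (ι (h (x i))) with hM
  have hM1 : 0 ≤ ∑ i, N (ι (x i)) := Finset.sum_nonneg fun i _ => nn0 hN _
  have hM2 : 0 ≤ ∑ i, N (ι (h (x i))) := Finset.sum_nonneg fun i _ => nn0 hN _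
  have hMpos : 0 < M := by linarith
  have hx1 : ∀ i, N (ι (x i)) ≤ M := fun i => by
    have := Finset.single_le_sum (f := fun i => N (ι (x i))) (fun i _ => nn0 hN _)
      (Finset.mem_univ i)
    linarith
  have hx2 : ∀ i, N (ι (h (x i))) ≤ M := fun i => by
    have := Finset.single_le_sum (f := fun i => N (ι (h (x i)))) (fun i _ => nn0 hN _)
      (Finset.mem_univ i)
    linarith
  choose b hb using fun i => hN.den (a i) (δ / M) (div_pos hcpos hMpos)
  have key : ∀ i (t : AlgebraicClosure (v.adicCompletion L)), N t ≤ M →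
      N ((algebraMap (v.adicCompletion L) _ (a i) - algebraMap L _ (b i)) * t) ≤ δ := by
    intro i t ht
    rw [hN.mul]
    calc _ ≤ δ / M * M := mul_le_mul (hb i).le ht (nn0 hN _) (div_pos hcpos hMpos).le
      _ = δ := div_mul_cancel₀ _ hMpos.ne'
  set z : AlgebraicClosure L := ∑ i, algebraMap L _ (b i) * x i with hz
  have hz1 : N (ι z) ≤ δ := by
    have e : ι z = ∑ i, -((algebraMap (v.adicCompletion L) _ (a i) - algebraMap L _ (b i)) *
        ι (x i)) := by
      rw [hz, map_sum, Finset.sum_neg_distrib]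
      simp only [sub_mul, Finset.sum_sub_distrib]
      rw [hx, zero_sub, neg_neg]
      refine Finset.sum_congr rfl fun i _ => ?_
      rw [map_mul, AlgHom.commutes]
    rw [e]
    refine sum_le hN _ _ hcpos.le fun i _ => ?_
    rw [neg hN]
    exact key i _ (hx1 i)
  have hz2 : N (ι (h z)) ≤ δ := by
    have h1 : N (ι (z * algebraMap L _ c⁻¹)) ≤ 1 := by
      rw [map_mul, hN.mul, AlgHom.commutes]
      have h2 : N (algebraMap L (AlgebraicClosure (v.adicCompletion L)) c⁻¹) * δ = 1 := by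
        rw [hδ, ← hN.mul, ← map_mul, inv_mul_cancel₀ hc0, map_one, one hN]
      have h3 := nn0 hN (algebraMap L (AlgebraicClosure (v.adicCompletion L)) c⁻¹)
      calc _ ≤ δ * N (algebraMap L (AlgebraicClosure (v.adicCompletion L)) c⁻¹) :=
            mul_le_mul_of_nonneg_right hz1 h3
        _ = 1 := by rw [mul_comm, h2]
    have h4 := unit hN hQ hI (hDV L v N hN Q ι hQ) _ h1
    rw [map_mul, AlgEquiv.commutes, map_mul, AlgHom.commutes, hN.mul] at h4
    have h2 : N (algebraMap L (AlgebraicClosure (v.adicCompletion L)) c⁻¹) * δ = 1 := by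
      rw [hδ, ← hN.mul, ← map_mul, inv_mul_cancel₀ hc0, map_one, one hN]
    calc N (ι (h z)) = N (ι (h z)) *
          (N (algebraMap L (AlgebraicClosure (v.adicCompletion L)) c⁻¹) * δ) := by
          rw [h2, mul_one]
      _ = (N (ι (h z)) * N (algebraMap L (AlgebraicClosure (v.adicCompletion L)) c⁻¹)) * δ := by
          ring
      _ ≤ 1 * δ := mul_le_mul_of_nonneg_right h4 hcpos.le
      _ = δ := one_mul _
  have e2 : ∑ i, algebraMap (v.adicCompletion L) (AlgebraicClosure (v.adicCompletion L)) (a i) *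
      ι (h (x i)) = ∑ i, ((algebraMap (v.adicCompletion L) _ (a i) - algebraMap L _ (b i)) *
        ι (h (x i))) + ι (h z) := by
    rw [hz, map_sum, map_sum]
    simp only [sub_mul, Finset.sum_sub_distrib, map_mul, AlgEquiv.commutes, AlgHom.commutes]
    rw [sub_add_cancel]
  have h6 : N (∑ i, algebraMap (v.adicCompletion L) (AlgebraicClosure (v.adicCompletion L)) (a i) *
      ι (h (x i))) ≤ δ := by
    rw [e2]
    refine (hN.add _ _).trans (max_le ?_ hz2)
    exact sum_le hN _ _ hcpos.le fun i _ => key i _ (hx2 i)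
  exact absurd h6 (not_le.2 hc)

end Pool.Agent.Work.MP_59f3ad_nt.FE
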