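import Pool.Agent.Work.MP_59f3ad_nt.FE.StmtsF

/-!
Item DV of the block FE: elements of norm at most one are fractions of algebraic integers with a
denominator outside the prime.
-/

set_option autoImplicit false

open NumberField IsDedekindDomain

namespace Pool.Agent.Work.MP_59f3ad_nt.FE

universe u

theorem pr_DV : StDV.{u} := by
  intro L _ _ v N hN Q ι hQ z hz
  have hz_int : IsIntegral L z := (Algebra.IsAlgebraic.isAlgebraic z).isIntegral
  let F : IntermediateField L (AlgebraicClosure L) := IntermediateField.adjoin L {z}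
  have hfd : FiniteDimensional L F := IntermediateField.adjoin.finiteDimensional hz_int
  have hnf : NumberField F := NumberField.of_module_finite L F
  have hQp := hQ.pr
  let P : Ideal (𝓞 F) := Q.comap (algebraMap (𝓞 F) (𝓞 (AlgebraicClosure L)))
  have hP : P.IsPrime := Ideal.comap_isPrime _ _
  have hP0 : P ≠ ⊥ := by
    obtain ⟨a, ha, ha0⟩ := Submodule.exists_mem_ne_zero_of_ne_bot v.ne_bot
    have h1 : algebraMap (𝓞 L) (𝓞 (AlgebraicClosure L)) a ∈ Q := by
      rw [← hQ.co] at ha
      exact ha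
    intro hbot
    have h2 : algebraMap (𝓞 L) (𝓞 F) a ∈ P := by
      change algebraMap (𝓞 F) (𝓞 (AlgebraicClosure L)) (algebraMap (𝓞 L) (𝓞 F) a) ∈ Q
      rw [← IsScalarTower.algebraMap_apply]
      exact h1
    rw [hbot, Ideal.mem_bot] at h2
    apply ha0
    exact (FaithfulSMul.algebraMap_injective (𝓞 L) (𝓞 F)) (by rw [h2, map_zero])
  let w : HeightOneSpectrum (𝓞 F) := ⟨P, hP, hP0⟩
  have hnn : ∀ x, 0 ≤ N x := by
    intro x
    by_cases h : x = 0
    · rw [h, hN.zero]
    · exact (hN.pos x h).le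
  let zF : F := ⟨z, IntermediateField.mem_adjoin_simple_self L z⟩
  have hcoe : ∀ m : 𝓞 F, ((algebraMap (𝓞 F) (𝓞 (AlgebraicClosure L)) m : 𝓞 (AlgebraicClosure L)) :
      AlgebraicClosure L) = ((m : F) : AlgebraicClosure L) := fun m => rfl
  obtain ⟨n, d, h | h⟩ := HeightOneSpectrum.exists_primeCompl_mul_eq_or_mul_eq w zF
  · refine ⟨algebraMap (𝓞 F) (𝓞 (AlgebraicClosure L)) n,
      algebraMap (𝓞 F) (𝓞 (AlgebraicClosure L)) d, d.2, ?_⟩
    have := congrArg (fun t : F => (t : AlgebraicClosure L)) h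
    exact this
  · have h' : z * ((n : F) : AlgebraicClosure L) =
        (((d : 𝓞 F) : F) : AlgebraicClosure L) :=
      congrArg (fun t : F => (t : AlgebraicClosure L)) h
    by_cases hn : algebraMap (𝓞 F) (𝓞 (AlgebraicClosure L)) n ∈ Q
    · exfalso
      have e1 := (hQ.mem _).mp hn
      have e2 : N (ι ((algebraMap (𝓞 F) (𝓞 (AlgebraicClosure L)) (d : 𝓞 F) :
          𝓞 (AlgebraicClosure L)) : AlgebraicClosure L)) = 1 := by
        refine le_antisymm (hQ.int _) ?_
        by_contra hlt
        exact d.2 ((hQ.mem _).mpr (not_le.mp hlt))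
      rw [hcoe] at e1 e2
      rw [← h', map_mul, hN.mul] at e2
      have e3 : N (ι z) * N (ι ((n : F) : AlgebraicClosure L)) ≤
          1 * N (ι ((n : F) : AlgebraicClosure L)) :=
        mul_le_mul_of_nonneg_right hz (hnn _)
      linarith
    · exact ⟨algebraMap (𝓞 F) (𝓞 (AlgebraicClosure L)) d,
        algebraMap (𝓞 F) (𝓞 (AlgebraicClosure L)) n, hn, h'⟩

end Pool.Agent.Work.MP_59f3ad_nt.FE
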