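import Pool.Agent.Work.MP_59f3ad_nt.FE.StmtsF

/-!
Block FE, item DQ: the prime of the ring of all algebraic integers defined by an embedding.
-/

set_option autoImplicit false

open NumberField IsDedekindDomain

namespace Pool.Agent.Work.MP_59f3ad_nt.FE

universe u

namespace IDQ

section

variable {L : Type u} [Field L] [NumberField L] {v : HeightOneSpectrum (𝓞 L)}
  {N : AlgebraicClosure (v.adicCompletion L) → ℝ}

theorem N_one (h : NN L v N) : N 1 = 1 := by
  have h1 := h.mul 1 1
  rw [mul_one] at h1
  have h2 := h.pos 1 one_ne_zero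
  have h3 : N 1 * (N 1 - 1) = 0 := by linarith
  rcases mul_eq_zero.1 h3 with h4 | h4
  · exact absurd h4 h2.ne'
  · linarith

theorem N_nonneg (h : NN L v N) (x : AlgebraicClosure (v.adicCompletion L)) : 0 ≤ N x := by
  by_cases hx : x = 0
  · rw [hx, h.zero]
  · exact (h.pos x hx).le

open scoped NNReal in
/-- the valuation given by `N` -/
noncomputable def val (h : NN L v N) :
    Valuation (AlgebraicClosure (v.adicCompletion L)) ℝ≥0 where
  toFun x := ⟨N x, N_nonneg h x⟩
  map_zero' := by
    apply NNReal.eq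
    exact h.zero
  map_one' := by
    apply NNReal.eq
    exact N_one h
  map_mul' x y := by
    apply NNReal.eq
    exact h.mul x y
  map_add_le_max' x y := by
    rcases le_max_iff.1 (h.add x y) with h1 | h1
    · exact le_max_of_le_left (show (⟨N (x + y), N_nonneg h _⟩ : ℝ≥0) ≤ ⟨N x, N_nonneg h _⟩ from h1)
    · exact le_max_of_le_right (show (⟨N (x + y), N_nonneg h _⟩ : ℝ≥0) ≤ ⟨N y, N_nonneg h _⟩ from h1)

theorem val_le_one (h : NN L v N) (x : AlgebraicClosure (v.adicCompletion L)) :
    val h x ≤ 1 ↔ N x ≤ 1 := by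
  rw [← NNReal.coe_le_coe]
  rfl

theorem le_one_of_isIntegral (h : NN L v N) (x : AlgebraicClosure (v.adicCompletion L))
    (hx : IsIntegral ℤ x) : N x ≤ 1 := by
  rw [← val_le_one h]
  have h1 : IsIntegral (val h).integer x := hx.tower_top
  exact Valuation.Integers.mem_of_integral (Valuation.integer.integers (val h)) h1

end

end IDQ

open IDQ in
theorem pr_DQ : StDQ.{u} := by
  intro L _ _ v N h ι
  have hint : ∀ y : 𝓞 (AlgebraicClosure L), N (ι (y : AlgebraicClosure L)) ≤ 1 := by
    intro y
    refine le_one_of_isIntegral h _ ?_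
    have h1 : IsIntegral ℤ (y : AlgebraicClosure L) := y.isIntegral_coe
    exact h1.map (ι.restrictScalars ℤ)
  let e : 𝓞 (AlgebraicClosure L) →+* AlgebraicClosure (v.adicCompletion L) :=
    (ι : AlgebraicClosure L →+* AlgebraicClosure (v.adicCompletion L)).comp
      (algebraMap (𝓞 (AlgebraicClosure L)) (AlgebraicClosure L))
  have hint' : ∀ y, N (e y) ≤ 1 := hint
  let Q : Ideal (𝓞 (AlgebraicClosure L)) :=
    { carrier := {y | N (e y) < 1}
      zero_mem' := by
        show N (e 0) < 1
        rw [map_zero, h.zero]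
        exact one_pos
      add_mem' := by
        intro x y hx hy
        show N (e (x + y)) < 1
        rw [map_add]
        exact (h.add _ _).trans_lt (max_lt hx hy)
      smul_mem' := by
        intro c x hx
        show N (e (c * x)) < 1
        rw [map_mul, h.mul]
        have hx' : N (e x) < 1 := hx
        calc N (e c) * N (e x) ≤ 1 * N (e x) :=
              mul_le_mul_of_nonneg_right (hint' c) (N_nonneg h _)
          _ < 1 := by rw [one_mul]; exact hx' }
  have hQe : ∀ y : 𝓞 (AlgebraicClosure L), y ∈ Q ↔ N (e y) < 1 := fun y => Iff.rfl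
  have hQ : ∀ y : 𝓞 (AlgebraicClosure L), y ∈ Q ↔ N (ι (y : AlgebraicClosure L)) < 1 :=
    fun y => Iff.rfl
  refine ⟨Q, ?_, ?_, hint, hQ⟩
  · refine Ideal.isPrime_iff.2 ⟨?_, ?_⟩
    · intro htop
      have h1 : (1 : 𝓞 (AlgebraicClosure L)) ∈ Q := by rw [htop]; exact Submodule.mem_top
      rw [hQe, map_one, N_one h] at h1
      exact lt_irrefl _ h1
    · intro x y hxy
      rw [hQe, map_mul, h.mul] at hxy
      by_contra hcon
      rw [not_or, hQe, hQe, not_lt, not_lt] at hcon
      have h1 : 1 ≤ N (e x) * N (e y) := one_le_mul_of_one_le_of_one_le hcon.1 hcon.2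
      exact absurd hxy (not_lt.2 h1)
  · ext a
    rw [Ideal.mem_comap, hQ]
    have h1 : ((algebraMap (𝓞 L) (𝓞 (AlgebraicClosure L)) a : 𝓞 (AlgebraicClosure L)) :
        AlgebraicClosure L) = algebraMap L (AlgebraicClosure L) (a : L) := rfl
    rw [h1, ι.commutes, h.lt]
    exact v.valuation_lt_one_iff_mem a

end Pool.Agent.Work.MP_59f3ad_nt.FE
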