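import Mathlib
import Pool.Agent.Work.MP_59f3ad_nt.FE.Defs
import Pool.Agent.Work.MP_59f3ad_nt.UCF.Defs

/-!
Block FE, part F: inertia groups, decomposition groups, cyclotomic character, Galois correspondence.
Every docstring is the complete proof. `Ω` is an algebraic closure of `k` (usually
`AlgebraicClosure L`), `GK L` the absolute Galois group, `Inr Q g` means that `g` is in the inertia
group of the prime `Q` of `𝓞 Ω`. Landed models: folder `Q3`, files `I_Tau.lean`, `I_Mur.lean`,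
`I_Fix.lean` (`pr_Fix`, `InrQ` in `Q3/Defs.lean`), `Bridge.lean` (`exists_prime_above`),
`Bdx/B04.lean` (`continuous_zpow_cyc`).
-/

set_option autoImplicit false

open NumberField IsDedekindDomain

namespace Pool.Agent.Work.MP_59f3ad_nt.FE

universe u

/-! ### Inertia -/

/-- IC (EASY-MEDIUM). `1`, products, inverses: `g (h y) - y = (g (h y) - h y) + (h y - y)`;
`y - g⁻¹ y = g z - z` for `z = g⁻¹ y` (`g` maps integral elements to integral elements). Closed: if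
`g y - y ∉ Q` then the same holds for all `g'` in `g Stab(y)`, which is open because `Stab(y)` is
(`stabilizer_isOpen_of_isIntegral`, as in `Q3/I_Tau.lean`). -/
def StIC : Prop := ∀ (k : Type u) [Field k] [NumberField k] (Ω : Type u) [Field Ω] [Algebra k Ω]
  [IsAlgClosure k Ω] (Q : Ideal (𝓞 Ω)), ∃ I : Subgroup (Ω ≃ₐ[k] Ω),
    (∀ g, g ∈ I ↔ Inr Q g) ∧ IsClosed (I : Set (Ω ≃ₐ[k] Ω))

/-- LI (MEDIUM-HARD), lifting an inertia element of a finite extension `M` of `k` to `Ω`. Adapt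
`Q3/I_Tau.lean` (there `M = L`, `Ω = AlgebraicClosure L`). `Ω` is an algebraic closure of `M`, so `σ`
extends to an automorphism `g` of `Ω` (`IsAlgClosure.equivOfEquiv`), which is the identity on `k`.
Let `P = Q ∩ 𝓞 M`; `g⁻¹ Q` lies over `P` too because `σ` is the identity modulo `P`. `Gal(Ω/M)` acts
transitively on the primes of `𝓞 Ω` over `P`
(`Algebra.IsInvariant.exists_smul_of_under_eq_of_profinite` with `A = 𝓞 M`, `G = Gal(Ω/M)`), so after
composing with an element of it `g Q = Q`; `g` acts on `𝓞 Ω / Q` over `𝓞 M / P` and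
`Ideal.Quotient.stabilizerHom_surjective_of_profinite` gives `h ∈ Gal(Ω/M)` with the same action;
`τ = g h⁻¹`. -/
def StLI : Prop := ∀ (k : Type u) [Field k] [NumberField k] (Ω : Type u) [Field Ω] [Algebra k Ω]
  [IsAlgClosure k Ω] (M : IntermediateField k Ω) [FiniteDimensional k M] (Q : Ideal (𝓞 Ω)),
  Q.IsPrime → ∀ σ : M ≃ₐ[k] M,
  (∀ (y : M) (z z' : 𝓞 Ω), (z : Ω) = (y : Ω) → (z' : Ω) = ((σ y : M) : Ω) → z' - z ∈ Q) →
  ∃ τ : Ω ≃ₐ[k] Ω, Inr Q τ ∧ ∀ y : M, τ (y : Ω) = ((σ y : M) : Ω)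

/-! ### Decomposition groups -/

/-- DN (MEDIUM-HARD). `C = AlgebraicClosure L_v`, `L_v = v.adicCompletion L`: a complete
nonarchimedean field with the norm of the Mathlib instance
`NumberField.instNormedFieldValuedAdicCompletion` (or the one given by `Valued.norm`), nontrivial
because `v.asIdeal ≠ ⊥`. `N = spectralNorm L_v C` is a multiplicative nonarchimedean norm on `C` which
extends the norm of `L_v` (`spectralNorm_mul`, `isNonarchimedean_spectralNorm`,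
`spectralNorm_extends`; the field `C` is algebraic over `L_v`). For `a ∈ L` the norm of `a` in `L_v` is
`≤ 1` (`< 1`) if and only if `v.valuation L a ≤ 1` (`< 1`). `L` is dense in its completion `L_v`. -/
def StDN : Prop := ∀ (L : Type u) [Field L] [NumberField L] (v : HeightOneSpectrum (𝓞 L)),
  ∃ N : AlgebraicClosure (v.adicCompletion L) → ℝ, NN L v N

/-- DQ (EASY-MEDIUM). `Q = {y : N (ι y) < 1}`. For `y ∈ 𝓞 Ω`: `N (ι y) ≤ 1` (if `N > 1`: `y` is a root of a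
monic polynomial with coefficients in `ℤ`, `N m ≤ 1` for integers by `le` or `add`, and
`N (y^d) = N y ^ d > N (lower terms)`, contradiction). `Q` is a prime ideal (`N` multiplicative,
`N 1 = 1`); `Q ∩ 𝓞 L = v` by `lt` and `HeightOneSpectrum.valuation_lt_one_iff_mem`. -/
def StDQ : Prop := ∀ (L : Type u) [Field L] [NumberField L] (v : HeightOneSpectrum (𝓞 L))
  (N : AlgebraicClosure (v.adicCompletion L) → ℝ), NN L v N →
  ∀ ι : AlgebraicClosure L →ₐ[L] AlgebraicClosure (v.adicCompletion L),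
    ∃ Q : Ideal (𝓞 (AlgebraicClosure L)), QI L v N Q ι

/-- DV (MEDIUM). `F = L(z)` is a number field inside `Ω`, `P = Q ∩ 𝓞 F` is a nonzero prime of the
Dedekind domain `𝓞 F`. The localisation at `P` is a discrete valuation ring with fraction field
`F`: so either `z = a/b` or `z⁻¹ = a/b` with `a, b ∈ 𝓞 F`, `b ∉ P`. In the second case, if `a ∉ P`
then `z = b/a`; if `a ∈ P`, then `N (ι z⁻¹) = N (ι a) / N (ι b) < 1`, so `N (ι z) > 1`,
contradiction (`N (ι b) = 1` by `QI.int`, `QI.mem`). -/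
def StDV : Prop := ∀ (L : Type u) [Field L] [NumberField L] (v : HeightOneSpectrum (𝓞 L))
  (N : AlgebraicClosure (v.adicCompletion L) → ℝ), NN L v N →
  ∀ (Q : Ideal (𝓞 (AlgebraicClosure L)))
    (ι : AlgebraicClosure L →ₐ[L] AlgebraicClosure (v.adicCompletion L)), QI L v N Q ι →
  ∀ z : AlgebraicClosure L, N (ι z) ≤ 1 →
    ∃ a b : 𝓞 (AlgebraicClosure L), b ∉ Q ∧
      z * (b : AlgebraicClosure L) = (a : AlgebraicClosure L)

/-- DK (MEDIUM). (1) `N (ι z) ≤ 1` implies `N (ι (h z)) ≤ 1`: `z b = a` (DV), `b ∉ Q`, so `h b ∉ Q`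
(`h b - b ∈ Q`), `N (ι (h b)) = 1` and `N (ι (h a)) ≤ 1` (`h a`, `h b` are integral). (2) For every `ε > 0`
there is `c ∈ L`, `0 < N c < ε`: a power of a nonzero element of `v.asIdeal` (`NN.lt`). Let `δ = N c` and
choose `b_i ∈ L` with `N (a_i - b_i)` so small (`NN.den`) that `N ((a_i - b_i) ι(x_i)) < δ` and
`N ((a_i - b_i) ι(h x_i)) < δ` for all `i`. `z = ∑ b_i x_i`: `N (ι z) = N (∑ (b_i - a_i) ι(x_i)) ≤ δ`, so
`N (ι (z/c)) ≤ 1`, `N (ι (h (z/c))) ≤ 1` and `N (ι (h z)) ≤ δ` (`h c = c`). So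
`N (∑ a_i ι(h x_i)) ≤ max (δ, N (ι (h z))) ≤ δ < ε` for every `ε`, and the sum is `0`. USES DV. -/
def StDK : Prop := ∀ (L : Type u) [Field L] [NumberField L] (v : HeightOneSpectrum (𝓞 L))
  (N : AlgebraicClosure (v.adicCompletion L) → ℝ), NN L v N →
  ∀ (Q : Ideal (𝓞 (AlgebraicClosure L)))
    (ι : AlgebraicClosure L →ₐ[L] AlgebraicClosure (v.adicCompletion L)), QI L v N Q ι →
  ∀ h : GK L, Inr Q h → ∀ (n : ℕ) (a : Fin n → v.adicCompletion L) (x : Fin n → AlgebraicClosure L),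
    ∑ i, algebraMap (v.adicCompletion L) (AlgebraicClosure (v.adicCompletion L)) (a i) *
      ι (x i) = 0 →
    ∑ i, algebraMap (v.adicCompletion L) (AlgebraicClosure (v.adicCompletion L)) (a i) *
      ι (h (x i)) = 0

/-- DX (MEDIUM), algebra. `C = AlgebraicClosure K`. The `K`-algebra maps `T, T' : K ⊗_L Ω → C`,
`T(a ⊗ x) = a ι(x)`, `T'(a ⊗ x) = a ι(h x)`. By hypothesis `ker T ≤ ker T'` (every tensor is a finite
sum of pure tensors), so `T'` factors through the image `E` of `T`, a subring of `C` between `K` and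
`C`, algebraic over `K`: `f : E → C` with `f (ι x) = ι (h x)`, `K`-linear. `C` is algebraic over
`E`, so `f` extends to `g : C → C` (`IsAlgClosed.lift` or
`IsAlgClosed.surjective_domRestrict_of_isAlgebraic` for the intermediate field `E`), and a `K`-algebra
endomorphism of `C` is an automorphism (`Algebra.IsAlgebraic.algEquivEquivAlgHom`). -/
def StDX : Prop := ∀ (L K : Type u) [Field L] [Field K] [Algebra L K]
  (ι : AlgebraicClosure L →ₐ[L] AlgebraicClosure K) (h : GK L),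
  (∀ (n : ℕ) (a : Fin n → K) (x : Fin n → AlgebraicClosure L),
    ∑ i, algebraMap K (AlgebraicClosure K) (a i) * ι (x i) = 0 →
    ∑ i, algebraMap K (AlgebraicClosure K) (a i) * ι (h (x i)) = 0) →
  ∃ g : GK K, ∀ x, ι (h x) = g (ι x)

/-- DT (EASY-MEDIUM). `ι0 : Ω → C` any `L`-embedding (`IsAlgClosed.lift`), `Q0` its ideal (DQ). `Q` and
`Q0` lie over `v`, so `Q0 = a Q` for some `a ∈ GK L`
(`Algebra.IsInvariant.exists_smul_of_under_eq_of_profinite`, instances as in `Q3/I_Tau.lean`). Put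
`ι = ι0 ∘ a`: `y ∈ Q ↔ a y ∈ Q0 ↔ N (ι0 (a y)) < 1`. USES DQ. -/
def StDT : Prop := ∀ (L : Type u) [Field L] [NumberField L] (v : HeightOneSpectrum (𝓞 L))
  (N : AlgebraicClosure (v.adicCompletion L) → ℝ), NN L v N →
  ∀ Q : Ideal (𝓞 (AlgebraicClosure L)), Q.IsPrime →
  Q.comap (algebraMap (𝓞 L) (𝓞 (AlgebraicClosure L))) = v.asIdeal →
  ∃ ι : AlgebraicClosure L →ₐ[L] AlgebraicClosure (v.adicCompletion L), QI L v N Q ι

/-- DE (EASY). `N` from DN, `ι` from DT; DK gives the hypothesis of DX for `K = L_v`.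
USES DN DT DK DX (and DQ DV, which are hypotheses of DT, DK). -/
def StDE : Prop := ∀ (L : Type u) [Field L] [NumberField L] (v : HeightOneSpectrum (𝓞 L))
  (Q : Ideal (𝓞 (AlgebraicClosure L))), Q.IsPrime →
  Q.comap (algebraMap (𝓞 L) (𝓞 (AlgebraicClosure L))) = v.asIdeal →
  ∃ ι : AlgebraicClosure L →ₐ[L] AlgebraicClosure (v.adicCompletion L),
    ∀ h : GK L, Inr Q h → ∃ g : GK (v.adicCompletion L), ∀ x, ι (h x) = g (ι x)

/-- LO (EASY-MEDIUM). `v = Q ∩ 𝓞 L` is a nonzero prime (`𝓞 Ω` is integral over `𝓞 L`;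
`Ideal.comap_ne_bot_of_integral_mem` or similar). If `v ∈ S`: `ι` from DE and the constant `c` of
`LocTriv` for `ι`. If `v ∉ S`: the landed `Q3.pr_Fix` (`InrQ (RingEquiv.refl L) v h Q`) gives
`h ∈ (maxUnram L S).fixingSubgroup`, so `φ h = 0` and `c = 0` works. USES DE. -/
def StLO : Prop := ∀ (L : Type u) [Field L] [NumberField L] (p : ℕ) [Fact p.Prime] (r : ℤ)
  (S : Set (HeightOneSpectrum (𝓞 L))), ∀ φ ∈ ShaZ L p r S,
  ∀ Q : Ideal (𝓞 (AlgebraicClosure L)), Q.IsPrime → Q ≠ ⊥ →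
    ∃ c : ℤ_[p], ∀ h : GK L, Inr Q h → φ h = (twist L p r h - 1) * c

/-! ### The cyclotomic character on inertia -/

/-- MU (EASY), adapt `Q3/I_Mur.lean` from `3` to `p` (there `x² + x + 1`; here: if `x^p = 1`, `x ≠ 1`,
`x - 1 ∈ Q` then `1 + x + ... + x^(p-1) = 0` and every `x^j` is `1` modulo `Q`, so `p ∈ Q`). -/
def StMU : Prop := ∀ (L : Type u) [Field L] [NumberField L] (p : ℕ) [Fact p.Prime]
  (Q : Ideal (𝓞 (AlgebraicClosure L))), Q.IsPrime → (p : 𝓞 (AlgebraicClosure L)) ∉ Q →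
  ∀ h : GK L, Inr Q h → cyc L p h = 1

/-- KU (EASY-MEDIUM). Let `ζ ∈ Ω` be a primitive root of unity of order `p^k`.
`h ζ = ζ^((toZModPow k (cyc h)).val)` (`cyclotomicCharacter.spec`), so both sides say
`toZModPow k (cyc h) = toZModPow k y` (all roots of `X^(p^k) = 1` are powers of `ζ`), and the kernel of
`toZModPow k` is generated by `p^k` (`PadicInt.ker_toZModPow`). -/
def StKU : Prop := ∀ (L : Type u) [Field L] [NumberField L] (p : ℕ) [Fact p.Prime] (h : GK L)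
  (y : ℤ_[p]ˣ) (k : ℕ), (∀ ζ : AlgebraicClosure L, ζ ^ p ^ k = 1 →
    h ζ = ζ ^ (PadicInt.toZModPow k (y : ℤ_[p])).val) ↔
    (p : ℤ_[p]) ^ k ∣ ((cyc L p h : ℤ_[p]ˣ) : ℤ_[p]) - (y : ℤ_[p])

/-- KF (EASY-MEDIUM). `mu L p k = L(ζ)`: KU with `y = 1` gives
`h ∈ Lev ↔ h` fixes all `ζ` with `ζ^(p^k) = 1 ↔ h` fixes `mu L p k`
(`IntermediateField.forall_mem_adjoin_smul_eq_self_iff` or `adjoin_le_iff` with the fixed field). Finite:
generated by finitely many algebraic elements. Cyclotomic: `IsCyclotomicExtension {p^k} L (mu L p k)`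
(primitive root in `mu`, generation by `IntermediateField.adjoin` and algebraicity). `cyc` is continuous
(landed `continuous_zpow_cyc` or `Bd/B01.lean` `cyc_continuous`: the coordinate is continuous;
units of `ℤ_p` carry the induced topology, `Units.isEmbedding_val₀`-type lemma or
`Units.continuous_iff`). USES KU. -/
def StKF : Prop := ∀ (L : Type u) [Field L] [NumberField L] (p : ℕ) [Fact p.Prime],
  Continuous (cyc L p) ∧ ∀ k : ℕ,
  Lev (cyc L p) k = (mu L p k).fixingSubgroup ∧ FiniteDimensional L (mu L p k) ∧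
    IsCyclotomicExtension {p ^ k} L (mu L p k)

/-- CY (MEDIUM-HARD). `M = mu L p k = L(ζ)`, `ζ` a primitive root of order `p^k`, finite Galois over `L`,
`P = Q ∩ 𝓞 M` (contains `p`, so `P ≠ ⊥`), `I` the inertia group of `P` in `Gal(M/L)`, of order
`e(P|v)` (`Ideal.card_inertia_eq_ramificationIdxIn`, `Ideal.ramificationIdxIn_eq_ramificationIdx`).
`ρ : Gal(M/L) → (ℤ/p^k)ˣ`, `σ ζ = ζ^(ρ σ)`, is injective (`IsPrimitiveRoot.autToPow_injective`);
`A = ρ(I)`, `|A| = e(P|v)`. For `x = ρ(σ)`, `σ ∈ I`, LI gives `h ∈ GK L` with `Inr Q h`, `h = σ` on `M`.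
`e(P|v) e(v|p) = e(P|p)` (`Ideal.ramificationIdx_tower`), and `(p-1) p^(k-1)` divides `e(P|p)`:
`p = Φ(1) = ∏_j (1 - ζ^j)` over the `(p-1) p^(k-1)` classes `j` prime to `p`, every `1 - ζ^j` is
`1 - ζ` times a unit, so the exponent of `P` in `p 𝓞 M` is `(p-1) p^(k-1)` times the exponent in
`(1 - ζ)`; or: `e(q|p) = (p-1) p^(k-1)` for `q = P ∩ ℚ(ζ)` (Mathlib `IsCyclotomicExtension.Rat`) and
`e(P|p) = e(P|q) e(q|p)`. USES LI KF. -/
def StCY : Prop := ∀ (L : Type u) [Field L] [NumberField L] (p : ℕ) [Fact p.Prime]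
  (v : HeightOneSpectrum (𝓞 L)), (p : 𝓞 L) ∈ v.asIdeal →
  ∀ Q : Ideal (𝓞 (AlgebraicClosure L)), Q.IsPrime →
  Q.comap (algebraMap (𝓞 L) (𝓞 (AlgebraicClosure L))) = v.asIdeal → ∀ k : ℕ, 1 ≤ k →
  ∃ A : Subgroup (ZMod (p ^ k))ˣ,
    (∀ x ∈ A, ∃ h : GK L, Inr Q h ∧
      ∀ ζ : AlgebraicClosure L, ζ ^ p ^ k = 1 → h ζ = ζ ^ (x : ZMod (p ^ k)).val) ∧
    (p - 1) * p ^ (k - 1) ∣ Nat.card A * v.asIdeal.ramificationIdx ℤ

/-- RB (EASY-MEDIUM). If `p^m ∤ e` then `e ≠ 0`, `v_p(e) ≤ m - 1`, so `p^(k-m)` divides `|A|`. The group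
`(ℤ/p^k)ˣ` is cyclic (`ZMod.isCyclic_units_of_prime_pow`), `A` is cyclic, so it contains an element of
order `p^(k-m)`, hence `p^(k-m)` solutions of `x^(p^(k-m)) = 1`, and the cyclic group has no others
(`IsCyclic.card_pow_eq_one_le`). If `e = 1`: `|A|` is at least the order `(p-1) p^(k-1)` of the
group. -/
def StRB : Prop := ∀ (p : ℕ) [Fact p.Prime], p ≠ 2 → ∀ k m e : ℕ, 1 ≤ m → m ≤ k →
  ∀ A : Subgroup (ZMod (p ^ k))ˣ, (p - 1) * p ^ (k - 1) ∣ Nat.card A * e →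
  (¬ p ^ m ∣ e → ∀ x : (ZMod (p ^ k))ˣ, x ^ p ^ (k - m) = 1 → x ∈ A) ∧ (e = 1 → A = ⊤)

/-- RA (MEDIUM). Let `e = v.asIdeal.ramificationIdx ℤ` and `k ≥ m`, `A` from CY, `y` congruent to `1`
modulo `p^m`, `x` its image in `(ℤ/p^k)ˣ`. `y^(p^j) = 1` modulo `p^(m+j)` by induction
(`(1 + p^i w)^p = 1` modulo `p^(i+1)`), so `x^(p^(k-m)) = 1` and `x ∈ A` (RB) [second part: `A = ⊤`,
take `m = 1`]. So there is `h` with `Inr Q h`, `h ζ = ζ^x`, that is `p^k ∣ cyc h - y` (KU). The sets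
`C_k = {h : Inr Q h, p^k ∣ cyc h - y}` are closed (IC; `cyc` is continuous (KF) and balls of `ℤ_p` are
closed), not empty and decreasing, `GK L` is compact: there is `h` in all of them
(`IsCompact.nonempty_iInter_of_sequence_nonempty_isCompact_isClosed`), and `cyc h = y`.
USES IC KU KF CY RB (and LI, a hypothesis of CY). -/
def StRA : Prop := ∀ (L : Type u) [Field L] [NumberField L] (p : ℕ) [Fact p.Prime], p ≠ 2 →
  ∀ v : HeightOneSpectrum (𝓞 L), (p : 𝓞 L) ∈ v.asIdeal →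
  ∀ Q : Ideal (𝓞 (AlgebraicClosure L)), Q.IsPrime →
  Q.comap (algebraMap (𝓞 L) (𝓞 (AlgebraicClosure L))) = v.asIdeal →
  (∀ m : ℕ, 1 ≤ m → ¬ p ^ m ∣ v.asIdeal.ramificationIdx ℤ → ∀ y : ℤ_[p]ˣ,
    (p : ℤ_[p]) ^ m ∣ (y : ℤ_[p]) - 1 → ∃ h : GK L, Inr Q h ∧ cyc L p h = y) ∧
  (v.asIdeal.ramificationIdx ℤ = 1 → ∀ y : ℤ_[p]ˣ, ∃ h : GK L, Inr Q h ∧ cyc L p h = y)

/-- CC (EASY). `Φ g i = φ i g`. Continuity coordinatewise, the cocycle identity is that of `Z1`
(`twist L p (r i) g = act (cyc L p) r g i`), `ind` is `Indep` (the hypothesis of `ind` says that the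
function is in `B1`). -/
def StCC : Prop := ∀ (L : Type u) [Field L] [NumberField L] (p : ℕ) [Fact p.Prime] (n : ℕ)
  (r : Fin n → ℤ) (φ : Fin n → GK L → ℤ_[p]), (∀ i, φ i ∈ Z1 L p (r i)) → Indep L p r φ →
  Coc (cyc L p) r (fun g i => φ i g)

/-- LC (EASY-MEDIUM). `con`: the constants of LO for the coordinates. `kind`: if `p ∉ Q` then `cyc = 1` on
inertia (MU); if `p ∈ Q` then `v = Q ∩ 𝓞 L` contains `p` and RA gives all values (`m ≥ 1`, `Rm`; or
`m = 0`, `Ur`). Last part: a place `v` above `p` (`exists_prime_above`) and a prime `Q` over it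
(`ITau.exists_over` in `Q3/I_Tau.lean`), RA. USES LO MU RA. -/
def StLC : Prop := ∀ (L : Type u) [Field L] [NumberField L] (p : ℕ) [Fact p.Prime], p ≠ 2 →
  ∀ (n : ℕ) (r : Fin n → ℤ) (S : Fin n → Set (HeightOneSpectrum (𝓞 L)))
  (φ : Fin n → GK L → ℤ_[p]), (∀ i, φ i ∈ ShaZ L p (r i) (S i)) → ∀ m : ℕ,
  ((1 ≤ m ∧ Rm L p m) ∨ (m = 0 ∧ Ur L p)) →
  (∀ Q : Ideal (𝓞 (AlgebraicClosure L)), Q.IsPrime → Q ≠ ⊥ →
    Loc (cyc L p) r (fun g i => φ i g) m {h : GK L | Inr Q h}) ∧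
  ∃ Q : Ideal (𝓞 (AlgebraicClosure L)), Q.IsPrime ∧ Q ≠ ⊥ ∧
    ∀ y : ℤ_[p]ˣ, (p : ℤ_[p]) ^ m ∣ (y : ℤ_[p]) - 1 → ∃ h ∈ {h : GK L | Inr Q h}, cyc L p h = y

/-! ### From open subgroups to unramified extensions -/

/-- UX (MEDIUM). `N` is open, so closed; `M = fixedField N`, `M.fixingSubgroup = N`
(`InfiniteGalois.fixingSubgroup_fixedField` for the closed subgroup `N`), `M/k` is finite
(`InfiniteGalois.isOpen_iff_finite`) and Galois because `N` is normal
(`InfiniteGalois.normal_iff_isGalois`), `finrank k M = [Gal : N]`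
(`IntermediateField.finrank_eq_fixingSubgroup_index`). `Gal(M/k)` is commutative: `σ`, `τ` lift to
`σ'`, `τ'` (`AlgEquiv.restrictNormalHom_surjective`), the commutator of `σ'`, `τ'` is in `N`.
Unramified: `P ≠ ⊥` a prime of `𝓞 M`, `Q` a prime of `𝓞 Ω` over `P` (lying over, `𝓞 Ω` is integral
over `𝓞 M`). If `σ` is in the inertia group of `P`, LI gives `τ ∈ Gal(Ω/k)` with `Inr Q τ` and
`τ = σ` on `M`; so `τ ∈ N = M.fixingSubgroup` and `σ = 1`. The inertia group has order `1 = e(P)`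
(`Ideal.card_inertia_eq_ramificationIdxIn`, `Ideal.ramificationIdxIn_eq_ramificationIdx`). USES LI. -/
def StUX : Prop := ∀ (k : Type u) [Field k] [NumberField k] (Ω : Type u) [Field Ω] [Algebra k Ω]
  [IsAlgClosure k Ω] (N : Subgroup (Ω ≃ₐ[k] Ω)) [N.Normal], IsOpen (N : Set (Ω ≃ₐ[k] Ω)) →
  (∀ g h : Ω ≃ₐ[k] Ω, g * h * g⁻¹ * h⁻¹ ∈ N) →
  (∀ Q : Ideal (𝓞 Ω), Q.IsPrime → Q ≠ ⊥ → ∀ h : Ω ≃ₐ[k] Ω, Inr Q h → h ∈ N) →
  ∃ M : IntermediateField k Ω, M.fixingSubgroup = N ∧ FiniteDimensional k M ∧ IsGalois k M ∧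
    Module.finrank k M = N.index ∧ (∀ σ τ : Gal(M/k), σ * τ = τ * σ) ∧
    ∀ P : Ideal (𝓞 M), P.IsPrime → P ≠ ⊥ → P.ramificationIdx (𝓞 k) = 1

/-- TR (MEDIUM). `K` is an intermediate field of `Ω/L`, `Ω = AlgebraicClosure L`, an algebraic closure of
`K`. The map `Gal(Ω/K) → Gal(Ω/L)`, `g ↦ g.restrictScalars L`, is injective with image
`K.fixingSubgroup` (`IntermediateField.fixingSubgroupEquiv`); `N'` is the preimage of `N`. Its index
is `[K.fixingSubgroup : N]`. Normal: `g n g⁻¹ = (g n g⁻¹ n⁻¹) n`. Open: `N` contains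
`E.fixingSubgroup` for a finite `E/L`; `N'` contains the fixing subgroup of the finite extension
`K(E)` of `K` (`IntermediateField.adjoin K (E : Set Ω)`), a subgroup with an open subgroup is open.
Inertia: `Inr Q g` is the same condition for `g` and `g.restrictScalars L`. -/
def StTR : Prop := ∀ (L : Type u) [Field L] [NumberField L]
  (K : IntermediateField L (AlgebraicClosure L)) [FiniteDimensional L K] (N : Subgroup (GK L)),
  N ≤ K.fixingSubgroup → IsOpen (N : Set (GK L)) →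
  (∀ g ∈ K.fixingSubgroup, ∀ h ∈ K.fixingSubgroup, g * h * g⁻¹ * h⁻¹ ∈ N) →
  (∀ Q : Ideal (𝓞 (AlgebraicClosure L)), Q.IsPrime → Q ≠ ⊥ → ∀ h : GK L, Inr Q h →
    h ∈ K.fixingSubgroup → h ∈ N) →
  IsAlgClosure K (AlgebraicClosure L) ∧
  ∃ N' : Subgroup (AlgebraicClosure L ≃ₐ[K] AlgebraicClosure L),
    (∀ g : AlgebraicClosure L ≃ₐ[K] AlgebraicClosure L, g ∈ N' ↔ g.restrictScalars L ∈ N) ∧
    N'.Normal ∧ IsOpen (N' : Set (AlgebraicClosure L ≃ₐ[K] AlgebraicClosure L)) ∧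
    (∀ g h : AlgebraicClosure L ≃ₐ[K] AlgebraicClosure L, g * h * g⁻¹ * h⁻¹ ∈ N') ∧
    (∀ Q : Ideal (𝓞 (AlgebraicClosure L)), Q.IsPrime → Q ≠ ⊥ →
      ∀ h : AlgebraicClosure L ≃ₐ[K] AlgebraicClosure L, Inr Q h → h ∈ N') ∧
    N'.index = N.relIndex K.fixingSubgroup

/-- CN (EASY). `K ≃ₐ[L] mu L p k` by uniqueness of the cyclotomic extension
(`IsCyclotomicExtension.algEquiv`, KF), so the rings of integers are isomorphic
(`RingOfIntegers.mapRingEquiv`) and the class groups too (Mathlib, `RingTheory/ClassGroup/Basic.lean`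
line 490: class groups of isomorphic rings). USES KF KU. -/
def StCN : Prop := ∀ (L K : Type u) [Field L] [NumberField L] [Field K] [NumberField K]
  [Algebra L K] (p : ℕ) [Fact p.Prime] (k : ℕ), IsCyclotomicExtension {p ^ k} L K →
  ∀ [NumberField (mu L p k)], classNumber K = classNumber (mu L p k)

end Pool.Agent.Work.MP_59f3ad_nt.FE
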