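import Mathlib
import Pool.Agent.Work.MP_59f3ad_nt.FE.StmtsF

/-!
Block FE, item IC: the inertia group of a prime of the ring of all integers of `Ω` is a closed
subgroup.
-/

set_option autoImplicit false

open NumberField IsDedekindDomain
open scoped Pointwise

namespace Pool.Agent.Work.MP_59f3ad_nt.FE

universe u

namespace IIC

variable {k : Type u} [Field k] {Ω : Type u} [Field Ω] [Algebra k Ω]

/-- the action of an automorphism on the ring of integers -/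
noncomputable def gO (g : Ω ≃ₐ[k] Ω) : 𝓞 Ω ≃+* 𝓞 Ω := RingOfIntegers.mapRingEquiv g.toRingEquiv

theorem gO_coe (g : Ω ≃ₐ[k] Ω) (y : 𝓞 Ω) : ((gO g y : 𝓞 Ω) : Ω) = g (y : Ω) := rfl

theorem inr_iff (Q : Ideal (𝓞 Ω)) (g : Ω ≃ₐ[k] Ω) : Inr Q g ↔ ∀ y : 𝓞 Ω, gO g y - y ∈ Q := by
  constructor
  · intro h y
    exact h y (gO g y) (gO_coe g y)
  · intro h y y' hy
    have h1 : y' = gO g y := RingOfIntegers.ext (hy.trans (gO_coe g y).symm)
    rw [h1]
    exact h y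

theorem gO_mul (g h : Ω ≃ₐ[k] Ω) (y : 𝓞 Ω) : gO (g * h) y = gO g (gO h y) :=
  RingOfIntegers.ext rfl

theorem gO_one (y : 𝓞 Ω) : gO (1 : Ω ≃ₐ[k] Ω) y = y := RingOfIntegers.ext rfl

theorem gO_inv (g : Ω ≃ₐ[k] Ω) (y : 𝓞 Ω) : gO g (gO g⁻¹ y) = y := by
  rw [← gO_mul, mul_inv_cancel, gO_one]

/-- the inertia group -/
noncomputable def I (k : Type u) [Field k] {Ω : Type u} [Field Ω] [Algebra k Ω]
    (Q : Ideal (𝓞 Ω)) : Subgroup (Ω ≃ₐ[k] Ω) where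
  carrier := {g | ∀ y : 𝓞 Ω, gO g y - y ∈ Q}
  one_mem' := by
    intro y
    rw [gO_one, sub_self]
    exact Q.zero_mem
  mul_mem' := by
    intro g h hg hh y
    rw [gO_mul]
    have h1 := Q.add_mem (hg (gO h y)) (hh y)
    rwa [sub_add_sub_cancel] at h1
  inv_mem' := by
    intro g hg y
    have h1 := Q.neg_mem (hg (gO g⁻¹ y))
    rwa [gO_inv, neg_sub] at h1

end IIC

theorem pr_IC : StIC.{u} := by
  intro k _ _ Ω _ _ _ Q
  refine ⟨IIC.I k Q, fun g => (IIC.inr_iff Q g).symm, ?_⟩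
  rw [← isOpen_compl_iff, isOpen_iff_mem_nhds]
  intro g hg
  obtain ⟨y, hy⟩ : ∃ y : 𝓞 Ω, ¬ IIC.gO g y - y ∈ Q := by
    by_contra h
    push Not at h
    exact hg h
  have hst := stabilizer_isOpen_of_isIntegral (K := k) (y : Ω)
  have h1 : IsOpen ((fun h : Ω ≃ₐ[k] Ω => g⁻¹ * h) ⁻¹'
      (MulAction.stabilizer (Ω ≃ₐ[k] Ω) (y : Ω) : Set (Ω ≃ₐ[k] Ω))) :=
    hst.preimage (continuous_const_mul g⁻¹)
  refine Filter.mem_of_superset (h1.mem_nhds ?_) ?_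
  · show g⁻¹ * g ∈ MulAction.stabilizer (Ω ≃ₐ[k] Ω) (y : Ω)
    rw [inv_mul_cancel]
    exact one_mem _
  · intro h hh hI
    have h2 : (g⁻¹ * h) (y : Ω) = (y : Ω) := hh
    have h3 : h (y : Ω) = g (y : Ω) := by
      have h4 : g ((g⁻¹ * h) (y : Ω)) = h (y : Ω) := by
        rw [← AlgEquiv.mul_apply, mul_inv_cancel_left]
      rw [← h4, h2]
    have h5 : IIC.gO h y = IIC.gO g y := RingOfIntegers.ext h3
    apply hy
    rw [← h5]
    exact hI y

end Pool.Agent.Work.MP_59f3ad_nt.FE
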