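import Mathlib
import Pool.Agent.Work.MP_59f3ad_nt.FE.StmtsF

/-!
Block FE, item LI: lifting an inertia element of a finite extension to the algebraic closure.
-/

set_option autoImplicit false

open NumberField IsDedekindDomain
open scoped Pointwise

namespace Pool.Agent.Work.MP_59f3ad_nt.FE

universe u

namespace ILI

variable (M Ω : Type u) [Field M] [NumberField M] [Field Ω] [Algebra M Ω] [IsAlgClosure M Ω]

theorem gal : IsGalois M Ω := by
  have h1 : Algebra.IsAlgebraic M Ω := IsAlgClosure.isAlgebraic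
  have h2 : IsAlgClosed Ω := IsAlgClosure.isAlgClosed M
  have h3 : Normal M Ω := IsAlgClosure.normal M Ω
  exact { }

omit [NumberField M] [IsAlgClosure M Ω] in
theorem inv [IsGalois M Ω] : Algebra.IsInvariant (𝓞 M) (𝓞 Ω) Gal(Ω/M) := by
  refine ⟨fun b hb => ?_⟩
  have h1 : ∀ g : Gal(Ω/M), g (b : Ω) = b := by
    intro g
    exact congrArg (fun z : 𝓞 Ω => (z : Ω)) (hb g)
  obtain ⟨y, hy⟩ := (InfiniteGalois.mem_range_algebraMap_iff_fixed (b : Ω)).2 h1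
  have hy2 : IsIntegral ℤ y := by
    have h2 : IsIntegral ℤ (algebraMap M Ω y) := by
      rw [hy]
      exact b.isIntegral_coe
    exact (isIntegral_algebraMap_iff (algebraMap M Ω).injective).1 h2
  refine ⟨⟨y, hy2⟩, ?_⟩
  apply RingOfIntegers.ext
  exact hy

omit [NumberField M] [IsAlgClosure M Ω] in
theorem comm : SMulCommClass Gal(Ω/M) (𝓞 M) (𝓞 Ω) := by
  refine ⟨fun g a b => ?_⟩
  rw [Algebra.smul_def, Algebra.smul_def, smul_mul']
  congr 1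
  apply RingOfIntegers.ext
  exact g.commutes (a : M)

omit [NumberField M] in
theorem cont [TopologicalSpace (𝓞 Ω)] [DiscreteTopology (𝓞 Ω)] :
    ContinuousSMul Gal(Ω/M) (𝓞 Ω) := by
  have h1 : Algebra.IsAlgebraic M Ω := IsAlgClosure.isAlgebraic
  rw [continuousSMul_iff_stabilizer_isOpen]
  intro x
  have h := stabilizer_isOpen_of_isIntegral (K := M) (x : Ω)
  convert h using 1
  ext g
  constructor
  · intro hg
    exact congrArg (fun z : 𝓞 Ω => (z : Ω)) hg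
  · intro hg
    exact RingOfIntegers.ext hg

theorem main (Q : Ideal (𝓞 Ω)) (hQ : Q.IsPrime) (σ : M ≃+* M)
    (hin : ∀ (y : M) (z z' : 𝓞 Ω), (z : Ω) = algebraMap M Ω y →
      (z' : Ω) = algebraMap M Ω (σ y) → z' - z ∈ Q) :
    ∃ τ : Ω ≃+* Ω, (∀ y y' : 𝓞 Ω, (y' : Ω) = τ (y : Ω) → y' - y ∈ Q) ∧
      ∀ y : M, τ (algebraMap M Ω y) = algebraMap M Ω (σ y) := by
  have := gal M Ω
  have := inv M Ω
  have := comm M Ω
  let _ : TopologicalSpace (𝓞 Ω) := ⊥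
  have : DiscreteTopology (𝓞 Ω) := ⟨rfl⟩
  have := cont M Ω
  have := hQ
  let P : Ideal (𝓞 M) := Q.comap (algebraMap (𝓞 M) (𝓞 Ω))
  have hP : P.IsPrime := Ideal.comap_isPrime _ Q
  have hlies : Q.LiesOver P := ⟨rfl⟩
  let g : Ω ≃+* Ω := IsAlgClosure.equivOfEquiv Ω Ω σ
  have hg : ∀ y : M, g (algebraMap M _ y) = algebraMap M _ (σ y) :=
    fun y => IsAlgClosure.equivOfEquiv_algebraMap _ _ σ y
  let gO : 𝓞 Ω ≃+* 𝓞 Ω := RingOfIntegers.mapRingEquiv g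
  let σO : 𝓞 M ≃+* 𝓞 M := RingOfIntegers.mapRingEquiv σ
  have hmem : ∀ a : 𝓞 M, algebraMap (𝓞 M) (𝓞 Ω) a ∈ Q ↔ a ∈ P := fun a => Iff.rfl
  have hσ : ∀ a : 𝓞 M, σO a - a ∈ P := by
    intro a
    rw [← hmem, map_sub]
    exact hin (a : M) _ _ rfl rfl
  have hgσ : ∀ a : 𝓞 M, gO (algebraMap (𝓞 M) (𝓞 Ω) a) =
      algebraMap (𝓞 M) (𝓞 Ω) (σO a) :=
    fun a => RingOfIntegers.ext (hg (a : M))
  have hQ1 : (Q.comap gO).IsPrime := Ideal.comap_isPrime gO Q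
  obtain ⟨h, hh⟩ := Algebra.IsInvariant.exists_smul_of_under_eq_of_profinite (A := 𝓞 M)
    (G := Gal(Ω/M)) (Q.comap gO) Q (by
      ext a
      show gO (algebraMap (𝓞 M) (𝓞 Ω) a) ∈ Q ↔ algebraMap (𝓞 M) (𝓞 Ω) a ∈ Q
      rw [hgσ, hmem, hmem]
      constructor
      · intro h3
        have := P.sub_mem h3 (hσ a)
        rwa [sub_sub_cancel] at this
      · intro h3
        have := P.add_mem (hσ a) h3
        rwa [sub_add_cancel] at this)
  -- the automorphism which maps `Q` to itself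
  let g' : Ω ≃+* Ω := (h⁻¹ : Gal(Ω/M)).toRingEquiv.trans g
  have hg' : ∀ y : M, g' (algebraMap M _ y) = algebraMap M _ (σ y) := by
    intro y
    show g ((h⁻¹ : Gal(Ω/M)) (algebraMap M _ y)) = _
    rw [AlgEquiv.commutes, hg]
  let gO' : 𝓞 Ω ≃+* 𝓞 Ω := RingOfIntegers.mapRingEquiv g'
  have hgσ' : ∀ a : 𝓞 M, gO' (algebraMap (𝓞 M) (𝓞 Ω) a) =
      algebraMap (𝓞 M) (𝓞 Ω) (σO a) :=
    fun a => RingOfIntegers.ext (hg' (a : M))
  have hst : ∀ y : 𝓞 Ω, y ∈ Q ↔ gO' y ∈ Q := by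
    intro y
    have h1 : y ∈ Q ↔ y ∈ h • (Q.comap gO) := by rw [← hh]
    rw [h1, Ideal.mem_pointwise_smul_iff_inv_smul_mem]
    exact Iff.rfl
  have hmap : Q = Q.map gO' := by
    rw [← Ideal.comap_symm]
    ext y
    rw [Ideal.mem_comap]
    have h1 := hst (gO'.symm y)
    rw [RingEquiv.apply_symm_apply] at h1
    exact h1.symm
  let ρ : (𝓞 Ω ⧸ Q) ≃ₐ[𝓞 M ⧸ P] (𝓞 Ω ⧸ Q) :=
    { Ideal.quotientEquiv Q Q gO' hmap with
      commutes' := by
        intro x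
        obtain ⟨a, rfl⟩ := Ideal.Quotient.mk_surjective x
        show Ideal.Quotient.mk Q (gO' (algebraMap (𝓞 M) (𝓞 Ω) a)) =
          Ideal.Quotient.mk Q (algebraMap (𝓞 M) (𝓞 Ω) a)
        rw [hgσ', Ideal.Quotient.eq, ← map_sub, hmem]
        exact hσ a }
  obtain ⟨k, hk⟩ := Ideal.Quotient.stabilizerHom_surjective_of_profinite (G := Gal(Ω/M)) P Q ρ
  have hk2 : ∀ y : 𝓞 Ω, gO' y - (k : Gal(Ω/M)) • y ∈ Q := by
    intro y
    have h1 := congrArg (fun f => f (Ideal.Quotient.mk Q y)) hk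
    exact Ideal.Quotient.eq.1 h1.symm
  refine ⟨((k : Gal(Ω/M))⁻¹).toRingEquiv.trans g', ?_, ?_⟩
  · intro y y' hy
    have h1 := hk2 (((k : Gal(Ω/M))⁻¹ : Gal(Ω/M)) • y)
    rw [smul_inv_smul] at h1
    have h2 : y' = gO' (((k : Gal(Ω/M))⁻¹ : Gal(Ω/M)) • y) := RingOfIntegers.ext hy
    rw [h2]
    exact h1
  · intro y
    show g' (((k : Gal(Ω/M))⁻¹ : Gal(Ω/M)) (algebraMap M _ y)) = _
    rw [AlgEquiv.commutes, hg']

end ILI

theorem pr_LI : StLI.{u} := by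
  intro k _ _ Ω _ _ _ M _ Q hQ σ hσ
  have hnM : NumberField M := NumberField.of_module_finite k M
  have h1 : IsAlgClosed Ω := IsAlgClosure.isAlgClosed k
  have h2 : Algebra.IsAlgebraic k Ω := IsAlgClosure.isAlgebraic
  have h3 : Algebra.IsAlgebraic M Ω := Algebra.IsAlgebraic.tower_top (K := k) M
  have h4 : IsAlgClosure M Ω := ⟨h1, h3⟩
  obtain ⟨τ, hτ1, hτ2⟩ := ILI.main M Ω Q hQ σ.toRingEquiv (fun y z z' hz hz' => hσ y z z' hz hz')
  have hk : ∀ a : k, τ (algebraMap k Ω a) = algebraMap k Ω a := by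
    intro a
    have h5 := hτ2 (algebraMap k M a)
    have h6 : σ.toRingEquiv (algebraMap k M a) = algebraMap k M a := σ.commutes a
    rw [h6] at h5
    exact h5
  refine ⟨AlgEquiv.ofRingEquiv (f := τ) hk, ?_, ?_⟩
  · intro y y' hy
    exact hτ1 y y' hy
  · intro y
    exact hτ2 y

end Pool.Agent.Work.MP_59f3ad_nt.FE
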