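import Pool.Agent.Work.MP_59f3ad_nt.FE.StmtsF
import Pool.Agent.Work.MP_59f3ad_nt.Q3.I_Tau

/-!
Item (DT) of the block FE of MP_59f3ad_nt (helper90): every prime of the ring of all algebraic
integers above `v` is the one defined by an embedding.
-/

set_option autoImplicit false

open NumberField IsDedekindDomain
open scoped Pointwise

namespace Pool.Agent.Work.MP_59f3ad_nt.FE

universe u

theorem pr_DT (hDQ : StDQ.{u}) : StDT.{u} := by
  intro L _ _ v N hN Q hQ hco
  have := Q3.ITau.inv L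
  have := Q3.ITau.comm L
  let _ : TopologicalSpace (𝓞 (AlgebraicClosure L)) := ⊥
  have : DiscreteTopology (𝓞 (AlgebraicClosure L)) := ⟨rfl⟩
  have := Q3.ITau.cont L
  let ι0 : AlgebraicClosure L →ₐ[L] AlgebraicClosure (v.adicCompletion L) := IsAlgClosed.lift
  obtain ⟨Q0, h0⟩ := hDQ L v N hN ι0
  have := hQ
  have := h0.pr
  obtain ⟨a, ha⟩ := Algebra.IsInvariant.exists_smul_of_under_eq_of_profinite (A := 𝓞 L)
    (G := GK L) Q Q0 (hco.trans h0.co.symm)
  have hmem : ∀ y : 𝓞 (AlgebraicClosure L), y ∈ Q ↔ a • y ∈ Q0 := by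
    intro y
    rw [ha, Ideal.mem_pointwise_smul_iff_inv_smul_mem, inv_smul_smul]
  refine ⟨ι0.comp (a : AlgebraicClosure L →ₐ[L] AlgebraicClosure L), ⟨hQ, hco, ?_, ?_⟩⟩
  · intro y
    exact h0.int (a • y)
  · intro y
    rw [hmem, h0.mem]
    exact Iff.rfl

end Pool.Agent.Work.MP_59f3ad_nt.FE
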