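import Pool.Agent.Work.MP_59f3ad_nt.FE.StmtsF

/-!
Item DX of the block FE: an automorphism of the algebraic closure of the completion which induces a
given automorphism.
-/

set_option autoImplicit false

open NumberField IsDedekindDomain TensorProduct

namespace Pool.Agent.Work.MP_59f3ad_nt.FE

universe u

theorem pr_DX : StDX.{u} := by
  intro L K _ _ _ ι h H
  let T : K ⊗[L] AlgebraicClosure L →ₐ[K] AlgebraicClosure K :=
    Algebra.TensorProduct.productLeftAlgHom (Algebra.ofId K (AlgebraicClosure K)) ι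
  let T' : K ⊗[L] AlgebraicClosure L →ₐ[K] AlgebraicClosure K :=
    Algebra.TensorProduct.productLeftAlgHom (Algebra.ofId K (AlgebraicClosure K))
      (ι.comp (h : AlgebraicClosure L →ₐ[L] AlgebraicClosure L))
  have hT : ∀ (a : K) (x : AlgebraicClosure L), T (a ⊗ₜ x) = algebraMap K _ a * ι x :=
    fun a x => rfl
  have hT' : ∀ (a : K) (x : AlgebraicClosure L), T' (a ⊗ₜ x) = algebraMap K _ a * ι (h x) :=
    fun a x => rfl
  have hker : ∀ t, T t = 0 → T' t = 0 := by
    intro t ht
    obtain ⟨n, a, x, rfl⟩ := TensorProduct.exists_sum_tmul_eq t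
    rw [map_sum] at ht ⊢
    simp only [hT] at ht
    simp only [hT']
    exact H n a x ht
  let F : IntermediateField K (AlgebraicClosure K) :=
    T.range.toIntermediateField' (Subalgebra.isField_of_algebraic _)
  have hF : ∀ t, T t ∈ F := fun t => ⟨t, rfl⟩
  let T0 : K ⊗[L] AlgebraicClosure L →ₐ[K] F :=
    T.codRestrict F.toSubalgebra hF
  have hT0 : Function.Surjective T0 := by
    rintro ⟨y, t, rfl⟩
    exact ⟨t, rfl⟩
  have hT0T : ∀ t, ((T0 t : F) : AlgebraicClosure K) = T t := fun t => rfl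
  let f : F →ₐ[K] AlgebraicClosure K := AlgHom.liftOfSurjective T0 hT0 T' (by
    intro t ht
    have h1 : T0 t = 0 := ht
    have h2 : T t = 0 := by rw [← hT0T, h1]; rfl
    exact hker t h2)
  have hf : ∀ t, f (T0 t) = T' t := by
    intro t
    exact AlgHom.liftOfSurjective_apply _ _ _ _ _
  obtain ⟨φ, hφ⟩ := IsAlgClosed.surjective_domRestrict_of_isAlgebraic (K := K) (L := F)
    (M := AlgebraicClosure K) (E := AlgebraicClosure K) f
  refine ⟨(Algebra.IsAlgebraic.algEquivEquivAlgHom K (AlgebraicClosure K)).symm φ, ?_⟩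
  intro x
  have e1 : (Algebra.IsAlgebraic.algEquivEquivAlgHom K (AlgebraicClosure K)).symm φ (ι x) =
      φ (ι x) := by
    have := (Algebra.IsAlgebraic.algEquivEquivAlgHom K (AlgebraicClosure K)).apply_symm_apply φ
    exact DFunLike.congr_fun this (ι x)
  have e2 : φ (ι x) = f (T0 (1 ⊗ₜ x)) := by
    have e3 : ((T0 (1 ⊗ₜ x) : F) : AlgebraicClosure K) = ι x := by
      rw [hT0T, hT]
      simp
    rw [← hφ, ← e3]
    rfl
  rw [e1, e2, hf, hT']
  simp

end Pool.Agent.Work.MP_59f3ad_nt.FE
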