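import Mathlib
import Pool.Agent.Work.MP_59f3ad_nt.FE.StmtsF
import Pool.Agent.Work.MP_59f3ad_nt.FE.I_LI

/-!
Block FE, item UX: from an open subgroup containing the commutators and the inertia groups to an
abelian extension, unramified at all finite places.
-/

set_option autoImplicit false

open NumberField IsDedekindDomain
open scoped Pointwise

namespace Pool.Agent.Work.MP_59f3ad_nt.FE

universe u

namespace IUX

theorem exists_over (M Ω : Type u) [Field M] [Field Ω] [Algebra M Ω] (P : Ideal (𝓞 M))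
    (hP : P.IsPrime) : ∃ Q : Ideal (𝓞 Ω),
    Q.IsPrime ∧ Q.comap (algebraMap (𝓞 M) (𝓞 Ω)) = P := by
  have hi : Algebra.IsIntegral (𝓞 M) (𝓞 Ω) := by
    have : Algebra.IsIntegral ℤ (𝓞 Ω) := ⟨fun b => RingOfIntegers.isIntegral b⟩
    exact Algebra.IsIntegral.tower_top ℤ
  obtain ⟨Q, -, h1, h2⟩ := Ideal.exists_ideal_over_prime_of_isIntegral P
    (⊥ : Ideal (𝓞 Ω)) (by
      intro x hx
      rw [Ideal.mem_comap, Ideal.mem_bot] at hx
      have h3 : (algebraMap M Ω) (x : M) = 0 :=
        congrArg (fun z : 𝓞 Ω => (z : Ω)) hx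
      rw [map_eq_zero] at h3
      have h4 : x = 0 := RingOfIntegers.ext h3
      rw [h4]
      exact Ideal.zero_mem _)
  exact ⟨Q, h1, h2⟩

end IUX

theorem pr_UX : StUX.{u} := by
  intro k _ _ Ω _ _ _ N hN hopen hcomm hin
  have hgal : IsGalois k Ω := ILI.gal k Ω
  let H : ClosedSubgroup Gal(Ω/k) := ⟨N, Subgroup.isClosed_of_isOpen N hopen⟩
  let M : IntermediateField k Ω := IntermediateField.fixedField N
  have hM : M.fixingSubgroup = N := InfiniteGalois.fixingSubgroup_fixedField H
  have hfin : FiniteDimensional k M := (InfiniteGalois.isOpen_iff_finite M).mp (by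
    rw [hM]
    exact hopen)
  have hgalM : IsGalois k M := (InfiniteGalois.normal_iff_isGalois M).mp (by
    rw [hM]
    exact hN)
  have hindex : Module.finrank k M = N.index := by
    rw [← hM]
    exact IntermediateField.finrank_eq_fixingSubgroup_index Ω M
  refine ⟨M, hM, hfin, hgalM, hindex, ?_, ?_⟩
  · intro σ τ
    obtain ⟨σ', rfl⟩ := AlgEquiv.restrictNormalHom_surjective (F := k) (E := Ω) (K₁ := M) σ
    obtain ⟨τ', rfl⟩ := AlgEquiv.restrictNormalHom_surjective (F := k) (E := Ω) (K₁ := M) τ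
    have h1 : σ' * τ' * σ'⁻¹ * τ'⁻¹ ∈ M.fixingSubgroup := by
      rw [hM]
      exact hcomm σ' τ'
    rw [← IntermediateField.restrictNormalHom_ker, MonoidHom.mem_ker, map_mul, map_mul, map_mul,
      map_inv, map_inv, mul_inv_eq_one, mul_inv_eq_iff_eq_mul] at h1
    exact h1
  · intro P hP hP0
    have hnM : NumberField M := NumberField.of_module_finite k M
    obtain ⟨Q, hQ, hQP⟩ := IUX.exists_over M Ω P hP
    have hQ0 : Q ≠ ⊥ := by
      rintro rfl
      apply hP0
      rw [← hQP]
      rw [eq_bot_iff]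
      intro x hx
      rw [Ideal.mem_comap, Ideal.mem_bot] at hx
      have h3 : (algebraMap M Ω) (x : M) = 0 := congrArg (fun z : 𝓞 Ω => (z : Ω)) hx
      rw [map_eq_zero] at h3
      exact RingOfIntegers.ext h3
    let q : Ideal (𝓞 k) := P.under (𝓞 k)
    have hq : q.IsPrime := Ideal.IsPrime.under _ P
    have hPq : P.LiesOver q := ⟨rfl⟩
    rw [← Ideal.ramificationIdxIn_eq_ramificationIdx q P Gal(M/k),
      ← Ideal.card_inertia_eq_ramificationIdxIn (G := Gal(M/k)) q P]
    have htriv : ∀ σ ∈ P.inertia Gal(M/k), σ = 1 := by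
      intro σ hσ
      obtain ⟨τ, hτ1, hτ2⟩ := pr_LI k Ω M Q hQ σ (by
        intro y z z' hz hz'
        have hy : IsIntegral ℤ y := by
          have h2 : IsIntegral ℤ (algebraMap M Ω y) := by
            have h3 : algebraMap M Ω y = (z : Ω) := hz.symm
            rw [h3]
            exact z.isIntegral_coe
          exact (isIntegral_algebraMap_iff (algebraMap M Ω).injective).1 h2
        let yO : 𝓞 M := ⟨y, hy⟩
        have h5 : σ • yO - yO ∈ P := hσ yO
        rw [← hQP] at h5
        have h6 : algebraMap (𝓞 M) (𝓞 Ω) (σ • yO - yO) = z' - z := by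
          rw [map_sub]
          congr 1
          · apply RingOfIntegers.ext
            rw [hz']
            rfl
          · apply RingOfIntegers.ext
            rw [hz]
            rfl
        rw [← h6]
        exact h5)
      have h7 : τ ∈ N := hin Q hQ hQ0 τ hτ1
      rw [← hM, IntermediateField.mem_fixingSubgroup_iff] at h7
      ext y
      have h8 := h7 (y : Ω) y.2
      rw [hτ2 y] at h8
      rw [h8]
      rfl
    refine Nat.card_eq_one_iff_unique.mpr ⟨⟨fun s t => ?_⟩, ⟨1⟩⟩
    apply Subtype.ext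
    rw [htriv s.1 s.2, htriv t.1 t.2]

end Pool.Agent.Work.MP_59f3ad_nt.FE
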