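import Mathlib
import Pool.Agent.Work.MP_59f3ad_nt.FE.Defs

/-!
Block FE, part G: group theory and lattices over `ℤ_p`. Every docstring is the complete proof.
`T = Fin n → ℤ_[p]` is a ring, `act χ r g ∈ T` acts by multiplication. Landed and useful:
`Tw.pr_Pow : StPow`, `Tw.pr_Tf : StTf`, `Tw.pr_Zp : StZp` (files `Tw/Pow.lean`, `Tw/Tf.lean`,
`Tw/Zp.lean`, statements in `Tw/Stmts.lean`).
-/

set_option autoImplicit false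

open NumberField IsDedekindDomain

namespace Pool.Agent.Work.MP_59f3ad_nt.FE

universe u

/-- YS (MEDIUM). `ker χ` is closed in the compact group `G`, so `A = Φ(ker χ)` is compact, hence
closed in `ℤ_p^n`. For `χ k = χ k' = 1`: `Φ (k k') = Φ k + Φ k'` (`act_eq_one`), `Φ 1 = 0`,
`Φ k⁻¹ = -Φ k`, so `A` is a closed additive subgroup; it is stable under `ℤ_p` because every
`c ∈ ℤ_p` is a limit of natural numbers (`PadicInt.denseRange_natCast`) and `c ↦ c • t` is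
continuous. -/
def StYS : Prop := ∀ (p : ℕ) [Fact p.Prime] (G : Type u) [Group G] [TopologicalSpace G]
  [IsTopologicalGroup G] [CompactSpace G] (χ : G →* ℤ_[p]ˣ), Continuous χ →
  ∀ (n : ℕ) (r : Fin n → ℤ) (Φ : G → Fin n → ℤ_[p]), Continuous Φ →
  (∀ g h, Φ (g * h) = Φ g + act χ r g * Φ h) → ∃ Y : Submodule ℤ_[p] (Fin n → ℤ_[p]), IsY χ Φ Y

/-- AC (EASY). Let `χ k = 1`. From `Φ 1 = 0`: `act g * Φ g⁻¹ = -Φ g`. So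
`Φ (g k g⁻¹) = Φ g + act g * Φ k + act (g k) * Φ g⁻¹ = act g * Φ k` (`act (g k) = act g`), and
`χ (g k g⁻¹) = 1`. So `Y` is stable under `act g`. For `t ∈ Y`: `(act g - 1) t ∈ Y`, so `t ∈ Y'`. For
`t ∈ Y'`: `(act h - 1) (act g * t) = act g * ((act h - 1) t) ∈ Y`. Last: `Y` is stable. -/
def StAC : Prop := ∀ (p : ℕ) [Fact p.Prime] (G : Type u) [Group G] (χ : G →* ℤ_[p]ˣ) (n : ℕ)
  (r : Fin n → ℤ) (Φ : G → Fin n → ℤ_[p]), (∀ g h, Φ (g * h) = Φ g + act χ r g * Φ h) →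
  ∀ Y : Submodule ℤ_[p] (Fin n → ℤ_[p]), IsY χ Φ Y → ∀ m : ℕ,
  (∀ g, ∀ t ∈ Y, act χ r g * t ∈ Y) ∧ Y ≤ Yp χ r m Y ∧
  (∀ g, ∀ t ∈ Yp χ r m Y, act χ r g * t ∈ Yp χ r m Y) ∧
  ∀ g, ∀ t ∈ Y, (act χ r g - 1) * t ∈ Y

/-- IM (EASY). If `g` has level `m` choose `h ∈ I0` with `χ h = χ g`, `k = h⁻¹ g`, `χ k = 1`:
`Φ g = Φ h + act h * Φ k = act h * Φ k ∈ Y` by AC. Now let `I` be a set with
`Φ h = (act h - 1) c` for `h ∈ I` which takes all values of level `m`: for `g` of level `m` choose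
`h ∈ I`, `χ h = χ g`: `(act g - 1) c = (act h - 1) c = Φ h ∈ Y` (`h` has level `m`). USES AC. -/
def StIM : Prop := ∀ (p : ℕ) [Fact p.Prime] (G : Type u) [Group G] (χ : G →* ℤ_[p]ˣ) (n : ℕ)
  (r : Fin n → ℤ) (Φ : G → Fin n → ℤ_[p]), (∀ g h, Φ (g * h) = Φ g + act χ r g * Φ h) →
  ∀ Y : Submodule ℤ_[p] (Fin n → ℤ_[p]), IsY χ Φ Y → ∀ (m : ℕ) (I0 : Set G),
  (∀ h ∈ I0, Φ h = 0) →
  (∀ x : ℤ_[p]ˣ, (p : ℤ_[p]) ^ m ∣ (x : ℤ_[p]) - 1 → ∃ h ∈ I0, χ h = x) →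
  (∀ g ∈ Lev χ m, Φ g ∈ Y) ∧
  ∀ (I : Set G) (c : Fin n → ℤ_[p]), (∀ h ∈ I, Φ h = (act χ r h - 1) * c) →
    (∀ x : ℤ_[p]ˣ, (p : ℤ_[p]) ^ m ∣ (x : ℤ_[p]) - 1 → ∃ h ∈ I, χ h = x) → c ∈ Yp χ r m Y

/-- TF (EASY, from the landed `Tw.StTf`, `pr_Tf`). `u = 1 + p^μ`: `u^s ≠ 1` for every integer
`s ≠ 0`; so `u^ρ = u^ρ'` only for `ρ = ρ'`. -/
def StTF : Prop := ∀ (p : ℕ) [Fact p.Prime], p ≠ 2 → ∀ μ : ℕ, 1 ≤ μ → ∀ u : ℤ_[p]ˣ,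
  (u : ℤ_[p]) = 1 + (p : ℤ_[p]) ^ μ → ∀ ρ ρ' : ℤ, u ^ ρ = u ^ ρ' → ρ = ρ'

/-- VA (MEDIUM). `m' = max m 1`, `u = 1 + p^m'`, `γ ∈ I0` with `χ γ = u`. Let `χ k = 1`. For every
`j : ℕ`: `act (γ^j) * Φ k ∈ Y` (AC), so `∑_i (a_i Φ(k)_i) (u^(r_i))^j = 0`. Group by the values
`ρ` of `r`: the elements `u^ρ` are different for different `ρ` (TF), so by Vandermonde
(`Matrix.vandermonde`, or linear independence of the functions `j ↦ x^j`; e.g. apply the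
polynomial `∏_(ρ' ≠ ρ) (X - u^ρ')`): `∑_(r_i = ρ) a_i Φ(k)_i = 0` for every `ρ`. Fix `ρ` and put
`ψ g = ∑_(r_i = ρ) a_i Φ(g)_i`: `ψ (g h) = ψ g + χ(g)^ρ ψ h`, `ψ = 0` on `ker χ` and on `I0`, so
`ψ = 0` on elements `g` of level `m` (`g = h k`, `h ∈ I0`, `χ k = 1`). For any `g` and `h` of level `m`:
`g h = (g h g⁻¹) g` and `g h g⁻¹` has level `m` (same `χ`), so
`ψ g = ψ g + χ(g)^ρ ψ h = ψ (g h g⁻¹) + χ(h)^ρ ψ g = χ(h)^ρ ψ g`. Take `h = γ`: `(u^ρ - 1) ψ g = 0`. If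
`ρ = r_i` for some `i` then `ρ ≠ 0`, `u^ρ ≠ 1`, `ψ g = 0`; otherwise the sum is empty. So the
hypothesis `Coc.ind` holds with `c = 0`: `a = 0`. USES AC TF. -/
def StVA : Prop := ∀ (p : ℕ) [Fact p.Prime], p ≠ 2 → ∀ (G : Type u) [Group G]
  [TopologicalSpace G] (χ : G →* ℤ_[p]ˣ) (n : ℕ) (r : Fin n → ℤ) (Φ : G → Fin n → ℤ_[p]),
  Coc χ r Φ → (∀ i, r i ≠ 0) → ∀ Y : Submodule ℤ_[p] (Fin n → ℤ_[p]), IsY χ Φ Y →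
  ∀ (m : ℕ) (I0 : Set G), (∀ h ∈ I0, Φ h = 0) →
  (∀ x : ℤ_[p]ˣ, (p : ℤ_[p]) ^ m ∣ (x : ℤ_[p]) - 1 → ∃ h ∈ I0, χ h = x) →
  ∀ a : Fin n → ℤ_[p], (∀ t ∈ Y, ∑ i, a i * t i = 0) → a = 0

/-- FI (MEDIUM). `ℤ_p` is a principal ideal domain. Smith normal form of `Y` in `ℤ_p^n`
(`Submodule.smithNormalForm` or `Submodule.exists_smith_normal_form...`): a basis `b` of `T` and a
basis `α_j b_(f j)` of `Y`, `f` injective, `α_j ≠ 0`. If some `i0` is not in the range of `f`, the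
coordinate function `b_(i0)^*` vanishes on `Y`; it is `t ↦ ∑ a_i t_i` with
`a_i = b_(i0)^*(Pi.single i 1)` and is not zero, a contradiction. So `f` is onto; `α_j` is `p^(M_j)` times
a unit; `M = max M_j`. -/
def StFI : Prop := ∀ (p : ℕ) [Fact p.Prime] (n : ℕ) (Y : Submodule ℤ_[p] (Fin n → ℤ_[p])),
  (∀ a : Fin n → ℤ_[p], (∀ t ∈ Y, ∑ i, a i * t i = 0) → a = 0) →
  ∃ M : ℕ, ∀ t : Fin n → ℤ_[p], (p : ℤ_[p]) ^ M • t ∈ Y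

/-- IX (EASY-MEDIUM). Write indices of additive subgroups of `T = ℤ_p^n`. `[T : bX] = [T : X] [X : bX]`
(`bX ≤ X`) and `= [T : bT] [bT : bX]`; multiplication by `b` is injective (every `b_i ≠ 0`), so
`[bT : bX] = [T : X]` (`AddSubgroup.relIndex_map_map_of_injective` or similar), which is finite and
not zero because `p^M T ⊆ X` and `[T : p^M T] = p^(M n)`. `[T : bT] = ∏ [ℤ_p : p^(e_i)] = p^(∑ e_i)`
(`bT` is the product of the ideals `(p^(e_i))`; Mathlib: `PadicInt` quotient `ZMod (p^e)`,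
`PadicInt.residue...`/`PadicInt.toZModPow` surjective with kernel `span {p^e}`). -/
def StIX : Prop := ∀ (p : ℕ) [Fact p.Prime] (n : ℕ) (X : Submodule ℤ_[p] (Fin n → ℤ_[p])) (M : ℕ),
  (∀ t : Fin n → ℤ_[p], (p : ℤ_[p]) ^ M • t ∈ X) → ∀ (b : Fin n → ℤ_[p]) (e : Fin n → ℕ),
  (∀ i, Associated (b i) ((p : ℤ_[p]) ^ e i)) → (∀ t ∈ X, b * t ∈ X) →
  (mulS b X).toAddSubgroup.relIndex X.toAddSubgroup = p ^ (∑ i, e i)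

/-- V1 (EASY). `x = 1 + z`, `p ∣ z`: `∑_(j<p) x^j = p + ∑_(j<p) ((1+z)^j - 1)` and
`(1+z)^j = 1 + j z` modulo `z²`, so modulo `p²` the sum is `p + z p(p-1)/2 = p` as `p` is odd and
`p ∣ z`. So the sum is `p (1 + p w)`. -/
def StV1 : Prop := ∀ (p : ℕ) [Fact p.Prime], p ≠ 2 → ∀ x : ℤ_[p], (p : ℤ_[p]) ∣ x - 1 →
  Associated (∑ j ∈ Finset.range p, x ^ j) (p : ℤ_[p])

/-- V2 (EASY-MEDIUM). It suffices to treat `r > 0` (`u^(-r) - 1 = -u^(-r) (u^r - 1)`). `r = p^a s`,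
`p ∤ s`. `u^s - 1 = (u - 1)(1 + u + ... + u^(s-1))` and the second factor is `s` modulo `p`, a unit.
If `y = 1 + p^ν w`, `w` a unit, `ν ≥ 1`, then `y^p - 1 = (y - 1) ∑ y^j` is `p^(ν+1)` times a unit (V1).
Apply this `a` times (or lifting the exponent for natural numbers). USES V1. -/
def StV2 : Prop := ∀ (p : ℕ) [Fact p.Prime], p ≠ 2 → ∀ μ : ℕ, 1 ≤ μ → ∀ u : ℤ_[p]ˣ,
  (u : ℤ_[p]) = 1 + (p : ℤ_[p]) ^ μ → ∀ r : ℤ, r ≠ 0 →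
  Associated (((u ^ r : ℤ_[p]ˣ) : ℤ_[p]) - 1) ((p : ℤ_[p]) ^ (μ + padicValInt p r))

/-- CL (EASY-MEDIUM). By the landed `Tw.StPow` (`a = χ g`, `b = χ γ`) there is for every `N` a `z : ℕ` with
`p^N ∣ χ g - (χ γ)^z`; by `Tw.StZp` (second part, `u = χ g`, `v = χ (γ^z)`) `act g = act (γ^z) + p^N w`,
`w ∈ T`. `(act γ^z - 1) t = (act γ - 1) (∑_(j<z) act γ^j * t) ∈ mulS (act γ - 1) X`, and
`p^N w t ∈ mulS ..` for `N = M`. -/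
def StCL : Prop := ∀ (p : ℕ) [Fact p.Prime], p ≠ 2 → ∀ (G : Type u) [Group G]
  (χ : G →* ℤ_[p]ˣ) (n μ : ℕ) (r : Fin n → ℤ), 1 ≤ μ → ∀ γ : G,
  (p : ℤ_[p]) ^ μ ∣ (χ γ : ℤ_[p]) - 1 → ¬ (p : ℤ_[p]) ^ (μ + 1) ∣ (χ γ : ℤ_[p]) - 1 →
  ∀ (X : Submodule ℤ_[p] (Fin n → ℤ_[p])) (M : ℕ), (∀ t ∈ X, act χ r γ * t ∈ X) →
  (∀ t : Fin n → ℤ_[p], (p : ℤ_[p]) ^ M • t ∈ mulS (act χ r γ - 1) X) →
  ∀ g ∈ Lev χ μ, ∀ t ∈ X, (act χ r g - 1) * t ∈ mulS (act χ r γ - 1) X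

/-- NO (EASY). `Φ' g = Φ g - (act g - 1) c`. `act (g h) - 1 = (act g - 1) + act g (act h - 1)`.
`Coc.ind`: `∑_(r_i = ρ) a_i Φ'(g)_i = ∑ a_i Φ(g)_i - (χ(g)^ρ - 1) ∑_(r_i=ρ) a_i c_i`. Continuity of
`act`: `χ` is continuous, powers are continuous on `ℤ_p^*`, `Units.continuous_val`. `Loc`: the constant
changes by `c`. -/
def StNO : Prop := ∀ (p : ℕ) [Fact p.Prime] (G : Type u) [Group G] [TopologicalSpace G]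
  (χ : G →* ℤ_[p]ˣ), Continuous χ → ∀ (n : ℕ) (r : Fin n → ℤ) (Φ : G → Fin n → ℤ_[p]),
  Coc χ r Φ → ∀ c : Fin n → ℤ_[p], Coc χ r (fun g => Φ g - (act χ r g - 1) * c) ∧
    ∀ (m : ℕ) (I : Set G), Loc χ r Φ m I → Loc χ r (fun g => Φ g - (act χ r g - 1) * c) m I

/-- CO (MEDIUM), the subgroup `N = {g ∈ H : Φ g ∈ W}`. For `g, h ∈ H`, `Φ h ∈ Y ≤ X`, so
`Φ (g h) - Φ g - Φ h = (act g - 1) Φ h ∈ W`: `Φ` modulo `W` is a homomorphism on `H`. So `N` is a subgroup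
and contains `g h g⁻¹ h⁻¹`. Open: `H` is open, and `W` is open in `T` because it contains `p^M T`
(a ball), `Φ` is continuous. Index: `H → Y/W`, `g ↦ Φ g`, is a homomorphism of groups
(`Multiplicative`), onto because `Φ (ker χ) = Y` and `ker χ ≤ H`, with kernel `N`; so
`[H : N] = [Y : W]` (`Subgroup.relIndex`, `Subgroup.index_ker`). -/
def StCO : Prop := ∀ (p : ℕ) [Fact p.Prime] (G : Type u) [Group G] [TopologicalSpace G]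
  [IsTopologicalGroup G] (χ : G →* ℤ_[p]ˣ) (n : ℕ) (r : Fin n → ℤ) (Φ : G → Fin n → ℤ_[p]),
  Continuous Φ → (∀ g h, Φ (g * h) = Φ g + act χ r g * Φ h) →
  ∀ (H : Subgroup G), IsOpen (H : Set G) → (∀ k, χ k = 1 → k ∈ H) →
  ∀ (Y X W : Submodule ℤ_[p] (Fin n → ℤ_[p])) (M : ℕ), IsY χ Φ Y → Y ≤ X → W ≤ Y →
  (∀ t : Fin n → ℤ_[p], (p : ℤ_[p]) ^ M • t ∈ W) →
  (∀ g ∈ H, Φ g ∈ Y) → (∀ g ∈ H, ∀ t ∈ X, (act χ r g - 1) * t ∈ W) →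
  ∃ N : Subgroup G, (∀ g, g ∈ N ↔ g ∈ H ∧ Φ g ∈ W) ∧ IsOpen (N : Set G) ∧
    (∀ g ∈ H, ∀ h ∈ H, g * h * g⁻¹ * h⁻¹ ∈ N) ∧
    N.relIndex H = W.toAddSubgroup.relIndex Y.toAddSubgroup

/-- TE (EASY-MEDIUM). Places above `p`, `r_i ≢ 0` modulo `p - 1`. Let `ω ∈ ℤ_p^*` be a root of unity
of order `p - 1` (Teichmüller: Hensel for `X^(p-1) - 1` at a primitive root modulo `p`; its powers are
different modulo `p`), `h ∈ I`, `χ h = ω`, `Ω = act h`, `Ω^(p-1) = 1` and `Ω_i - 1 = ω^(r_i) - 1` is a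
unit (`p - 1 ∤ r_i`). So `∑_(j<p-1) Ω^j = 0` (multiply by `Ω - 1`) and
`(p-1) c = -∑_(j<p-1) (Ω^j - 1) c`, `(Ω^j - 1) c = (∑_(l<j) Ω^l) (Ω - 1) c ∈ Y` because
`(Ω - 1) c = Φ h ∈ Y` and `Y` is stable under `Ω`. `p - 1` is a unit of `ℤ_p`. -/
def StTE : Prop := ∀ (p : ℕ) [Fact p.Prime] (G : Type u) [Group G] (χ : G →* ℤ_[p]ˣ) (n : ℕ)
  (r : Fin n → ℤ) (Φ : G → Fin n → ℤ_[p]), (∀ i, ¬ ((p : ℤ) - 1) ∣ r i) →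
  ∀ Y : Submodule ℤ_[p] (Fin n → ℤ_[p]), (∀ g, Φ g ∈ Y) → (∀ g, ∀ t ∈ Y, act χ r g * t ∈ Y) →
  ∀ (I : Set G) (c : Fin n → ℤ_[p]), (∀ h ∈ I, Φ h = (act χ r h - 1) * c) →
    (∀ x : ℤ_[p]ˣ, ∃ h ∈ I, χ h = x) → c ∈ Y

/-- G1 (MEDIUM), the general bound, group side. Let `I0 ∈ J` take all values of level `m`, with constant
`c0`. Replace `Φ` by `Φ - (act - 1) c0` (NO): now `Φ = 0` on `I0`. `Y` from YS, `X = Yp χ r m Y`,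
`γ0 ∈ I0` with `χ γ0 = u`, `u = 1 + p^m`, `γ = γ0^p`, `D = act γ0 - 1`, `ν = ∑_(j<p) act γ0^j`,
`act γ - 1 = ν D`. `W = mulS (act γ - 1) X`. `D X ≤ Y` (`γ0` has level `m`), `W = ν (D X) ≤ Y`.
`p^M T ⊆ Y` for some `M` (VA, FI), every coordinate of `act γ - 1` is not zero (V2, V1), so
`p^(M') T ⊆ W`. `χ γ = u^p` has exact level `m + 1` (V2 with `r = p`, or V1). `H = Lev χ (m+1)` is open
(`χ` continuous). For `g ∈ H`, `t ∈ X`: `(act g - 1) t ∈ W` (CL with `μ = m+1`). `Φ g ∈ Y` for `g ∈ H`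
(IM). CO gives `N`. Inertia: `I ∈ J`, `Φ h = (act h - 1) c`; if `χ = 1` on `I` then `Φ h = 0`; otherwise
`c ∈ X` (IM) and `Φ h ∈ W` for `h ∈ I ∩ H`. Index: `[Y : W] = [Y : D X] [D X : ν D X]` and
`[D X : ν D X] = p^n` by IX (`b = ν`, `e_i = 1` by V1; `p^(M'') T ⊆ D X`); `[Y : W]` is a power of `p`
because it is finite and divides a power `[T : p^(M') T]`. USES YS AC IM VA FI IX V1 V2 CL NO CO. -/
def StG1 : Prop := ∀ (p : ℕ) [Fact p.Prime], p ≠ 2 → ∀ (G : Type u) [Group G]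
  [TopologicalSpace G] [IsTopologicalGroup G] [CompactSpace G] (χ : G →* ℤ_[p]ˣ), Continuous χ →
  ∀ (n m : ℕ) (r : Fin n → ℤ) (Φ : G → Fin n → ℤ_[p]), 1 ≤ m → (∀ i, r i ≠ 0) → Coc χ r Φ →
  ∀ J : Set (Set G), (∀ I ∈ J, Loc χ r Φ m I) →
  (∃ I ∈ J, ∀ x : ℤ_[p]ˣ, (p : ℤ_[p]) ^ m ∣ (x : ℤ_[p]) - 1 → ∃ h ∈ I, χ h = x) →
  ∃ (N : Subgroup G) (e : ℕ), N ≤ Lev χ (m + 1) ∧ IsOpen (N : Set G) ∧
    (∀ g ∈ Lev χ (m + 1), ∀ h ∈ Lev χ (m + 1), g * h * g⁻¹ * h⁻¹ ∈ N) ∧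
    (∀ I ∈ J, ∀ h ∈ I, h ∈ Lev χ (m + 1) → h ∈ N) ∧ N.relIndex (Lev χ (m + 1)) = p ^ e ∧ n ≤ e

/-- G2 (MEDIUM), the weighted bound, group side. As G1 with `m = 0`, `X = Y`: normalise with `I0`
(NO), `Y` from YS, `Φ g ∈ Y` for all `g` (IM with `m = 0`), `c ∈ Y` for the sets of the second kind (TE).
`γ ∈ I0` with `χ γ = 1 + p`, `W = mulS (act γ - 1) Y ≤ Y` (AC), finite index by VA, FI, V2. For
`g ∈ Lev χ 1`, `t ∈ Y`: `(act g - 1) t ∈ W` (CL, `μ = 1`). CO with `H = Lev χ 1`, `X = Y`. Index: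
`[Y : (act γ - 1) Y] = p^(∑ (1 + v_p(r_i)))` (IX, V2). `N` is normal: for `τ ∈ G`, `g ∈ N`:
`Φ (τ g τ⁻¹) = act τ * Φ g + (1 - act g) Φ τ` (as `act (τ g) Φ τ⁻¹ = -act g * Φ τ`), both in `W`
(`W` is stable under `act τ`, `Φ τ ∈ Y`). The same formula for `g ∈ Lev χ 1` and `act τ = -1`:
`Φ (τ g τ⁻¹) = -Φ g` modulo `W`, and `Φ (τ g τ⁻¹ g) = Φ (τ g τ⁻¹) + act g * Φ g = (act g - 1) Φ g = 0`
modulo `W`. USES YS AC IM VA FI IX V2 CL NO CO TE. -/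
def StG2 : Prop := ∀ (p : ℕ) [Fact p.Prime], p ≠ 2 → ∀ (G : Type u) [Group G]
  [TopologicalSpace G] [IsTopologicalGroup G] [CompactSpace G] (χ : G →* ℤ_[p]ˣ), Continuous χ →
  ∀ (n : ℕ) (r : Fin n → ℤ) (Φ : G → Fin n → ℤ_[p]), (∀ i, ¬ ((p : ℤ) - 1) ∣ r i) → Coc χ r Φ →
  ∀ J : Set (Set G), (∀ I ∈ J, Loc χ r Φ 0 I) → (∃ I ∈ J, ∀ x : ℤ_[p]ˣ, ∃ h ∈ I, χ h = x) →
  ∃ N : Subgroup G, N ≤ Lev χ 1 ∧ N.Normal ∧ IsOpen (N : Set G) ∧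
    (∀ g ∈ Lev χ 1, ∀ h ∈ Lev χ 1, g * h * g⁻¹ * h⁻¹ ∈ N) ∧
    (∀ I ∈ J, ∀ h ∈ I, h ∈ Lev χ 1 → h ∈ N) ∧
    N.relIndex (Lev χ 1) = p ^ (∑ i, (1 + padicValInt p (r i))) ∧
    ∀ τ : G, act χ r τ = -1 → ∀ g ∈ Lev χ 1, τ * g * τ⁻¹ * g ∈ N

end Pool.Agent.Work.MP_59f3ad_nt.FE
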