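import Mathlib
import Pool.Agent.Work.MP_59f3ad_nt.FE.StmtsG

/-!
Block FE, item AC: the lattice `Y = Φ(ker χ)` is stable.
-/

set_option autoImplicit false

namespace Pool.Agent.Work.MP_59f3ad_nt.FE

universe u

theorem pr_AC : StAC.{u} := by
  intro p _ G _ χ n r Φ hΦ Y hY m
  have h1 : Φ 1 = 0 := by
    have h := hΦ 1 1
    rw [mul_one, act_one, one_mul] at h
    simpa using h
  have hinv : ∀ g : G, act χ r g * Φ g⁻¹ = -Φ g := by
    intro g
    have h := hΦ g g⁻¹
    rw [mul_inv_cancel, h1] at h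
    exact (neg_eq_of_add_eq_zero_right h.symm).symm
  have hst : ∀ g, ∀ t ∈ Y, act χ r g * t ∈ Y := by
    intro g t ht
    obtain ⟨k, hk, rfl⟩ := (hY t).1 ht
    refine (hY _).2 ⟨g * k * g⁻¹, ?_, ?_⟩
    · rw [map_mul, map_mul, hk, mul_one, map_inv, mul_inv_cancel]
    · rw [hΦ, hΦ, act_mul, act_eq_one χ r hk, mul_one, hinv]
      ring
  have hst1 : ∀ g, ∀ t ∈ Y, (act χ r g - 1) * t ∈ Y := by
    intro g t ht
    rw [sub_mul, one_mul]
    exact Y.sub_mem (hst g t ht) ht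
  refine ⟨hst, ?_, ?_, hst1⟩
  · intro t ht g _
    exact hst1 g t ht
  · intro g t ht h hh
    have h2 : (act χ r h - 1) * (act χ r g * t) = act χ r g * ((act χ r h - 1) * t) := by ring
    rw [h2]
    exact hst g _ (ht h hh)

end Pool.Agent.Work.MP_59f3ad_nt.FE
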