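import Pool.Agent.Work.MP_59f3ad_nt.FE.StmtsF

/-!
Block FE, item CC: independent cocycles of the twists give one vector valued cocycle.
-/

set_option autoImplicit false

open NumberField IsDedekindDomain

namespace Pool.Agent.Work.MP_59f3ad_nt.FE

universe u

/-- Item CC. -/
theorem pr_CC : StCC.{u} := by
  intro L _ _ p _ n r φ hφ hind
  refine ⟨?_, ?_, ?_⟩
  · exact continuous_pi fun i => (hφ i).1
  · intro g h
    funext i
    exact (hφ i).2 g h
  · intro a ha
    refine hind a fun ρ => ?_
    obtain ⟨c, hc⟩ := ha ρ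
    exact ⟨c, fun g => hc g⟩

end Pool.Agent.Work.MP_59f3ad_nt.FE
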