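import Mathlib
import Pool.Agent.Work.MP_59f3ad_nt.FE.StmtsG
import Pool.Agent.Work.MP_59f3ad_nt.Bdx.B01

set_option autoImplicit false

/-!
Item CL of the block FE.
-/

open NumberField IsDedekindDomain

namespace Pool.Agent.Work.MP_59f3ad_nt.FE

universe u

namespace ICL

variable {p : ℕ} [Fact p.Prime] {n : ℕ}

theorem pow_mem {X : Submodule ℤ_[p] (Fin n → ℤ_[p])} {A : Fin n → ℤ_[p]}
    (hA : ∀ t ∈ X, A * t ∈ X) {t : Fin n → ℤ_[p]} (ht : t ∈ X) (j : ℕ) : A ^ j * t ∈ X := by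
  induction j with
  | zero => simpa using ht
  | succ j ih =>
    rw [pow_succ', mul_assoc]
    exact hA _ ih

theorem geom {X : Submodule ℤ_[p] (Fin n → ℤ_[p])} {A : Fin n → ℤ_[p]}
    (hA : ∀ t ∈ X, A * t ∈ X) {t : Fin n → ℤ_[p]} (ht : t ∈ X) (z : ℕ) :
    (A ^ z - 1) * t ∈ mulS (A - 1) X := by
  rw [mem_mulS]
  refine ⟨(∑ j ∈ Finset.range z, A ^ j) * t, ?_, ?_⟩
  · rw [Finset.sum_mul]
    exact Submodule.sum_mem _ fun j _ => pow_mem hA ht j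
  · rw [← mul_assoc, mul_geom_sum]

end ICL

theorem pr_CL : StCL.{u} := by
  intro p _ hp2 G _ χ n μ r hμ γ h1 h2 X M hX hM g hg t ht
  obtain ⟨z, hz⟩ := Tw.pr_Pow p hp2 μ hμ (χ g : ℤ_[p]) (χ γ : ℤ_[p]) hg h1 h2 M
  have hz' : (p : ℤ_[p]) ^ M ∣ (χ g : ℤ_[p]) - ((χ (γ ^ z) : ℤ_[p]ˣ) : ℤ_[p]) := by
    rw [map_pow, Units.val_pow_eq_pow_val]
    exact hz
  have h3 : ∀ i, ∃ w : ℤ_[p], act χ r g i - (act χ r γ i) ^ z = (p : ℤ_[p]) ^ M * w := by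
    intro i
    obtain ⟨w, hw⟩ := (Tw.pr_Zp p (χ g) (χ (γ ^ z)) (r i)).2.1 M hz'
    refine ⟨w, ?_⟩
    have e1 : (act χ r γ i) ^ z = ((χ (γ ^ z) ^ (r i) : ℤ_[p]ˣ) : ℤ_[p]) := by
      unfold act
      rw [← Units.val_pow_eq_pow_val, map_pow, ← zpow_natCast, ← zpow_natCast, ← zpow_mul, ← zpow_mul,
        mul_comm]
    rw [e1]
    exact hw
  choose w hw using h3
  have e : (act χ r g - 1) * t = ((act χ r γ) ^ z - 1) * t + (p : ℤ_[p]) ^ M • (w * t) := by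
    funext i
    simp only [Pi.mul_apply, Pi.sub_apply, Pi.one_apply, Pi.add_apply, Pi.smul_apply, Pi.pow_apply,
      smul_eq_mul]
    have := hw i
    linear_combination (t i) * this
  rw [e]
  exact Submodule.add_mem _ (ICL.geom hX ht z) (hM _)

end Pool.Agent.Work.MP_59f3ad_nt.FE
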