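import Pool.Agent.Work.MP_59f3ad_nt.FE.StmtsF

/-!
Block FE, item CN: the class number does not depend on the model of the cyclotomic extension.
-/

set_option autoImplicit false

open NumberField IsDedekindDomain

namespace Pool.Agent.Work.MP_59f3ad_nt.FE

universe u

theorem pr_CN (hKF : StKF.{u}) : StCN.{u} := by
  intro L K _ _ _ _ _ p _ k hK _
  have hM : IsCyclotomicExtension {p ^ k} L (mu L p k) := ((hKF L p).2 k).2.2
  have e : K ≃ₐ[L] mu L p k := IsCyclotomicExtension.algEquiv {p ^ k} L K (mu L p k)
  unfold classNumber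
  exact Fintype.card_congr (ClassGroup.mulEquiv (RingOfIntegers.mapRingEquiv e.toRingEquiv)).toEquiv

end Pool.Agent.Work.MP_59f3ad_nt.FE
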