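import Mathlib
import Pool.Agent.Work.MP_59f3ad_nt.FE.StmtsG

/-!
Block FE, item CO (helper56): the subgroup of the elements `g` of `H` with `Φ g ∈ W`.
-/

set_option autoImplicit false

open NumberField IsDedekindDomain

namespace Pool.Agent.Work.MP_59f3ad_nt.FE

universe u

namespace ICO

theorem isOpen_sub (p : ℕ) [Fact p.Prime] (n : ℕ) (W : Submodule ℤ_[p] (Fin n → ℤ_[p])) (M : ℕ)
    (hM : ∀ t : Fin n → ℤ_[p], (p : ℤ_[p]) ^ M • t ∈ W) :
    IsOpen (W : Set (Fin n → ℤ_[p])) := by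
  have h0 : (W.toAddSubgroup : Set (Fin n → ℤ_[p])) ∈ nhds (0 : Fin n → ℤ_[p]) := by
    rw [Metric.mem_nhds_iff]
    have hp : 0 < (p : ℝ) := by exact_mod_cast (Fact.out : p.Prime).pos
    refine ⟨(p : ℝ) ^ (-(M : ℤ)), zpow_pos hp _, ?_⟩
    intro t ht
    rw [mem_ball_zero_iff] at ht
    have h1 : ∀ i, ∃ s : ℤ_[p], t i = (p : ℤ_[p]) ^ M * s := by
      intro i
      have h2 : ‖t i‖ ≤ (p : ℝ) ^ (-(M : ℤ)) := (norm_le_pi_norm t i).trans ht.le
      rw [PadicInt.norm_le_pow_iff_mem_span_pow] at h2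
      rw [Ideal.mem_span_singleton] at h2
      exact h2
    choose s hs using h1
    have h3 : t = (p : ℤ_[p]) ^ M • s := by
      funext i
      rw [Pi.smul_apply, smul_eq_mul]
      exact hs i
    show t ∈ W
    rw [h3]
    exact hM s
  exact AddSubgroup.isOpen_of_mem_nhds W.toAddSubgroup h0

end ICO

theorem pr_CO : StCO.{u} := by
  intro p _ G _ _ _ χ n r Φ hc hm H hH hk Y X W M hY hYX hWY hM hHY hX
  -- the homomorphism
  have hq : ∀ g ∈ H, ∀ h ∈ H, Φ (g * h) - (Φ g + Φ h) ∈ W := by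
    intro g hg h hh
    have h1 : Φ (g * h) - (Φ g + Φ h) = (act χ r g - 1) * Φ h := by
      rw [hm g h]
      ring
    rw [h1]
    exact hX g hg _ (hYX (hHY h hh))
  let f : H →* Multiplicative ((Fin n → ℤ_[p]) ⧸ W.toAddSubgroup) :=
    MonoidHom.mk' (fun g => Multiplicative.ofAdd (QuotientAddGroup.mk (Φ g))) (by
      intro g h
      rw [← ofAdd_add, ← QuotientAddGroup.mk_add]
      refine congrArg Multiplicative.ofAdd ?_
      rw [eq_comm, QuotientAddGroup.eq]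
      have h1 := hq g g.2 h h.2
      have h2 : -(Φ g + Φ h) + Φ ((g * h : H) : G) = Φ ((g : G) * h) - (Φ g + Φ h) := by
        rw [Subgroup.coe_mul]
        abel
      rw [h2]
      exact h1)
  have hf : ∀ g : H, f g = Multiplicative.ofAdd (QuotientAddGroup.mk (Φ g)) := fun g => rfl
  have hker : ∀ g : H, g ∈ f.ker ↔ Φ g ∈ W := by
    intro g
    rw [MonoidHom.mem_ker, hf]
    constructor
    · intro h
      have h1 : (QuotientAddGroup.mk (Φ g) : (Fin n → ℤ_[p]) ⧸ W.toAddSubgroup) = 0 :=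
        Multiplicative.ofAdd.injective h
      rw [QuotientAddGroup.eq_zero_iff] at h1
      exact h1
    · intro h
      have h1 : (QuotientAddGroup.mk (Φ g) : (Fin n → ℤ_[p]) ⧸ W.toAddSubgroup) = 0 := by
        rw [QuotientAddGroup.eq_zero_iff]
        exact h
      rw [h1]
      rfl
  have hN : ∀ g : G, g ∈ f.ker.map H.subtype ↔ g ∈ H ∧ Φ g ∈ W := by
    intro g
    rw [Subgroup.mem_map]
    constructor
    · rintro ⟨x, hx, rfl⟩
      exact ⟨x.2, (hker x).1 hx⟩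
    · rintro ⟨h1, h2⟩
      exact ⟨⟨g, h1⟩, (hker ⟨g, h1⟩).2 h2, rfl⟩
  refine ⟨f.ker.map H.subtype, hN, ?_, ?_, ?_⟩
  · have h1 : ((f.ker.map H.subtype : Subgroup G) : Set G) = (H : Set G) ∩ Φ ⁻¹' (W : Set _) := by
      ext g
      exact hN g
    rw [h1]
    exact hH.inter ((ICO.isOpen_sub p n W M hM).preimage hc)
  · intro g hg h hh
    have h1 : (⟨g, hg⟩ * ⟨h, hh⟩ * ⟨g, hg⟩⁻¹ * ⟨h, hh⟩⁻¹ : H) ∈ f.ker := by
      rw [MonoidHom.mem_ker, map_mul, map_mul, map_mul, map_inv, map_inv]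
      rw [mul_comm (f ⟨g, hg⟩) (f ⟨h, hh⟩), mul_assoc (f ⟨h, hh⟩), mul_inv_cancel, mul_one,
        mul_inv_cancel]
    exact Subgroup.mem_map.2 ⟨_, h1, rfl⟩
  · have h1 : (f.ker.map H.subtype).subgroupOf H = f.ker := by
      ext g
      rw [Subgroup.mem_subgroupOf, hN, hker]
      exact ⟨fun h => h.2, fun h => ⟨g.2, h⟩⟩
    have h2 : (f.ker.map H.subtype).relIndex H = Nat.card f.range := by
      rw [Subgroup.relIndex, h1, Subgroup.index_ker]
    have h3 : W.toAddSubgroup.relIndex Y.toAddSubgroup =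
        Nat.card (Y.toAddSubgroup.map (QuotientAddGroup.mk' W.toAddSubgroup)) := by
      rw [← AddSubgroup.relIndex_ker, QuotientAddGroup.ker_mk']
    rw [h2, h3]
    refine Nat.card_congr ?_
    refine Equiv.subtypeEquiv Multiplicative.toAdd ?_
    intro a
    rw [MonoidHom.mem_range, AddSubgroup.mem_map]
    constructor
    · rintro ⟨g, rfl⟩
      exact ⟨Φ g, hHY g g.2, rfl⟩
    · rintro ⟨t, ht, h4⟩
      obtain ⟨k, hk1, hk2⟩ := (hY t).1 ht
      refine ⟨⟨k, hk k hk1⟩, ?_⟩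
      rw [hf]
      apply Multiplicative.toAdd.injective
      rw [← h4, ← hk2]
      rfl

end Pool.Agent.Work.MP_59f3ad_nt.FE
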