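import Pool.Agent.Work.MP_59f3ad_nt.FE.StmtsF

/-!
Block FE, item DE: inertia elements extend to the local algebraic closure (assembly).
-/

set_option autoImplicit false

open NumberField IsDedekindDomain

namespace Pool.Agent.Work.MP_59f3ad_nt.FE

universe u

theorem pr_DE (hDN : StDN.{u}) (hDT : StDT.{u}) (hDK : StDK.{u}) (hDX : StDX.{u}) : StDE.{u} := by
  intro L _ _ v Q hQ hv
  obtain ⟨N, hN⟩ := hDN L v
  obtain ⟨ι, hι⟩ := hDT L v N hN Q hQ hv
  exact ⟨ι, fun h hh => hDX L (v.adicCompletion L) ι h (hDK L v N hN Q ι hι h hh)⟩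

end Pool.Agent.Work.MP_59f3ad_nt.FE
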