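import Pool.Agent.Work.MP_59f3ad_nt.FE.StmtsE

/-!
Block FE, item E1: the general bound.
-/

set_option autoImplicit false

open NumberField IsDedekindDomain

namespace Pool.Agent.Work.MP_59f3ad_nt.FE

universe u

theorem pr_E1 (hKF : StKF.{u}) (hCC : StCC.{u}) (hLC : StLC.{u}) (hG1 : StG1.{u})
    (hEX : StEX.{u}) (hCN : StCN.{u}) (hUCF : UCF.StUCF.{u}) : StE1.{u} := by
  intro L _ _ p _ hp m hm hRm n r hr S φ hφ hind K _ _ _ hcyc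
  have hφ1 : ∀ i, φ i ∈ Z1 L p (r i) := fun i => (hφ i).1.1
  have hcoc := hCC L p n r φ hφ1 hind
  obtain ⟨hloc, Q0, hQ0, hQ0b, hQ0v⟩ := hLC L p hp n r S φ hφ m (Or.inl ⟨hm, hRm⟩)
  have hcont := (hKF L p).1
  obtain ⟨N, e, h1, h2, h3, h4, h5, h6⟩ := hG1 p hp (GK L) (cyc L p) hcont n m r
    (fun g i => φ i g) hm hr hcoc
    {I | ∃ Q : Ideal (𝓞 (AlgebraicClosure L)), Q.IsPrime ∧ Q ≠ ⊥ ∧ I = {h : GK L | Inr Q h}}
    (by rintro I ⟨Q, hQ, hQb, rfl⟩; exact hloc Q hQ hQb) ⟨_, ⟨Q0, hQ0, hQ0b, rfl⟩, hQ0v⟩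
  obtain ⟨M, hM1, hM2, hM3, hM4, hM5, hM6, hM7⟩ := hEX L p (m + 1) N h1 h2 h3
    (fun Q hQ hQb h hh hl => h4 _ ⟨Q, hQ, hQb, rfl⟩ h hh hl)
  have hfin : Module.finrank (mu L p (m + 1)) M = p ^ e := hM5.trans h5
  have hodd : Odd (Module.finrank (mu L p (m + 1)) M) := by
    rw [hfin]
    exact ((Fact.out : p.Prime).odd_of_ne_two hp).pow
  have hdvd := (hUCF (mu L p (m + 1)) M hM6 hodd hM7).2
  rw [hfin] at hdvd
  rw [hCN L K p (m + 1) hcyc]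
  exact (pow_dvd_pow p h6).trans hdvd

end Pool.Agent.Work.MP_59f3ad_nt.FE
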