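import Pool.Agent.Work.MP_59f3ad_nt.FE.StmtsE

/-!
Block FE, item EB: the extension for the half theorem.
-/

set_option autoImplicit false

open NumberField IsDedekindDomain

namespace Pool.Agent.Work.MP_59f3ad_nt.FE

universe u

namespace IEB

/-- `p - 1` does not divide an odd number. -/
theorem ndvd {p : ℕ} [hp : Fact p.Prime] (hp2 : p ≠ 2) {r : ℤ} (hr : Odd r) : ¬ ((p : ℤ) - 1) ∣ r := by
  intro h
  have h1 : Odd p := hp.out.odd_of_ne_two hp2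
  obtain ⟨k, hk⟩ := h1
  have h2 : (2 : ℤ) ∣ (p : ℤ) - 1 := ⟨k, by rw [hk]; push_cast; ring⟩
  have h3 : (2 : ℤ) ∣ r := h2.trans h
  obtain ⟨a, ha⟩ := hr
  omega

/-- `act τ = -1` if `χ τ = -1` and all `r_i` are odd. -/
theorem act_neg {p : ℕ} [Fact p.Prime] {G : Type u} [Group G] {n : ℕ} (χ : G →* ℤ_[p]ˣ)
    (r : Fin n → ℤ) (hr : ∀ i, Odd (r i)) (τ : G) (h : χ τ = -1) : act χ r τ = -1 := by
  funext i
  simp [act, h, (hr i).neg_one_zpow]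

/-- the group computation -/
theorem grp {G : Type u} [Group G] (N H : Subgroup G) [N.Normal] (c s t : G)
    (hs : s ∈ H) (hl : t⁻¹ * c ∈ H)
    (hcomm : ∀ g ∈ H, ∀ h ∈ H, g * h * g⁻¹ * h⁻¹ ∈ N)
    (ht : ∀ g ∈ H, t * g * t⁻¹ * g ∈ N) : c * s * c⁻¹ * s ∈ N := by
  have h1 := hcomm _ hl _ hs
  have h2 : t * ((t⁻¹ * c) * s * (t⁻¹ * c)⁻¹ * s⁻¹) * t⁻¹ ∈ N := ‹N.Normal›.conj_mem _ h1 t
  have h3 := N.mul_mem h2 (ht s hs)
  have e : t * ((t⁻¹ * c) * s * (t⁻¹ * c)⁻¹ * s⁻¹) * t⁻¹ * (t * s * t⁻¹ * s) = c * s * c⁻¹ * s := by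
    group
  rwa [e] at h3

/-- `ζ^((-1 mod p).val) = ζ⁻¹` -/
theorem pow_neg_one {p : ℕ} [hp : Fact p.Prime] {F : Type u} [Field F] (ζ : F) (hζ : ζ ^ p ^ 1 = 1) :
    ζ ^ (PadicInt.toZModPow 1 (((-1 : ℤ_[p]ˣ)) : ℤ_[p])).val = ζ⁻¹ := by
  have h1 : (PadicInt.toZModPow 1 (((-1 : ℤ_[p]ˣ)) : ℤ_[p])) = (-1 : ZMod (p ^ 1)) := by
    rw [Units.val_neg, Units.val_one, map_neg, map_one]
  rw [h1]
  have h2 : ((-1 : ZMod (p ^ 1)).val) + 1 = p ^ 1 := by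
    obtain ⟨m, hm⟩ : ∃ m, p ^ 1 = m + 1 := ⟨p ^ 1 - 1, by have := hp.out.pos; simp; omega⟩
    rw [hm, ZMod.val_neg_one]
  apply eq_inv_of_mul_eq_one_left
  rw [← pow_succ, h2, hζ]

end IEB

open IEB in
theorem pr_EB (hKU : StKU.{u}) (hKF : StKF.{u}) (hCC : StCC.{u}) (hLC : StLC.{u}) (hG2 : StG2.{u})
    (hEX : StEX.{u}) : StEB.{u} := by
  intro L _ _ p _ hp2 hUr n r hodd S φ hφ hInd
  have hcoc := hCC L p n r φ (fun i => (hφ i).1.1) hInd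
  obtain ⟨hL1, Q0, hQ1, hQ2, hQ3⟩ := hLC L p hp2 n r S φ hφ 0 (Or.inr ⟨rfl, hUr⟩)
  obtain ⟨hcont, hKF'⟩ := hKF L p
  obtain ⟨hLev, hfin, hcyc⟩ := hKF' 1
  have hval : ∀ x : ℤ_[p]ˣ, ∃ h ∈ {h : GK L | Inr Q0 h}, cyc L p h = x :=
    fun x => hQ3 x (by simp)
  obtain ⟨N, hN1, hN2, hN3, hN4, hN5, hN6, hN7⟩ := hG2 p hp2 (GK L) (cyc L p) hcont n r
    (fun g i => φ i g) (fun i => ndvd hp2 (hodd i)) hcoc
    {I | ∃ Q : Ideal (𝓞 (AlgebraicClosure L)), Q.IsPrime ∧ Q ≠ ⊥ ∧ I = {h : GK L | Inr Q h}}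
    (by rintro I ⟨Q, h1, h2, rfl⟩; exact hL1 Q h1 h2)
    ⟨_, ⟨Q0, hQ1, hQ2, rfl⟩, hval⟩
  obtain ⟨M, hM1, hM2, hM3, hM4, hM5, hM6, hM7⟩ := hEX L p 1 N hN1 hN3 hN4
    (fun Q h1 h2 h h3 h4 => hN5 _ ⟨Q, h1, h2, rfl⟩ h h3 h4)
  have hgal : IsGalois L M := by
    have hfix : (M.restrictScalars L).fixingSubgroup = N := by
      ext g
      rw [IntermediateField.mem_fixingSubgroup_iff, hM1]
      constructor
      · intro h y
        exact h _ y.2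
      · intro h x hx
        exact h ⟨x, hx⟩
    have hn : (M.restrictScalars L).fixingSubgroup.Normal := by rw [hfix]; exact hN2
    exact (InfiniteGalois.normal_iff_isGalois (M.restrictScalars L)).1 hn
  refine ⟨mu L p 1, inferInstance, hM2, inferInstance, M, inferInstance, hM3, inferInstance,
    inferInstance, inferInstance, ?_, hgal, hM4, hM6, ?_, hM7, ?_⟩
  · rw [pow_one] at hcyc; exact hcyc
  · rw [hM5, hN6]
  · intro c σ hc y
    have htow : IsScalarTower L M (AlgebraicClosure L) := IsScalarTower.of_algebraMap_eq fun x => rfl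
    have hc' : ∀ z : M, (c.liftNormal (AlgebraicClosure L)) (z : AlgebraicClosure L) =
        (c z : AlgebraicClosure L) := fun z => AlgEquiv.liftNormal_commutes c (AlgebraicClosure L) z
    have hs' : ∀ z : M, ((σ.restrictScalars L).liftNormal (AlgebraicClosure L))
        (z : AlgebraicClosure L) = (σ z : AlgebraicClosure L) :=
      fun z => AlgEquiv.liftNormal_commutes (σ.restrictScalars L) (AlgebraicClosure L) z
    generalize c.liftNormal (AlgebraicClosure L) = c' at hc'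
    generalize (σ.restrictScalars L).liftNormal (AlgebraicClosure L) = s' at hs'
    have h1 : s' ∈ Lev (cyc L p) 1 := by
      rw [hLev, IntermediateField.mem_fixingSubgroup_iff]
      intro x hx
      have h2 := hs' (algebraMap (mu L p 1) M ⟨x, hx⟩)
      rw [σ.commutes] at h2
      exact h2
    have h2 : ∀ ζ : AlgebraicClosure L, ζ ^ p ^ 1 = 1 → c' ζ = ζ⁻¹ := by
      intro ζ hζ
      have hmem : ζ ∈ mu L p 1 := IntermediateField.subset_adjoin _ _ hζ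
      have h3 := hc' (algebraMap (mu L p 1) M ⟨ζ, hmem⟩)
      rw [hc (algebraMap (mu L p 1) M ⟨ζ, hmem⟩) ?_] at h3
      · exact h3
      · rw [← map_pow]
        have h4 : (⟨ζ, hmem⟩ : mu L p 1) ^ p = 1 := by
          apply Subtype.ext
          rw [pow_one] at hζ
          exact hζ
        rw [h4, map_one]
    have h3 : (p : ℤ_[p]) ^ 1 ∣ ((cyc L p c' : ℤ_[p]ˣ) : ℤ_[p]) - (((-1 : ℤ_[p]ˣ)) : ℤ_[p]) := by
      rw [← hKU L p c' (-1) 1]
      intro ζ hζ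
      rw [pow_neg_one ζ hζ]
      exact h2 ζ hζ
    obtain ⟨τ, -, hτ⟩ := hval (-1)
    have h4 : τ⁻¹ * c' ∈ Lev (cyc L p) 1 := by
      show (p : ℤ_[p]) ^ 1 ∣ ((cyc L p (τ⁻¹ * c') : ℤ_[p]ˣ) : ℤ_[p]) - 1
      have h5 : ((cyc L p (τ⁻¹ * c') : ℤ_[p]ˣ) : ℤ_[p]) - 1 =
          -(((cyc L p c' : ℤ_[p]ˣ) : ℤ_[p]) - (((-1 : ℤ_[p]ˣ)) : ℤ_[p])) := by
        have h6 : (-1 : ℤ_[p]ˣ)⁻¹ = -1 := inv_eq_of_mul_eq_one_left (by simp)
        rw [map_mul, map_inv, hτ, h6]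
        push_cast
        ring
      rw [h5]
      exact (dvd_neg).2 h3
    have h6 : c' * s' * c'⁻¹ * s' ∈ N :=
      grp N (Lev (cyc L p) 1) c' s' τ h1 h4 hN4 (hN7 τ (act_neg (cyc L p) r hodd τ hτ))
    have h7 := (hM1 _).1 h6 (σ⁻¹ y)
    have h8 : s' ((σ⁻¹ y : M) : AlgebraicClosure L) = (y : AlgebraicClosure L) := by
      rw [hs']
      congr 1
      exact σ.apply_symm_apply y
    have h9 : c'⁻¹ (y : AlgebraicClosure L) = ((c⁻¹ y : M) : AlgebraicClosure L) := by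
      have h10 := hc' (c⁻¹ y)
      have h11 : c (c⁻¹ y) = y := c.apply_symm_apply y
      rw [h11] at h10
      rw [← h10]
      exact c'.symm_apply_apply _
    have h12 : (c' * s' * c'⁻¹ * s') ((σ⁻¹ y : M) : AlgebraicClosure L) =
        ((c (σ (c⁻¹ y)) : M) : AlgebraicClosure L) := by
      show c' (s' (c'⁻¹ (s' ((σ⁻¹ y : M) : AlgebraicClosure L)))) = _
      rw [h8, h9, hs', hc']
    rw [h12] at h7
    exact Subtype.ext h7

end Pool.Agent.Work.MP_59f3ad_nt.FE
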