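import Mathlib
import Pool.Agent.Work.MP_59f3ad_nt.FE.StmtsG
import Pool.Agent.Work.MP_59f3ad_nt.FE.StmtsF
import Pool.Agent.Work.MP_59f3ad_nt.UCF.Stmts

/-!
Block FE, part E: the assemblies. Every docstring is the complete proof.
-/

set_option autoImplicit false

open NumberField IsDedekindDomain

namespace Pool.Agent.Work.MP_59f3ad_nt.FE

universe u

/-- EX (EASY-MEDIUM). `K = mu L p k`, `Lev (cyc L p) k = K.fixingSubgroup` (KF), `Ω = AlgebraicClosure L`.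
TR gives `N'`, UX for `k = K` and `N'` gives `M`. `NumberField`: finite over a number field
(`NumberField.of_module_finite`). For `g ∈ GK L`: if `g ∈ N` then `g` fixes `K`, so `g` is the
restriction of scalars of an element `g'` of `N' = M.fixingSubgroup`; if `g` fixes `M` pointwise it fixes
`K` (the image of `K` in `M`), so `g = g'.restrictScalars L` with `g' ∈ M.fixingSubgroup = N'`.
USES KF KU LI TR UX. -/
def StEX : Prop := ∀ (L : Type u) [Field L] [NumberField L] (p : ℕ) [Fact p.Prime] (k : ℕ)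
  (N : Subgroup (GK L)), N ≤ Lev (cyc L p) k → IsOpen (N : Set (GK L)) →
  (∀ g ∈ Lev (cyc L p) k, ∀ h ∈ Lev (cyc L p) k, g * h * g⁻¹ * h⁻¹ ∈ N) →
  (∀ Q : Ideal (𝓞 (AlgebraicClosure L)), Q.IsPrime → Q ≠ ⊥ → ∀ h : GK L, Inr Q h →
    h ∈ Lev (cyc L p) k → h ∈ N) →
  ∃ M : IntermediateField (mu L p k) (AlgebraicClosure L),
    (∀ g : GK L, g ∈ N ↔ ∀ y : M, g (y : AlgebraicClosure L) = (y : AlgebraicClosure L)) ∧
    NumberField (mu L p k) ∧ NumberField M ∧ IsGalois (mu L p k) M ∧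
    Module.finrank (mu L p k) M = N.relIndex (Lev (cyc L p) k) ∧
    (∀ σ τ : Gal(M/(mu L p k)), σ * τ = τ * σ) ∧
    ∀ P : Ideal (𝓞 M), P.IsPrime → P ≠ ⊥ → P.ramificationIdx (𝓞 (mu L p k)) = 1

/-- E1 (EASY-MEDIUM), the general bound. `Φ` as in CC. `J` is the set of the sets
`{h : Inr Q h}`, `Q ≠ ⊥` prime. CC, LC give the hypotheses of G1 for `G = GK L`, `χ = cyc L p`
(continuous: KF). G1 gives `N`, EX (`k = m + 1`) the extension `M` of `mu L p (m+1)`, abelian of odd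
degree `p^e`, `e ≥ n`, unramified: UCF gives `p^e ∣ classNumber (mu L p (m+1))`; CN.
USES KF KU CC LC G1 EX CN UCF. -/
def StE1 : Prop := ∀ (L : Type u) [Field L] [NumberField L] (p : ℕ) [Fact p.Prime], p ≠ 2 →
  ∀ m : ℕ, 1 ≤ m → Rm L p m → ∀ (n : ℕ) (r : Fin n → ℤ), (∀ i, r i ≠ 0) →
  ∀ (S : Fin n → Set (HeightOneSpectrum (𝓞 L))) (φ : Fin n → GK L → ℤ_[p]),
  (∀ i, φ i ∈ ShaZ L p (r i) (S i)) → Indep L p r φ →
  ∀ (K : Type u) [Field K] [NumberField K] [Algebra L K],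
    IsCyclotomicExtension {p ^ (m + 1)} L K → p ^ n ∣ classNumber K

/-- E2 (EASY-MEDIUM), the weighted bound. The same with G2 (`m = 0`) and EX for `k = 1`
(`p = p^1`). USES KF KU CC LC G2 EX CN UCF. -/
def StE2 : Prop := ∀ (L : Type u) [Field L] [NumberField L] (p : ℕ) [Fact p.Prime], p ≠ 2 →
  Ur L p → ∀ (n : ℕ) (r : Fin n → ℤ), (∀ i, ¬ ((p : ℤ) - 1) ∣ r i) →
  ∀ (S : Fin n → Set (HeightOneSpectrum (𝓞 L))) (φ : Fin n → GK L → ℤ_[p]),
  (∀ i, φ i ∈ ShaZ L p (r i) (S i)) → Indep L p r φ →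
  ∀ (K : Type u) [Field K] [NumberField K] [Algebra L K],
    IsCyclotomicExtension {p} L K → p ^ (∑ i, (1 + padicValInt p (r i))) ∣ classNumber K

/-- EB (MEDIUM), the extension for the half theorem. `r_i` odd, so `p - 1 ∤ r_i` (`p - 1` is even). CC,
LC, G2 give `N ≤ Lev (cyc L p) 1`, normal in `GK L`; EX with `k = 1` gives `M` over `K = mu L p 1`,
`IsCyclotomicExtension {p} L K` by KF. `IsGalois L M`: as an intermediate field of `Ω/L` (restrict
scalars) `M` has fixing subgroup `N`, normal (`InfiniteGalois.normal_iff_isGalois` or: `M` is stable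
under `GK L`, because for `g ∈ GK L`, `y ∈ M`, `n ∈ N`: `n (g y) = g ((g⁻¹ n g) y) = g y`, and `M` is the
fixed field of `N`). Last part: lift `c`, `σ` to `c', σ' ∈ GK L` (`σ'` fixes `K`, so is in
`Lev (cyc L p) 1`); `c' ζ = ζ⁻¹` for the `p`-th roots of unity (they lie in `K ⊆ M`), so
`cyc c' = -1` modulo `p` (KU with `y = -1`, `k = 1`). By LC (values on inertia, `m = 0`) there is
`τ ∈ GK L` with `cyc τ = -1`, and `act (cyc L p) r τ = -1` as all `r_i` are odd. `c' = τ l` with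
`l ∈ Lev (cyc L p) 1`. Modulo `N`: `c' σ' c'⁻¹ = τ (l σ' l⁻¹) τ⁻¹ = τ σ' τ⁻¹ = σ'⁻¹` (commutators of `Lev 1`
are in `N`, `N` is normal, last part of G2). Elements of `N` act trivially on `M`.
USES KF KU CC LC G2 EX. -/
def StEB : Prop := ∀ (L : Type u) [Field L] [NumberField L] (p : ℕ) [Fact p.Prime], p ≠ 2 →
  Ur L p → ∀ (n : ℕ) (r : Fin n → ℤ), (∀ i, Odd (r i)) →
  ∀ (S : Fin n → Set (HeightOneSpectrum (𝓞 L))) (φ : Fin n → GK L → ℤ_[p]),
  (∀ i, φ i ∈ ShaZ L p (r i) (S i)) → Indep L p r φ →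
  ∃ (K : Type u) (_ : Field K) (_ : NumberField K) (_ : Algebra L K) (M : Type u) (_ : Field M)
    (_ : NumberField M) (_ : Algebra K M) (_ : Algebra L M) (_ : IsScalarTower L K M),
    IsCyclotomicExtension {p} L K ∧ IsGalois L M ∧ IsGalois K M ∧
    (∀ σ τ : Gal(M/K), σ * τ = τ * σ) ∧
    Module.finrank K M = p ^ (∑ i, (1 + padicValInt p (r i))) ∧ UCF.Unram K M ∧
    ∀ (c : Gal(M/L)) (σ : Gal(M/K)), (∀ ζ : M, ζ ^ p = 1 → c ζ = ζ⁻¹) →
      ∀ y : M, c (σ (c⁻¹ y)) = σ⁻¹ y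

end Pool.Agent.Work.MP_59f3ad_nt.FE
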