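import Mathlib
import Pool.Agent.Work.MP_59f3ad_nt.FE.StmtsE

/-!
Block FE, item EX: from an open subgroup of the absolute Galois group of `L`, contained in the one
of `L(μ_(p^k))`, to an abelian extension of `L(μ_(p^k))`, unramified at all finite places.
-/

set_option autoImplicit false

open NumberField IsDedekindDomain

namespace Pool.Agent.Work.MP_59f3ad_nt.FE

universe u

theorem pr_EX (hKF : StKF.{u}) (hTR : StTR.{u}) (hUX : StUX.{u}) : StEX.{u} := by
  intro L _ _ p _ k N hNL hopen hcomm hin
  obtain ⟨-, hk⟩ := hKF L p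
  obtain ⟨hLev, hfin, -⟩ := hk k
  rw [hLev] at hNL
  rw [hLev] at hcomm
  have hin' : ∀ Q : Ideal (𝓞 (AlgebraicClosure L)), Q.IsPrime → Q ≠ ⊥ → ∀ h : GK L, Inr Q h →
      h ∈ (mu L p k).fixingSubgroup → h ∈ N := by
    intro Q hQ hQ0 h hh hm
    rw [← hLev] at hm
    exact hin Q hQ hQ0 h hh hm
  rw [hLev]
  obtain ⟨hac, N', hN', hnor, hop', hcm', hin2, hidx⟩ := hTR L (mu L p k) N hNL hopen hcomm hin'
  have hnK : NumberField (mu L p k) := NumberField.of_module_finite L (mu L p k)
  obtain ⟨M, hMN, hMf, hMg, hMd, hMc, hMu⟩ := hUX (mu L p k) (AlgebraicClosure L) N' hop' hcm' hin2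
  have hnM : NumberField M := NumberField.of_module_finite (mu L p k) M
  refine ⟨M, ?_, hnK, hnM, hMg, ?_, hMc, hMu⟩
  · intro g
    constructor
    · intro hg y
      have h1 : g ∈ (mu L p k).fixingSubgroup := hNL hg
      rw [IntermediateField.mem_fixingSubgroup_iff] at h1
      let g' : AlgebraicClosure L ≃ₐ[mu L p k] AlgebraicClosure L :=
        AlgEquiv.ofRingEquiv (f := g.toRingEquiv) (fun x => h1 x.1 x.2)
      have h2 : g'.restrictScalars L = g := by
        ext x
        rfl
      have h3 : g' ∈ N' := by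
        rw [hN', h2]
        exact hg
      rw [← hMN, IntermediateField.mem_fixingSubgroup_iff] at h3
      exact h3 y.1 y.2
    · intro hg
      have h1 : ∀ x : mu L p k, g (x : AlgebraicClosure L) = (x : AlgebraicClosure L) := by
        intro x
        exact hg (algebraMap (mu L p k) M x)
      let g' : AlgebraicClosure L ≃ₐ[mu L p k] AlgebraicClosure L :=
        AlgEquiv.ofRingEquiv (f := g.toRingEquiv) (fun x => h1 x)
      have h2 : g'.restrictScalars L = g := by
        ext x
        rfl
      have h3 : g' ∈ N' := by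
        rw [← hMN, IntermediateField.mem_fixingSubgroup_iff]
        intro x hx
        exact hg ⟨x, hx⟩
      rw [hN', h2] at h3
      exact h3
  · rw [hMd, hidx]

end Pool.Agent.Work.MP_59f3ad_nt.FE
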