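import Pool.Agent.Work.MP_59f3ad_nt.FE.StmtsG

/-!
Block FE, item FI: a submodule of `ℤ_p^n` on which no nonzero linear form vanishes has finite index.
-/

set_option autoImplicit false

open NumberField IsDedekindDomain

namespace Pool.Agent.Work.MP_59f3ad_nt.FE

universe u

theorem pr_FI : StFI := by
  classical
  intro p _ n Y hY
  obtain ⟨m, snf⟩ := Submodule.smithNormalForm (Pi.basisFun ℤ_[p] (Fin n)) Y
  -- every coordinate is in the range of `f`
  have hsurj : Function.Surjective snf.f := by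
    intro i0
    by_contra hno
    have hno' : ∀ j, snf.f j ≠ i0 := fun j hj => hno ⟨j, hj⟩
    set φ := snf.bM.coord i0 with hφ
    have hzero : ∀ t ∈ Y, φ t = 0 := by
      intro t ht
      have h1 : φ ∘ₗ Y.subtype = 0 := by
        refine snf.bN.ext fun j => ?_
        rw [LinearMap.comp_apply, Submodule.subtype_apply, snf.snf j, map_smul, hφ,
          Module.Basis.coord_apply, Module.Basis.repr_self, Finsupp.single_apply,
          if_neg (hno' j), smul_zero, LinearMap.zero_apply]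
      have := LinearMap.congr_fun h1 ⟨t, ht⟩
      simpa using this
    have hform : ∀ t : Fin n → ℤ_[p], φ t = ∑ i, φ (Pi.single i 1) * t i := by
      intro t
      conv_lhs => rw [← Finset.univ_sum_single t]
      rw [map_sum]
      refine Finset.sum_congr rfl fun i _ => ?_
      have : (Pi.single i (t i) : Fin n → ℤ_[p]) = t i • Pi.single i 1 := by
        rw [← Pi.single_smul, smul_eq_mul, mul_one]
      rw [this, map_smul, smul_eq_mul, mul_comm]
    have ha := hY (fun i => φ (Pi.single i 1)) fun t ht => by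
      rw [← hform t]
      exact hzero t ht
    have h1 : φ (snf.bM i0) = 1 := by
      rw [hφ, Module.Basis.coord_apply, Module.Basis.repr_self, Finsupp.single_eq_same]
    rw [hform] at h1
    have h2 : ∀ i, φ (Pi.single i 1) = 0 := fun i => congrFun ha i
    simp [h2] at h1
  have ha0 : ∀ j, snf.a j ≠ 0 := by
    intro j h0
    have h1 := snf.snf j
    rw [h0, zero_smul] at h1
    have h2 : snf.bN j = 0 := Subtype.ext h1
    exact snf.bN.ne_zero j h2
  set M := ∑ j, (snf.a j).valuation with hM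
  refine ⟨M, fun t => ?_⟩
  rw [← snf.bM.sum_repr t, Finset.smul_sum]
  refine Submodule.sum_mem _ fun i _ => ?_
  obtain ⟨j, rfl⟩ := hsurj i
  have hle : (snf.a j).valuation ≤ M := by
    rw [hM]
    exact Finset.single_le_sum (f := fun j => (snf.a j).valuation) (fun _ _ => Nat.zero_le _)
      (Finset.mem_univ j)
  obtain ⟨d, hd⟩ := Nat.exists_eq_add_of_le hle
  have h1 := PadicInt.unitCoeff_spec (ha0 j)
  set u := PadicInt.unitCoeff (ha0 j) with hu
  have h2 : (p : ℤ_[p]) ^ M = ((u⁻¹ : ℤ_[p]ˣ) : ℤ_[p]) * (p : ℤ_[p]) ^ d * snf.a j := by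
    have h3 : ((u⁻¹ : ℤ_[p]ˣ) : ℤ_[p]) * (u : ℤ_[p]) = 1 := Units.inv_mul u
    calc (p : ℤ_[p]) ^ M = (p : ℤ_[p]) ^ (snf.a j).valuation * (p : ℤ_[p]) ^ d := by
          rw [hd, pow_add]
      _ = (((u⁻¹ : ℤ_[p]ˣ) : ℤ_[p]) * (u : ℤ_[p])) *
          ((p : ℤ_[p]) ^ (snf.a j).valuation * (p : ℤ_[p]) ^ d) := by rw [h3, one_mul]
      _ = ((u⁻¹ : ℤ_[p]ˣ) : ℤ_[p]) * (p : ℤ_[p]) ^ d *
          ((u : ℤ_[p]) * (p : ℤ_[p]) ^ (snf.a j).valuation) := by ring
      _ = _ := by rw [← h1]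
  have h4 : (p : ℤ_[p]) ^ M • (snf.bM.repr t) (snf.f j) • snf.bM (snf.f j) =
      (((u⁻¹ : ℤ_[p]ˣ) : ℤ_[p]) * (p : ℤ_[p]) ^ d * (snf.bM.repr t) (snf.f j)) •
        ((snf.bN j : Y) : Fin n → ℤ_[p]) := by
    rw [snf.snf j, smul_smul, smul_smul, h2]
    congr 1
    ring
  rw [h4]
  exact Y.smul_mem _ (snf.bN j).2

end Pool.Agent.Work.MP_59f3ad_nt.FE
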