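import Mathlib
import Pool.Agent.Work.MP_59f3ad_nt.FE.StmtsG

/-!
Block FE, item G1: the general bound, group side (assembly).
-/

set_option autoImplicit false

namespace Pool.Agent.Work.MP_59f3ad_nt.FE

universe u

namespace IG1

variable {p : ℕ} [Fact p.Prime] {G : Type u} [Group G] {n : ℕ}

theorem act_pow (χ : G →* ℤ_[p]ˣ) (r : Fin n → ℤ) (g : G) (k : ℕ) :
    act χ r (g ^ k) = act χ r g ^ k := by
  induction k with
  | zero => rw [pow_zero, pow_zero, act_one]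
  | succ k ih => rw [pow_succ, pow_succ, act_mul, ih]

theorem lev_mono (χ : G →* ℤ_[p]ˣ) {k l : ℕ} (h : k ≤ l) : Lev χ l ≤ Lev χ k := by
  intro g hg
  exact (pow_dvd_pow _ h).trans hg

theorem sum_mem (a : Fin n → ℤ_[p]) (Z : Submodule ℤ_[p] (Fin n → ℤ_[p]))
    (hZ : ∀ t ∈ Z, a * t ∈ Z) (k : ℕ) : ∀ t ∈ Z, (∑ j ∈ Finset.range k, a ^ j) * t ∈ Z := by
  intro t ht
  rw [Finset.sum_mul]
  have h : ∀ j : ℕ, a ^ j * t ∈ Z := by
    intro j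
    induction j with
    | zero => rwa [pow_zero, one_mul]
    | succ j ih =>
      rw [pow_succ', mul_assoc]
      exact hZ _ ih
  exact Submodule.sum_mem _ fun j _ => h j

theorem mulS_fin (b : Fin n → ℤ_[p]) (e : Fin n → ℕ)
    (hb : ∀ i, Associated (b i) ((p : ℤ_[p]) ^ e i)) (X : Submodule ℤ_[p] (Fin n → ℤ_[p])) (M : ℕ)
    (hM : ∀ t : Fin n → ℤ_[p], (p : ℤ_[p]) ^ M • t ∈ X) :
    ∃ M' : ℕ, ∀ t : Fin n → ℤ_[p], (p : ℤ_[p]) ^ M' • t ∈ mulS b X := by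
  refine ⟨M + ∑ i, e i, fun t => ?_⟩
  rw [mem_mulS]
  choose w hw using hb
  refine ⟨(p : ℤ_[p]) ^ M • fun i => (p : ℤ_[p]) ^ (∑ i, e i - e i) * (w i : ℤ_[p]) * t i,
    hM _, ?_⟩
  funext i
  have h1 : e i ≤ ∑ i, e i := Finset.single_le_sum (fun _ _ => Nat.zero_le _) (Finset.mem_univ i)
  simp only [Pi.mul_apply, Pi.smul_apply, smul_eq_mul]
  have h2 : (p : ℤ_[p]) ^ (M + ∑ i, e i) =
      (p : ℤ_[p]) ^ M * ((p : ℤ_[p]) ^ e i * (p : ℤ_[p]) ^ (∑ i, e i - e i)) := by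
    rw [← pow_add, ← pow_add]
    congr 1
    omega
  rw [h2, ← hw i]
  ring

theorem mulS_mul (a b : Fin n → ℤ_[p]) (X : Submodule ℤ_[p] (Fin n → ℤ_[p])) :
    mulS (a * b) X = mulS a (mulS b X) := by
  ext t
  rw [mem_mulS, mem_mulS]
  constructor
  · rintro ⟨x, hx, rfl⟩
    exact ⟨b * x, (mem_mulS _ _ _).2 ⟨x, hx, rfl⟩, by rw [mul_assoc]⟩
  · rintro ⟨y, hy, rfl⟩
    obtain ⟨x, hx, rfl⟩ := (mem_mulS _ _ _).1 hy
    exact ⟨x, hx, by rw [mul_assoc]⟩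

theorem isOpen_dvd (k : ℕ) : IsOpen {x : ℤ_[p] | (p : ℤ_[p]) ^ k ∣ x - 1} := by
  have h : {x : ℤ_[p] | (p : ℤ_[p]) ^ k ∣ x - 1} = Metric.closedBall 1 ((p : ℝ) ^ (-(k : ℤ))) := by
    ext x
    rw [Set.mem_ofPred_eq, mem_closedBall_iff_norm, PadicInt.norm_le_pow_iff_mem_span_pow,
      Ideal.mem_span_singleton]
  rw [h]
  have hp : (0 : ℝ) < (p : ℝ) := by exact_mod_cast (Fact.out : p.Prime).pos
  exact IsUltrametricDist.isOpen_closedBall _ (zpow_pos hp _).ne'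

theorem lev_open [TopologicalSpace G] (χ : G →* ℤ_[p]ˣ) (hχ : Continuous χ) (k : ℕ) :
    IsOpen (Lev χ k : Set G) :=
  (isOpen_dvd k).preimage (Units.continuous_val.comp hχ)

theorem exists_unit {m : ℕ} (hm : 1 ≤ m) : ∃ u : ℤ_[p]ˣ, (u : ℤ_[p]) = 1 + (p : ℤ_[p]) ^ m := by
  have h : IsUnit (1 + (p : ℤ_[p]) ^ m) := by
    by_contra hn
    have h1 : (p : ℤ_[p]) ^ m ∈ nonunits ℤ_[p] := by
      rw [mem_nonunits_iff]
      intro hu
      have := (isUnit_pow_iff (by omega : m ≠ 0)).1 hu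
      exact PadicInt.prime_p.not_isUnit this
    have h2 : (1 : ℤ_[p]) ∈ nonunits ℤ_[p] := by
      have h3 := (IsLocalRing.maximalIdeal ℤ_[p]).sub_mem
        ((IsLocalRing.mem_maximalIdeal _).2 hn) ((IsLocalRing.mem_maximalIdeal _).2 h1)
      rw [add_sub_cancel_right] at h3
      exact (IsLocalRing.mem_maximalIdeal _).1 h3
    exact h2 isUnit_one
  obtain ⟨u, hu⟩ := h
  exact ⟨u, hu⟩

/-- The index of `W` in `Y` is a power of `p` if `W` contains `p^M T`. -/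
theorem relIndex_pow (hIX : StIX) (Y W : Submodule ℤ_[p] (Fin n → ℤ_[p])) (hWY : W ≤ Y) (M : ℕ)
    (hM : ∀ t : Fin n → ℤ_[p], (p : ℤ_[p]) ^ M • t ∈ W) :
    ∃ e : ℕ, W.toAddSubgroup.relIndex Y.toAddSubgroup = p ^ e := by
  have h1 := hIX p n ⊤ 0 (fun _ => Submodule.mem_top) (fun _ => (p : ℤ_[p]) ^ M) (fun _ => M)
    (fun _ => Associated.refl _) (fun _ _ => Submodule.mem_top)
  set B : Submodule ℤ_[p] (Fin n → ℤ_[p]) := mulS (fun _ => (p : ℤ_[p]) ^ M) ⊤ with hB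
  have hBW : B ≤ W := by
    intro t ht
    obtain ⟨x, -, rfl⟩ := (mem_mulS _ _ _).1 ht
    exact hM x
  have h2 : B.toAddSubgroup.relIndex W.toAddSubgroup * W.toAddSubgroup.relIndex Y.toAddSubgroup =
      B.toAddSubgroup.relIndex Y.toAddSubgroup :=
    AddSubgroup.relIndex_mul_relIndex _ _ _ hBW hWY
  have h3 : B.toAddSubgroup.relIndex Y.toAddSubgroup *
      Y.toAddSubgroup.relIndex (⊤ : Submodule ℤ_[p] (Fin n → ℤ_[p])).toAddSubgroup =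
      B.toAddSubgroup.relIndex (⊤ : Submodule ℤ_[p] (Fin n → ℤ_[p])).toAddSubgroup :=
    AddSubgroup.relIndex_mul_relIndex _ _ _ (hBW.trans hWY)
      (show Y ≤ (⊤ : Submodule ℤ_[p] (Fin n → ℤ_[p])) from le_top)
  have h4 : W.toAddSubgroup.relIndex Y.toAddSubgroup ∣ p ^ (∑ _i : Fin n, M) := by
    rw [← h1, ← h3, ← h2]
    exact Dvd.dvd.mul_right (Dvd.intro_left _ rfl) _
  obtain ⟨e, -, he⟩ := (Nat.dvd_prime_pow (Fact.out : p.Prime)).1 h4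
  exact ⟨e, he⟩

end IG1

open IG1 in
theorem pr_G1 (hYS : StYS.{u}) (hAC : StAC.{u}) (hIM : StIM.{u}) (hVA : StVA.{u}) (hFI : StFI)
    (hIX : StIX) (hV1 : StV1) (hV2 : StV2) (hCL : StCL.{u}) (hNO : StNO.{u}) (hCO : StCO.{u}) :
    StG1.{u} := by
  intro p _ hp2 G _ _ _ _ χ hχ n m r Φ0 hm hr hΦ0 J hJ hI0
  obtain ⟨I0, hI0J, hI0v⟩ := hI0
  obtain ⟨c0, hc0⟩ := (hJ I0 hI0J).con
  obtain ⟨hΦ, hNO2⟩ := hNO p G χ hχ n r Φ0 hΦ0 c0
  generalize hΦdef : (fun g => Φ0 g - (act χ r g - 1) * c0) = Φ at hΦ hNO2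
  have hJ' : ∀ I ∈ J, Loc χ r Φ m I := fun I hI => hNO2 m I (hJ I hI)
  have hΦI0 : ∀ h ∈ I0, Φ h = 0 := by
    intro h hh
    rw [← hΦdef]
    show Φ0 h - _ = 0
    rw [hc0 h hh, sub_self]
  obtain ⟨Y, hY⟩ := hYS p G χ hχ n r Φ hΦ.cont hΦ.mul
  obtain ⟨hA1, hA2, hA3, -⟩ := hAC p G χ n r Φ hΦ.mul Y hY m
  obtain ⟨hM1, hM2⟩ := hIM p G χ n r Φ hΦ.mul Y hY m I0 hΦI0 hI0v
  obtain ⟨M, hM⟩ := hFI p n Y (hVA p hp2 G χ n r Φ hΦ hr Y hY m I0 hΦI0 hI0v)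
  obtain ⟨u, hu⟩ := exists_unit (p := p) hm
  obtain ⟨γ0, hγ0I, hγ0⟩ := hI0v u (by rw [hu, add_sub_cancel_left])
  have hγ0L : γ0 ∈ Lev χ m := by
    show (p : ℤ_[p]) ^ m ∣ (χ γ0 : ℤ_[p]) - 1
    rw [hγ0, hu, add_sub_cancel_left]
  set X := Yp χ r m Y with hX
  set D := act χ r γ0 - 1 with hD
  set ν := ∑ j ∈ Finset.range p, act χ r γ0 ^ j with hν
  have hνD : ν * D = act χ r (γ0 ^ p) - 1 := by
    rw [hν, hD, act_pow, geom_sum_mul]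
  set W := mulS (act χ r (γ0 ^ p) - 1) X with hW
  have hDX : mulS D X ≤ Y := by
    intro t ht
    obtain ⟨x, hx, rfl⟩ := (mem_mulS _ _ _).1 ht
    exact hx γ0 hγ0L
  have hWD : W = mulS ν (mulS D X) := by
    rw [hW, ← hνD, mulS_mul]
  have hWDX : W ≤ mulS D X := by
    intro t ht
    rw [hWD] at ht
    obtain ⟨y, hy, rfl⟩ := (mem_mulS _ _ _).1 ht
    obtain ⟨x, hx, rfl⟩ := (mem_mulS _ _ _).1 hy
    refine (mem_mulS _ _ _).2 ⟨ν * x, sum_mem _ X (fun t ht => hA3 γ0 t ht) p x hx, ?_⟩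
    ring
  have hWY : W ≤ Y := hWDX.trans hDX
  -- the elements `u^r - 1`
  have hDi : ∀ i, Associated (D i) ((p : ℤ_[p]) ^ (m + padicValInt p (r i))) := by
    intro i
    have h := hV2 p hp2 m hm u hu (r i) (hr i)
    show Associated ((((χ γ0) ^ (r i) : ℤ_[p]ˣ) : ℤ_[p]) - 1) _
    rw [hγ0]
    exact h
  have hνi : ∀ i, Associated (ν i) ((p : ℤ_[p]) ^ 1) := by
    intro i
    have h1 : (p : ℤ_[p]) ∣ ((u ^ (r i) : ℤ_[p]ˣ) : ℤ_[p]) - 1 := by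
      have h := hV2 p hp2 m hm u hu (r i) (hr i)
      exact (dvd_pow_self _ (by omega)).trans h.symm.dvd
    have h2 := hV1 p hp2 _ h1
    rw [pow_one]
    have h3 : ν i = ∑ j ∈ Finset.range p, (((u ^ (r i) : ℤ_[p]ˣ) : ℤ_[p])) ^ j := by
      rw [hν, Finset.sum_apply]
      refine Finset.sum_congr rfl fun j _ => ?_
      rw [Pi.pow_apply]
      show (((χ γ0) ^ (r i) : ℤ_[p]ˣ) : ℤ_[p]) ^ j = _
      rw [hγ0]
    rw [h3]
    exact h2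
  have hMX : ∀ t : Fin n → ℤ_[p], (p : ℤ_[p]) ^ M • t ∈ X := fun t => hA2 (hM t)
  obtain ⟨M1, hM1'⟩ := mulS_fin D _ hDi X M hMX
  obtain ⟨M2, hM2'⟩ := mulS_fin ν _ hνi (mulS D X) M1 hM1'
  rw [← hWD] at hM2'
  -- exact level of `γ0 ^ p`
  have hup : Associated ((((u ^ p : ℤ_[p]ˣ)) : ℤ_[p]) - 1) ((p : ℤ_[p]) ^ (m + 1)) := by
    have h := hV2 p hp2 m hm u hu (p : ℤ) (by exact_mod_cast (Fact.out : p.Prime).ne_zero)
    rw [zpow_natCast] at h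
    have h2 : padicValInt p (p : ℤ) = 1 := by
      rw [padicValInt.of_nat]
      exact padicValNat_self
    rw [h2] at h
    exact h
  have hχp : χ (γ0 ^ p) = u ^ p := by rw [map_pow, hγ0]
  have hl1 : (p : ℤ_[p]) ^ (m + 1) ∣ (χ (γ0 ^ p) : ℤ_[p]) - 1 := by
    rw [hχp]
    exact hup.symm.dvd
  have hl2 : ¬ (p : ℤ_[p]) ^ (m + 1 + 1) ∣ (χ (γ0 ^ p) : ℤ_[p]) - 1 := by
    rw [hχp]
    intro h
    have h1 : (p : ℤ_[p]) ^ (m + 1 + 1) ∣ (p : ℤ_[p]) ^ (m + 1) := h.trans hup.dvd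
    have h2 := (pow_dvd_pow_iff (PadicInt.prime_p (p := p)).ne_zero
      (PadicInt.prime_p (p := p)).not_isUnit).1 h1
    omega
  have hcl := hCL p hp2 G χ n (m + 1) r (by omega) (γ0 ^ p) hl1 hl2 X M2
    (fun t ht => hA3 _ t ht) hM2'
  obtain ⟨N, hN1, hN2, hN3, hN4⟩ := hCO p G χ n r Φ hΦ.cont hΦ.mul (Lev χ (m + 1))
    (lev_open χ hχ (m + 1)) (by
      intro k hk
      show (p : ℤ_[p]) ^ (m + 1) ∣ (χ k : ℤ_[p]) - 1
      rw [hk, Units.val_one, sub_self]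
      exact dvd_zero _) Y X W M2 hY hA2 hWY hM2'
    (fun g hg => hM1 g (lev_mono χ (Nat.le_succ m) hg)) hcl
  obtain ⟨e, he⟩ := relIndex_pow hIX Y W hWY M2 hM2'
  refine ⟨N, e, ?_, hN2, hN3, ?_, ?_, ?_⟩
  · intro g hg
    exact ((hN1 g).1 hg).1
  · intro I hI h hh hL
    rw [hN1]
    refine ⟨hL, ?_⟩
    obtain ⟨c, hc⟩ := (hJ' I hI).con
    rcases (hJ' I hI).kind with hk | hk
    · rw [hc h hh, act_eq_one χ r (hk h hh), sub_self, zero_mul]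
      exact W.zero_mem
    · rw [hc h hh]
      exact hcl h hL c (hM2 I c hc hk)
  · rw [hN4, he]
  · have h1 : (mulS ν (mulS D X)).toAddSubgroup.relIndex (mulS D X).toAddSubgroup =
        p ^ (∑ _i : Fin n, 1) := by
      refine hIX p n (mulS D X) M1 hM1' ν (fun _ => 1) hνi ?_
      intro t ht
      obtain ⟨x, hx, rfl⟩ := (mem_mulS _ _ _).1 ht
      refine (mem_mulS _ _ _).2 ⟨ν * x, sum_mem _ X (fun t ht => hA3 γ0 t ht) p x hx, ?_⟩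
      ring
    rw [← hWD] at h1
    have h2 : W.toAddSubgroup.relIndex (mulS D X).toAddSubgroup *
        (mulS D X).toAddSubgroup.relIndex Y.toAddSubgroup =
        W.toAddSubgroup.relIndex Y.toAddSubgroup :=
      AddSubgroup.relIndex_mul_relIndex _ _ _ hWDX hDX
    rw [h1, he] at h2
    have h3 : p ^ n ∣ p ^ e := by
      rw [← h2]
      have h4 : ∑ _i : Fin n, 1 = n := by simp
      rw [h4]
      exact Dvd.intro _ rfl
    exact (Nat.pow_dvd_pow_iff_le_right (Fact.out : p.Prime).one_lt).1 h3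

end Pool.Agent.Work.MP_59f3ad_nt.FE
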