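import Mathlib
import Pool.Agent.Work.MP_59f3ad_nt.FE.I_G1

/-!
Block FE, item G2: the weighted bound, group side (assembly).
-/

set_option autoImplicit false

namespace Pool.Agent.Work.MP_59f3ad_nt.FE

universe u

namespace IG2

variable {p : ℕ} [Fact p.Prime] {G : Type u} [Group G] {n : ℕ}

theorem act_conj (χ : G →* ℤ_[p]ˣ) (r : Fin n → ℤ) (g h : G) :
    act χ r (g * h * g⁻¹) = act χ r h := by
  have h1 : act χ r g * act χ r g⁻¹ = 1 := by rw [← act_mul, mul_inv_cancel, act_one]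
  rw [act_mul, act_mul]
  linear_combination (act χ r h) * h1

theorem phi_conj {χ : G →* ℤ_[p]ˣ} {r : Fin n → ℤ} {Φ : G → Fin n → ℤ_[p]}
    (hΦ : ∀ g h, Φ (g * h) = Φ g + act χ r g * Φ h) (g h : G) :
    Φ (g * h * g⁻¹) = act χ r g * Φ h - (act χ r h - 1) * Φ g := by
  have h1 : Φ 1 = 0 := by
    have h := hΦ 1 1
    rw [mul_one, act_one, one_mul] at h
    exact left_eq_add.1 h
  have h2 : act χ r g * Φ g⁻¹ = - Φ g := by
    have h := hΦ g g⁻¹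
    rw [mul_inv_cancel, h1] at h
    exact (neg_eq_of_add_eq_zero_right h.symm).symm
  rw [hΦ, hΦ, act_mul]
  linear_combination (act χ r h) * h2

theorem lev_conj (χ : G →* ℤ_[p]ˣ) (k : ℕ) (g h : G) (hh : h ∈ Lev χ k) :
    g * h * g⁻¹ ∈ Lev χ k := by
  have e : χ (g * h * g⁻¹) = χ h := by
    rw [map_mul, map_mul, map_inv, mul_comm (χ g), mul_assoc, mul_inv_cancel, mul_one]
  show (p : ℤ_[p]) ^ k ∣ (χ (g * h * g⁻¹) : ℤ_[p]) - 1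
  rw [e]
  exact hh

end IG2

open IG1 IG2 in
theorem pr_G2 (hYS : StYS.{u}) (hAC : StAC.{u}) (hIM : StIM.{u}) (hVA : StVA.{u}) (hFI : StFI)
    (hIX : StIX) (hV2 : StV2) (hCL : StCL.{u}) (hNO : StNO.{u}) (hCO : StCO.{u})
    (hTE : StTE.{u}) : StG2.{u} := by
  intro p _ hp2 G _ _ _ _ χ hχ n r Φ0 hr hΦ0 J hJ hI0
  obtain ⟨I0, hI0J, hI0v⟩ := hI0
  obtain ⟨c0, hc0⟩ := (hJ I0 hI0J).con
  obtain ⟨hΦ, hNO2⟩ := hNO p G χ hχ n r Φ0 hΦ0 c0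
  generalize hΦdef : (fun g => Φ0 g - (act χ r g - 1) * c0) = Φ at hΦ hNO2
  have hJ' : ∀ I ∈ J, Loc χ r Φ 0 I := fun I hI => hNO2 0 I (hJ I hI)
  have hΦI0 : ∀ h ∈ I0, Φ h = 0 := by
    intro h hh
    rw [← hΦdef]
    show Φ0 h - _ = 0
    rw [hc0 h hh, sub_self]
  have hr0 : ∀ i, r i ≠ 0 := fun i h => hr i (by rw [h]; exact dvd_zero _)
  have hI0v' : ∀ x : ℤ_[p]ˣ, (p : ℤ_[p]) ^ 0 ∣ (x : ℤ_[p]) - 1 → ∃ h ∈ I0, χ h = x :=
    fun x _ => hI0v x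
  obtain ⟨Y, hY⟩ := hYS p G χ hχ n r Φ hΦ.cont hΦ.mul
  obtain ⟨hA1, -, -, hA4⟩ := hAC p G χ n r Φ hΦ.mul Y hY 0
  obtain ⟨hM1, -⟩ := hIM p G χ n r Φ hΦ.mul Y hY 0 I0 hΦI0 hI0v'
  have hall : ∀ g, Φ g ∈ Y := fun g => hM1 g (by
    show (p : ℤ_[p]) ^ 0 ∣ (χ g : ℤ_[p]) - 1
    rw [pow_zero]
    exact one_dvd _)
  obtain ⟨M, hM⟩ := hFI p n Y (hVA p hp2 G χ n r Φ hΦ hr0 Y hY 0 I0 hΦI0 hI0v')
  obtain ⟨u, hu⟩ := exists_unit (p := p) (m := 1) le_rfl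
  obtain ⟨γ, hγI, hγ⟩ := hI0v u
  set D := act χ r γ - 1 with hD
  set W := mulS D Y with hW
  have hWY : W ≤ Y := by
    intro t ht
    obtain ⟨x, hx, rfl⟩ := (mem_mulS _ _ _).1 ht
    exact hA4 γ x hx
  have hDi : ∀ i, Associated (D i) ((p : ℤ_[p]) ^ (1 + padicValInt p (r i))) := by
    intro i
    have h := hV2 p hp2 1 le_rfl u hu (r i) (hr0 i)
    show Associated ((((χ γ) ^ (r i) : ℤ_[p]ˣ) : ℤ_[p]) - 1) _
    rw [hγ]
    exact h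
  obtain ⟨M2, hM2⟩ := mulS_fin D _ hDi Y M hM
  have hl1 : (p : ℤ_[p]) ^ 1 ∣ (χ γ : ℤ_[p]) - 1 := by
    rw [hγ, hu, add_sub_cancel_left]
  have hl2 : ¬ (p : ℤ_[p]) ^ (1 + 1) ∣ (χ γ : ℤ_[p]) - 1 := by
    rw [hγ, hu, add_sub_cancel_left]
    intro h
    have h2 := (pow_dvd_pow_iff (PadicInt.prime_p (p := p)).ne_zero
      (PadicInt.prime_p (p := p)).not_isUnit).1 h
    omega
  have hcl := hCL p hp2 G χ n 1 r le_rfl γ hl1 hl2 Y M2 (fun t ht => hA1 _ t ht) hM2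
  obtain ⟨N, hN1, hN2, hN3, hN4⟩ := hCO p G χ n r Φ hΦ.cont hΦ.mul (Lev χ 1)
    (lev_open χ hχ 1) (by
      intro k hk
      show (p : ℤ_[p]) ^ 1 ∣ (χ k : ℤ_[p]) - 1
      rw [hk, Units.val_one, sub_self]
      exact dvd_zero _) Y Y W M2 hY le_rfl hWY hM2 (fun g _ => hall g) hcl
  have hWst : ∀ g, ∀ t ∈ W, act χ r g * t ∈ W := by
    intro g t ht
    obtain ⟨x, hx, rfl⟩ := (mem_mulS _ _ _).1 ht
    refine (mem_mulS _ _ _).2 ⟨act χ r g * x, hA1 g x hx, ?_⟩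
    ring
  refine ⟨N, ?_, ⟨?_⟩, hN2, hN3, ?_, ?_, ?_⟩
  · intro g hg
    exact ((hN1 g).1 hg).1
  · intro a ha g
    obtain ⟨ha1, ha2⟩ := (hN1 a).1 ha
    refine (hN1 _).2 ⟨lev_conj χ 1 g a ha1, ?_⟩
    rw [phi_conj hΦ.mul]
    exact W.sub_mem (hWst g _ ha2) (hcl a ha1 _ (hall g))
  · intro I hI h hh hL
    rw [hN1]
    refine ⟨hL, ?_⟩
    obtain ⟨c, hc⟩ := (hJ' I hI).con
    rcases (hJ' I hI).kind with hk | hk
    · rw [hc h hh, act_eq_one χ r (hk h hh), sub_self, zero_mul]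
      exact W.zero_mem
    · rw [hc h hh]
      refine hcl h hL c (hTE p G χ n r Φ hr Y hall hA1 I c hc ?_)
      intro x
      refine hk x ?_
      rw [pow_zero]
      exact one_dvd _
  · rw [hN4]
    refine hIX p n Y M hM D _ hDi ?_
    intro t ht
    exact hA4 γ t ht
  · intro τ hτ g hg
    rw [hN1]
    refine ⟨(Lev χ 1).mul_mem (lev_conj χ 1 τ g hg) hg, ?_⟩
    rw [hΦ.mul, act_conj, phi_conj hΦ.mul, hτ]
    have e : -1 * Φ g - (act χ r g - 1) * Φ τ + act χ r g * Φ g =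
        (act χ r g - 1) * Φ g - (act χ r g - 1) * Φ τ := by ring
    rw [e]
    exact W.sub_mem (hcl g hg _ (hall g)) (hcl g hg _ (hall τ))

end Pool.Agent.Work.MP_59f3ad_nt.FE
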