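import Pool.Agent.Work.MP_59f3ad_nt.FE.StmtsG

/-!
Block FE, item IM: values of the cocycle on the elements of level `m`.
-/

set_option autoImplicit false

namespace Pool.Agent.Work.MP_59f3ad_nt.FE

universe u

/-- Item IM. -/
theorem pr_IM (hAC : StAC.{u}) : StIM.{u} := by
  intro p _ G _ χ n r Φ hΦ Y hY m I0 h0 hI0
  have hact : ∀ g h : G, χ g = χ h → act χ r g = act χ r h := by
    intro g h hgh
    funext i
    simp only [act, hgh]
  have h1 : ∀ g ∈ Lev χ m, Φ g ∈ Y := by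
    intro g hg
    obtain ⟨h, hh, hχ⟩ := hI0 (χ g) hg
    have hk : χ (h⁻¹ * g) = 1 := by
      rw [map_mul, map_inv, hχ, inv_mul_cancel]
    have hkY : Φ (h⁻¹ * g) ∈ Y := (hY _).2 ⟨_, hk, rfl⟩
    have e : Φ g = act χ r h * Φ (h⁻¹ * g) := by
      have e1 := hΦ h (h⁻¹ * g)
      rw [mul_inv_cancel_left, h0 h hh, zero_add] at e1
      exact e1
    rw [e]
    exact (hAC p G χ n r Φ hΦ Y hY m).1 h _ hkY
  refine ⟨h1, ?_⟩
  intro I c hI hIx
  intro g hg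
  obtain ⟨h, hh, hχ⟩ := hIx (χ g) hg
  have hhL : h ∈ Lev χ m := by
    show (p : ℤ_[p]) ^ m ∣ ((χ h : ℤ_[p]ˣ) : ℤ_[p]) - 1
    rw [hχ]
    exact hg
  rw [hact g h hχ.symm, ← hI h hh]
  exact h1 h hhL

end Pool.Agent.Work.MP_59f3ad_nt.FE
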