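import Mathlib
import Pool.Agent.Work.MP_59f3ad_nt.FE.StmtsG

/-!
# Item IX of block FE: indices of lattices
-/

set_option autoImplicit false

namespace Pool.Agent.Work.MP_59f3ad_nt.FE

namespace IIX

variable {p : ℕ} [Fact p.Prime] {n : ℕ}

/-- reduction of the coordinates -/
noncomputable def red (p : ℕ) [Fact p.Prime] {n : ℕ} (e : Fin n → ℕ) :
    (Fin n → ℤ_[p]) →+ ((i : Fin n) → ZMod (p ^ e i)) where
  toFun t := fun i => PadicInt.toZModPow (e i) (t i)
  map_zero' := by
    funext i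
    simp
  map_add' s t := by
    funext i
    simp

theorem red_surj (e : Fin n → ℕ) : Function.Surjective (red p e) := by
  intro y
  have h : ∀ i, ∃ x : ℤ_[p], PadicInt.toZModPow (e i) x = y i := by
    intro i
    exact ZMod.ringHom_surjective (PadicInt.toZModPow (p := p) (e i)) (y i)
  choose x hx using h
  exact ⟨x, funext hx⟩

theorem mem_mulS' (b : Fin n → ℤ_[p]) (X : Submodule ℤ_[p] (Fin n → ℤ_[p])) (t : Fin n → ℤ_[p]) :
    t ∈ (mulS b X).toAddSubgroup ↔ ∃ x ∈ X, b * x = t := by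
  rw [Submodule.mem_toAddSubgroup]
  exact mem_mulS b X t

/-- the kernel of the reduction -/
theorem ker_red (b : Fin n → ℤ_[p]) (e : Fin n → ℕ)
    (hb : ∀ i, Associated (b i) ((p : ℤ_[p]) ^ e i)) :
    (red p e).ker = (mulS b ⊤).toAddSubgroup := by
  ext t
  rw [mem_mulS', AddMonoidHom.mem_ker]
  have h1 : red p e t = 0 ↔ ∀ i, b i ∣ t i := by
    constructor
    · intro h i
      have h2 : PadicInt.toZModPow (e i) (t i) = 0 := congrFun h i
      rw [← RingHom.mem_ker, PadicInt.ker_toZModPow, Ideal.mem_span_singleton] at h2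
      exact (hb i).dvd_iff_dvd_left.2 h2
    · intro h
      funext i
      have h2 : t i ∈ RingHom.ker (PadicInt.toZModPow (p := p) (e i)) := by
        rw [PadicInt.ker_toZModPow, Ideal.mem_span_singleton]
        exact (hb i).dvd_iff_dvd_left.1 (h i)
      exact h2
  rw [h1]
  constructor
  · intro h
    choose x hx using h
    exact ⟨x, Submodule.mem_top, funext fun i => (hx i).symm⟩
  · rintro ⟨x, -, rfl⟩ i
    exact ⟨x i, rfl⟩

/-- the index of `b T` -/
theorem index_top (b : Fin n → ℤ_[p]) (e : Fin n → ℕ)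
    (hb : ∀ i, Associated (b i) ((p : ℤ_[p]) ^ e i)) :
    (mulS b ⊤).toAddSubgroup.index = p ^ (∑ i, e i) := by
  rw [← ker_red b e hb, AddSubgroup.index_ker, AddMonoidHom.range_eq_top.2 (red_surj e),
    Nat.card_congr (AddSubgroup.topEquiv).toEquiv, Nat.card_pi]
  simp only [Nat.card_zmod]
  rw [Finset.prod_pow_eq_pow_sum]

/-- `b X` is the image of `X` under an injective map -/
theorem relIndex_mul (b : Fin n → ℤ_[p]) (hb : ∀ i, b i ≠ 0)
    (X : Submodule ℤ_[p] (Fin n → ℤ_[p])) :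
    (mulS b X).toAddSubgroup.relIndex (mulS b ⊤).toAddSubgroup = X.toAddSubgroup.index := by
  obtain ⟨f, hf⟩ : ∃ f : (Fin n → ℤ_[p]) →+ (Fin n → ℤ_[p]), ∀ t, f t = b * t :=
    ⟨AddMonoidHom.mulLeft b, fun t => rfl⟩
  have hinj : Function.Injective f := by
    intro s t h
    rw [hf, hf] at h
    funext i
    exact mul_left_cancel₀ (hb i) (congrFun h i)
  have hmap : ∀ Z : Submodule ℤ_[p] (Fin n → ℤ_[p]),
      (mulS b Z).toAddSubgroup = Z.toAddSubgroup.map f := by
    intro Z
    ext t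
    rw [mem_mulS', AddSubgroup.mem_map]
    constructor
    · rintro ⟨x, hx, rfl⟩
      exact ⟨x, hx, hf x⟩
    · rintro ⟨x, hx, rfl⟩
      exact ⟨x, hx, (hf x).symm⟩
  rw [hmap, hmap, AddSubgroup.relIndex_map_map_of_injective _ _ hinj]
  have htop : (⊤ : Submodule ℤ_[p] (Fin n → ℤ_[p])).toAddSubgroup = ⊤ := by
    ext t
    simp
  rw [htop, AddSubgroup.relIndex_top_right]

end IIX

open IIX in
/-- Item IX. -/
theorem pr_IX : StIX := by
  intro p _ n X M hM b e hb hbX
  have hp0 : (p : ℤ_[p]) ≠ 0 := by exact_mod_cast (Fact.out : p.Prime).ne_zero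
  have hb0 : ∀ i, b i ≠ 0 := by
    intro i h
    have h1 := hb i
    rw [h] at h1
    exact pow_ne_zero _ hp0 (((Associated.comm.1 h1).eq_zero_iff).2 rfl)
  -- the index of `X` is not zero
  have hX0 : X.toAddSubgroup.index ≠ 0 := by
    have h1 := index_top (p := p) (n := n) (fun _ => (p : ℤ_[p]) ^ M) (fun _ => M)
      (fun _ => Associated.refl _)
    have h2 : (mulS (fun _ : Fin n => (p : ℤ_[p]) ^ M) ⊤).toAddSubgroup ≤ X.toAddSubgroup := by
      intro t ht
      rw [mem_mulS'] at ht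
      obtain ⟨x, -, rfl⟩ := ht
      rw [Submodule.mem_toAddSubgroup]
      have h3 := hM x
      have e1 : (fun _ : Fin n => (p : ℤ_[p]) ^ M) * x = (p : ℤ_[p]) ^ M • x := by
        funext i
        simp
      rw [e1]
      exact h3
    have h3 := AddSubgroup.index_dvd_of_le h2
    intro h4
    rw [h4, h1, zero_dvd_iff] at h3
    exact pow_ne_zero _ (Fact.out : p.Prime).ne_zero h3
  have hle : (mulS b X).toAddSubgroup ≤ X.toAddSubgroup := by
    intro t ht
    rw [mem_mulS'] at ht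
    obtain ⟨x, hx, rfl⟩ := ht
    exact hbX x hx
  have hle2 : (mulS b X).toAddSubgroup ≤ (mulS b ⊤).toAddSubgroup := by
    intro t ht
    rw [mem_mulS'] at ht ⊢
    obtain ⟨x, hx, rfl⟩ := ht
    exact ⟨x, Submodule.mem_top, rfl⟩
  have h1 := AddSubgroup.relIndex_mul_index hle
  have h2 := AddSubgroup.relIndex_mul_index hle2
  rw [relIndex_mul b hb0, index_top b e hb] at h2
  rw [← h2, mul_comm] at h1
  exact Nat.eq_of_mul_eq_mul_left (Nat.pos_of_ne_zero hX0) h1

end Pool.Agent.Work.MP_59f3ad_nt.FE
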