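import Pool.Agent.Work.MP_59f3ad_nt.FE.StmtsF

set_option autoImplicit false

/-!
Block FE, item KF: the fields `L(μ_(p^k))` and the levels of the cyclotomic character.
-/

open NumberField IsDedekindDomain

namespace Pool.Agent.Work.MP_59f3ad_nt.FE

universe u

namespace IKF

theorem pow_val_one {Ω : Type u} [Field Ω] (n : ℕ) (ζ : Ω) (h : ζ ^ n = 1) :
    ζ ^ ((1 : ZMod n)).val = ζ := by
  rw [ZMod.val_one_eq_one_mod]
  conv_rhs => rw [← pow_one ζ, ← Nat.mod_add_div 1 n, pow_add, pow_mul, h, one_pow, mul_one]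

theorem exists_prim (L : Type u) [Field L] [NumberField L] (p : ℕ) [Fact p.Prime] (k : ℕ) :
    ∃ ζ : AlgebraicClosure L, IsPrimitiveRoot ζ (p ^ k) := by
  haveI : NeZero (p : AlgebraicClosure L) := ⟨by
    exact_mod_cast (Fact.out : p.Prime).ne_zero⟩
  exact HasEnoughRootsOfUnity.exists_primitiveRoot (AlgebraicClosure L) (p ^ k)

theorem mu_eq (L : Type u) [Field L] [NumberField L] (p : ℕ) [Fact p.Prime] (k : ℕ) :
    mu L p k = IntermediateField.adjoin L
      {b : AlgebraicClosure L | ∃ n ∈ ({p ^ k} : Set ℕ), n ≠ 0 ∧ b ^ n = 1} := by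
  unfold mu
  congr 1
  ext ζ
  simp only [Set.mem_ofPred_eq, Set.mem_singleton_iff, exists_eq_left]
  exact ⟨fun h => ⟨pow_ne_zero k (Fact.out : p.Prime).ne_zero, h⟩, fun h => h.2⟩

end IKF

open IKF

theorem pr_KF (hKU : StKU.{u}) : StKF.{u} := by
  intro L _ _ p _
  refine ⟨cyclotomicCharacter.continuous p L (AlgebraicClosure L), fun k => ⟨?_, ?_, ?_⟩⟩
  · ext h
    have h1 := hKU L p h 1 k
    rw [Units.val_one, map_one] at h1
    show (p : ℤ_[p]) ^ k ∣ ((cyc L p h : ℤ_[p]ˣ) : ℤ_[p]) - 1 ↔ _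
    rw [← h1]
    have h2 : h ∈ (mu L p k).fixingSubgroup ↔ ∀ x ∈ mu L p k, h • x = x := by
      rw [IntermediateField.mem_fixingSubgroup_iff]
      rfl
    rw [h2]
    unfold mu
    rw [IntermediateField.forall_mem_adjoin_smul_eq_self_iff]
    constructor
    · intro h3 ζ hζ
      have h4 := h3 ζ hζ
      rw [pow_val_one _ ζ hζ] at h4
      exact h4
    · intro h3 ζ hζ
      rw [pow_val_one _ ζ hζ]
      exact h3 ζ hζ
  · haveI hc : IsCyclotomicExtension {p ^ k} L (mu L p k) := by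
      rw [mu_eq]
      exact IntermediateField.isCyclotomicExtension_adjoin_of_exists_isPrimitiveRoot _ _ _
        (fun n hn _ => by rw [Set.mem_singleton_iff] at hn; rw [hn]; exact exists_prim L p k)
    exact IsCyclotomicExtension.finiteDimensional {p ^ k} L (mu L p k)
  · rw [mu_eq]
    exact IntermediateField.isCyclotomicExtension_adjoin_of_exists_isPrimitiveRoot _ _ _
        (fun n hn _ => by rw [Set.mem_singleton_iff] at hn; rw [hn]; exact exists_prim L p k)

end Pool.Agent.Work.MP_59f3ad_nt.FE
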