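import Pool.Agent.Work.MP_59f3ad_nt.FE.StmtsF

/-!
Block FE, item KU: the cyclotomic character modulo `p^k` and the action on the roots of unity.
-/

set_option autoImplicit false

open NumberField IsDedekindDomain

namespace Pool.Agent.Work.MP_59f3ad_nt.FE

universe u

namespace IKU

theorem enough (L : Type u) [Field L] [NumberField L] (p : ℕ) [hp : Fact p.Prime] (i : ℕ) :
    HasEnoughRootsOfUnity (AlgebraicClosure L) (p ^ i) := by
  have : NeZero (p ^ i) := ⟨pow_ne_zero _ hp.out.ne_zero⟩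
  have : NeZero ((p ^ i : ℕ) : AlgebraicClosure L) := ⟨by
    have := (algebraMap L (AlgebraicClosure L)).injective
    have : CharZero (AlgebraicClosure L) := charZero_of_injective_algebraMap this
    exact_mod_cast pow_ne_zero i hp.out.ne_zero⟩
  infer_instance

theorem spec (L : Type u) [Field L] [NumberField L] (p : ℕ) [Fact p.Prime] (h : GK L) (k : ℕ)
    (ζ : AlgebraicClosure L) (hζ : ζ ^ p ^ k = 1) :
    h ζ = ζ ^ (PadicInt.toZModPow k ((cyc L p h : ℤ_[p]ˣ) : ℤ_[p])).val := by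
  have : ∀ i, HasEnoughRootsOfUnity (AlgebraicClosure L) (p ^ i) := enough L p
  exact cyclotomicCharacter.spec p
    (MulSemiringAction.toRingAut (GK L) (AlgebraicClosure L) h) ζ hζ

theorem dvd_iff (p : ℕ) [Fact p.Prime] (k : ℕ) (x y : ℤ_[p]) :
    (p : ℤ_[p]) ^ k ∣ x - y ↔ PadicInt.toZModPow k x = PadicInt.toZModPow k y := by
  rw [← Ideal.mem_span_singleton, ← PadicInt.ker_toZModPow, RingHom.mem_ker, map_sub, sub_eq_zero]

end IKU

/-- Item KU. -/
theorem pr_KU : StKU.{u} := by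
  intro L _ _ p hp h y k
  rw [IKU.dvd_iff]
  have : NeZero (p ^ k) := ⟨pow_ne_zero _ hp.out.ne_zero⟩
  constructor
  · intro H
    have := IKU.enough L p k
    obtain ⟨ζ, hζ⟩ := HasEnoughRootsOfUnity.exists_primitiveRoot (AlgebraicClosure L) (p ^ k)
    have h1 := H ζ hζ.pow_eq_one
    rw [IKU.spec L p h k ζ hζ.pow_eq_one] at h1
    exact ZMod.val_injective _ (hζ.pow_inj (ZMod.val_lt _) (ZMod.val_lt _) h1)
  · intro H ζ hζ
    rw [IKU.spec L p h k ζ hζ, H]

end Pool.Agent.Work.MP_59f3ad_nt.FE
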