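import Pool.Agent.Work.MP_59f3ad_nt.FE.StmtsF

/-!
Block FE, item LC: the local conditions for the family of cocycles on the inertia groups.
-/

set_option autoImplicit false

open NumberField IsDedekindDomain

namespace Pool.Agent.Work.MP_59f3ad_nt.FE

universe u

namespace ILC

theorem isInt (L : Type u) [Field L] :
    Algebra.IsIntegral (𝓞 L) (𝓞 (AlgebraicClosure L)) := by
  have : Algebra.IsIntegral ℤ (𝓞 (AlgebraicClosure L)) := ⟨fun b => RingOfIntegers.isIntegral b⟩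
  exact Algebra.IsIntegral.tower_top ℤ

theorem exists_above (L : Type u) [Field L] [NumberField L] (p : ℕ) [Fact p.Prime] :
    ∃ v : HeightOneSpectrum (𝓞 L), (p : 𝓞 L) ∈ v.asIdeal := by
  have hp : p.Prime := Fact.out
  have hpu : ¬ IsUnit (p : 𝓞 L) := by
    intro h
    have h1 := (Ideal.absNorm_eq_one_iff (I := Ideal.span {(p : 𝓞 L)})).mpr
      (Ideal.span_singleton_eq_top.mpr h)
    rw [Ideal.absNorm_span_natCast] at h1
    have h2 : 0 < Module.finrank ℤ (𝓞 L) := Module.finrank_pos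
    exact absurd ((Nat.pow_eq_one.mp h1).resolve_right h2.ne') hp.one_lt.ne'
  obtain ⟨M, hM, hle⟩ := exists_max_ideal_of_mem_nonunits hpu
  have hM0 : M ≠ ⊥ := by
    rintro rfl
    have h1 : (p : 𝓞 L) = 0 := hle
    exact hp.ne_zero (by exact_mod_cast h1)
  exact ⟨⟨M, hM.isPrime, hM0⟩, hle⟩

theorem exists_over (L : Type u) [Field L] [NumberField L] (v : HeightOneSpectrum (𝓞 L)) :
    ∃ Q : Ideal (𝓞 (AlgebraicClosure L)),
    Q.IsPrime ∧ Q.comap (algebraMap (𝓞 L) (𝓞 (AlgebraicClosure L))) = v.asIdeal := by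
  have hi := isInt L
  have := v.isPrime
  obtain ⟨Q, -, h1, h2⟩ := Ideal.exists_ideal_over_prime_of_isIntegral v.asIdeal
    (⊥ : Ideal (𝓞 (AlgebraicClosure L))) (by
      intro x hx
      rw [Ideal.mem_comap, Ideal.mem_bot] at hx
      have h3 : (algebraMap L (AlgebraicClosure L)) (x : L) = 0 :=
        congrArg (fun z : 𝓞 (AlgebraicClosure L) => (z : AlgebraicClosure L)) hx
      rw [map_eq_zero] at h3
      have h4 : x = 0 := RingOfIntegers.ext h3
      rw [h4]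
      exact Ideal.zero_mem _)
  exact ⟨Q, h1, h2⟩

theorem comap_ne_bot (L : Type u) [Field L] (Q : Ideal (𝓞 (AlgebraicClosure L))) (hQ : Q ≠ ⊥) :
    Q.comap (algebraMap (𝓞 L) (𝓞 (AlgebraicClosure L))) ≠ ⊥ := by
  obtain ⟨x, hx, hx0⟩ := Submodule.exists_mem_ne_zero_of_ne_bot hQ
  exact Ideal.comap_ne_bot_of_integral_mem hx0 hx ((isInt L).isIntegral x)

theorem twist_eq (L : Type u) [Field L] (p : ℕ) [Fact p.Prime] {n : ℕ} (r : Fin n → ℤ) (g : GK L)
    (i : Fin n) : twist L p (r i) g = act (cyc L p) r g i := rfl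

end ILC

theorem pr_LC (hLO : StLO.{u}) (hMU : StMU.{u}) (hRA : StRA.{u}) : StLC.{u} := by
  intro L _ _ p hp hp2 n r S φ hφ m hm
  refine ⟨fun Q hQ hQ0 => ⟨?_, ?_⟩, ?_⟩
  · choose c hc using fun i => hLO L p (r i) (S i) (φ i) (hφ i) Q hQ hQ0
    refine ⟨c, fun h hh => ?_⟩
    funext i
    exact hc i h hh
  · by_cases hpQ : (p : 𝓞 (AlgebraicClosure L)) ∈ Q
    · right
      have hne := ILC.comap_ne_bot L Q hQ0
      have hpr : (Q.comap (algebraMap (𝓞 L) (𝓞 (AlgebraicClosure L)))).IsPrime :=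
        Ideal.IsPrime.comap _
      let v : HeightOneSpectrum (𝓞 L) := ⟨_, hpr, hne⟩
      have hv : (p : 𝓞 L) ∈ v.asIdeal := by
        show (p : 𝓞 L) ∈ Q.comap (algebraMap (𝓞 L) (𝓞 (AlgebraicClosure L)))
        rw [Ideal.mem_comap, map_natCast]
        exact hpQ
      obtain ⟨h1, h2⟩ := hRA L p hp2 v hv Q hQ rfl
      intro x hx
      rcases hm with ⟨hm1, hRm⟩ | ⟨-, hUr⟩
      · obtain ⟨h, hh, hc⟩ := h1 m hm1 (hRm v hv) x hx
        exact ⟨h, hh, hc⟩
      · obtain ⟨h, hh, hc⟩ := h2 (hUr v hv) x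
        exact ⟨h, hh, hc⟩
    · left
      intro h hh
      exact hMU L p Q hQ hpQ h hh
  · obtain ⟨v, hv⟩ := ILC.exists_above L p
    obtain ⟨Q, hQ, hQv⟩ := ILC.exists_over L v
    have hQ0 : Q ≠ ⊥ := by
      rintro rfl
      have hv2 := hv
      rw [← hQv, Ideal.mem_comap, map_natCast, Ideal.mem_bot] at hv2
      exact (Fact.out : p.Prime).ne_zero (by exact_mod_cast hv2)
    obtain ⟨h1, h2⟩ := hRA L p hp2 v hv Q hQ hQv
    refine ⟨Q, hQ, hQ0, fun y hy => ?_⟩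
    rcases hm with ⟨hm1, hRm⟩ | ⟨-, hUr⟩
    · obtain ⟨h, hh, hc⟩ := h1 m hm1 (hRm v hv) y hy
      exact ⟨h, hh, hc⟩
    · obtain ⟨h, hh, hc⟩ := h2 (hUr v hv) y
      exact ⟨h, hh, hc⟩

end Pool.Agent.Work.MP_59f3ad_nt.FE
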