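import Pool.Agent.Work.MP_59f3ad_nt.FE.StmtsF
import Pool.Agent.Work.MP_59f3ad_nt.Q3.I_Fix

/-!
Block FE, item LO: classes of the Tate-Shafarevich group are coboundaries on every inertia group.
-/

set_option autoImplicit false

open NumberField IsDedekindDomain

namespace Pool.Agent.Work.MP_59f3ad_nt.FE

universe u

theorem pr_LO (hDE : StDE.{u}) : StLO.{u} := by
  intro L _ _ p _ r S φ hφ Q hQ hQ0
  obtain ⟨h1, h2, -⟩ := hφ
  obtain ⟨x, hxQ, hx0⟩ := Submodule.exists_mem_ne_zero_of_ne_bot hQ0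
  have hint : IsIntegral (𝓞 L) x := (NumberField.RingOfIntegers.isIntegral x).tower_top
  have hne : Q.comap (algebraMap (𝓞 L) (𝓞 (AlgebraicClosure L))) ≠ ⊥ :=
    Ideal.comap_ne_bot_of_integral_mem hx0 hxQ hint
  have hpr : (Q.comap (algebraMap (𝓞 L) (𝓞 (AlgebraicClosure L)))).IsPrime :=
    Ideal.comap_isPrime _ Q
  let v : HeightOneSpectrum (𝓞 L) := ⟨_, hpr, hne⟩
  by_cases hv : v ∈ S
  · obtain ⟨ι, hι⟩ := hDE L v Q hQ rfl
    obtain ⟨c, hc⟩ := h2 v hv ι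
    refine ⟨c, fun h hh => ?_⟩
    obtain ⟨g, hg⟩ := hι h hh
    exact hc g h hg
  · refine ⟨0, fun h hh => ?_⟩
    rw [mul_zero]
    refine h1.2 h ?_
    refine Q3.pr_Fix L S v hv h Q ?_
    refine ⟨?_, hQ, rfl, ?_⟩
    · intro y
      exact h.commutes y
    · intro y y' hy
      exact hh y y' hy

end Pool.Agent.Work.MP_59f3ad_nt.FE
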