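import Pool.Agent.Work.MP_59f3ad_nt.FE.StmtsG

/-!
Block FE, item NO: subtracting a coboundary from the cocycle.
-/

set_option autoImplicit false

open NumberField IsDedekindDomain

namespace Pool.Agent.Work.MP_59f3ad_nt.FE

universe u

namespace INO

variable {p : ℕ} [Fact p.Prime] {G : Type u} [Group G] {n : ℕ}

theorem continuous_act [TopologicalSpace G] (χ : G →* ℤ_[p]ˣ) (hχ : Continuous χ)
    (r : Fin n → ℤ) : Continuous (act χ r) := by
  refine continuous_pi fun i => ?_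
  exact Units.continuous_val.comp (hχ.zpow (r i))

theorem coc [TopologicalSpace G] (χ : G →* ℤ_[p]ˣ) (hχ : Continuous χ) (r : Fin n → ℤ)
    (Φ : G → Fin n → ℤ_[p]) (h : Coc χ r Φ) (c : Fin n → ℤ_[p]) :
    Coc χ r (fun g => Φ g - (act χ r g - 1) * c) where
  cont := h.cont.sub (((continuous_act χ hχ r).sub continuous_const).mul continuous_const)
  mul := by
    intro g k
    rw [h.mul, act_mul]
    ring
  ind := by
    intro a ha
    refine h.ind a fun ρ => ?_
    obtain ⟨c', hc'⟩ := ha ρ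
    refine ⟨c' + ∑ i with r i = ρ, a i * c i, fun g => ?_⟩
    have h1 := hc' g
    have h2 : ∑ i with r i = ρ, a i * (Φ g - (act χ r g - 1) * c) i =
        ∑ i with r i = ρ, a i * Φ g i -
          ((((χ g) ^ ρ : ℤ_[p]ˣ) : ℤ_[p]) - 1) * ∑ i with r i = ρ, a i * c i := by
      rw [Finset.mul_sum, ← Finset.sum_sub_distrib]
      refine Finset.sum_congr rfl fun i hi => ?_
      have hri : r i = ρ := (Finset.mem_filter.mp hi).2
      rw [Pi.sub_apply, Pi.mul_apply, Pi.sub_apply, Pi.one_apply]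
      have e : act χ r g i = (((χ g) ^ ρ : ℤ_[p]ˣ) : ℤ_[p]) := by rw [← hri]; rfl
      rw [e]
      ring
    rw [h2] at h1
    rw [mul_add, ← h1]
    ring

theorem loc (χ : G →* ℤ_[p]ˣ) (r : Fin n → ℤ) (Φ : G → Fin n → ℤ_[p]) (c : Fin n → ℤ_[p])
    (m : ℕ) (I : Set G) (h : Loc χ r Φ m I) :
    Loc χ r (fun g => Φ g - (act χ r g - 1) * c) m I where
  con := by
    obtain ⟨c0, hc0⟩ := h.con
    refine ⟨c0 - c, fun k hk => ?_⟩
    rw [hc0 k hk]
    ring
  kind := h.kind

end INO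

/-- Item NO. -/
theorem pr_NO : StNO.{u} := by
  intro p _ G _ _ χ hχ n r Φ h c
  exact ⟨INO.coc χ hχ r Φ h c, fun m I hI => INO.loc χ r Φ c m I hI⟩

end Pool.Agent.Work.MP_59f3ad_nt.FE
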