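import Mathlib
import Pool.Agent.Work.MP_59f3ad_nt.FE.StmtsF

/-!
Block FE, item RA: the cyclotomic character takes all values `≡ 1` modulo `p^m` on inertia.
-/

set_option autoImplicit false

open NumberField IsDedekindDomain

namespace Pool.Agent.Work.MP_59f3ad_nt.FE

universe u

namespace IRA

theorem pow_dvd (p : ℕ) [Fact p.Prime] (a : ℤ_[p]) (m : ℕ) (hm : 1 ≤ m)
    (h : (p : ℤ_[p]) ^ m ∣ a - 1) (j : ℕ) : (p : ℤ_[p]) ^ (m + j) ∣ a ^ p ^ j - 1 := by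
  induction j with
  | zero => simpa using h
  | succ j ih =>
    set b : ℤ_[p] := a ^ p ^ j with hb
    have h1 : (p : ℤ_[p]) ∣ b - 1 := (dvd_pow_self _ (by omega)).trans ih
    have h2 : (p : ℤ_[p]) ∣ ∑ i ∈ Finset.range p, b ^ i := by
      have e : ∑ i ∈ Finset.range p, b ^ i = ∑ i ∈ Finset.range p, (b ^ i - 1) + (p : ℤ_[p]) := by
        rw [Finset.sum_sub_distrib]
        simp
      rw [e]
      refine dvd_add (Finset.dvd_sum fun i _ => ?_) (dvd_refl _)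
      rw [← geom_sum_mul]
      exact h1.mul_left _
    have h3 : a ^ p ^ (j + 1) - 1 = (∑ i ∈ Finset.range p, b ^ i) * (b - 1) := by
      rw [geom_sum_mul, hb, ← pow_mul, pow_succ]
    have h4 : (p : ℤ_[p]) ^ (m + (j + 1)) = p * (p : ℤ_[p]) ^ (m + j) := by
      rw [← add_assoc, pow_succ, mul_comm]
    rw [h3, h4]
    exact mul_dvd_mul h2 ih

theorem isClosed_dvd (p : ℕ) [Fact p.Prime] (k : ℕ) : IsClosed {a : ℤ_[p] | (p : ℤ_[p]) ^ k ∣ a} := by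
  have h1 : {a : ℤ_[p] | (p : ℤ_[p]) ^ k ∣ a} = Metric.closedBall 0 ((p : ℝ) ^ (-k : ℤ)) := by
    ext a
    rw [Metric.mem_closedBall, dist_zero_right]
    exact ((PadicInt.norm_le_pow_iff_mem_span_pow a k).trans Ideal.mem_span_singleton).symm
  rw [h1]
  exact Metric.isClosed_closedBall

/-- compactness -/
theorem core (hIC : StIC.{u}) (hKF : StKF.{u}) (L : Type u) [Field L] [NumberField L] (p : ℕ)
    [Fact p.Prime] (Q : Ideal (𝓞 (AlgebraicClosure L))) (y : ℤ_[p]ˣ) (k0 : ℕ)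
    (h : ∀ k : ℕ, k0 ≤ k → ∃ g : GK L, Inr Q g ∧
      (p : ℤ_[p]) ^ k ∣ ((cyc L p g : ℤ_[p]ˣ) : ℤ_[p]) - (y : ℤ_[p])) :
    ∃ g : GK L, Inr Q g ∧ cyc L p g = y := by
  obtain ⟨I, hI, hIc⟩ := hIC L (AlgebraicClosure L) Q
  have hcont : Continuous (cyc L p) := (hKF L p).1
  have hcont2 : Continuous fun g : GK L => ((cyc L p g : ℤ_[p]ˣ) : ℤ_[p]) - (y : ℤ_[p]) :=
    (Units.continuous_val.comp hcont).sub continuous_const
  let C : ℕ → Set (GK L) := fun k => (I : Set (GK L)) ∩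
    (fun g : GK L => ((cyc L p g : ℤ_[p]ˣ) : ℤ_[p]) - (y : ℤ_[p])) ⁻¹'
      {a : ℤ_[p] | (p : ℤ_[p]) ^ k ∣ a}
  have hCc : ∀ k, IsClosed (C k) := fun k => hIc.inter ((isClosed_dvd p k).preimage hcont2)
  have hmono : ∀ k, C (k + 1) ⊆ C k := by
    rintro k g ⟨h1, h2⟩
    exact ⟨h1, (pow_dvd_pow _ (Nat.le_succ k)).trans h2⟩
  have hne : ∀ k, (C k).Nonempty := by
    intro k
    obtain ⟨g, hg1, hg2⟩ := h (max k k0) (le_max_right _ _)
    exact ⟨g, (hI g).2 hg1, (pow_dvd_pow _ (le_max_left _ _)).trans hg2⟩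
  obtain ⟨g, hg⟩ := IsCompact.nonempty_iInter_of_sequence_nonempty_isCompact_isClosed C hmono hne
    (hCc 0).isCompact hCc
  rw [Set.mem_iInter] at hg
  refine ⟨g, (hI g).1 (hg 0).1, ?_⟩
  apply Units.ext
  rw [← sub_eq_zero]
  by_contra hne0
  obtain ⟨n, hn⟩ := FiniteMultiplicity.of_prime_left PadicInt.prime_p hne0
  exact hn (hg (n + 1)).2

end IRA

theorem pr_RA (hIC : StIC.{u}) (hKU : StKU.{u}) (hKF : StKF.{u}) (hCY : StCY.{u}) (hRB : StRB) :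
    StRA.{u} := by
  intro L _ _ p _ hp2 v hv Q hQ hQv
  refine ⟨?_, ?_⟩
  · intro m hm hme y hy
    refine IRA.core hIC hKF L p Q y m (fun k hk => ?_)
    obtain ⟨A, hA1, hA2⟩ := hCY L p v hv Q hQ hQv k (by omega)
    obtain ⟨h1, -⟩ := hRB p hp2 k m (v.asIdeal.ramificationIdx ℤ) hm hk A hA2
    let x : (ZMod (p ^ k))ˣ := Units.map ((PadicInt.toZModPow (p := p) k : ℤ_[p] →+* ZMod (p ^ k)) :
      ℤ_[p] →* ZMod (p ^ k)) y
    have hx : x ^ p ^ (k - m) = 1 := by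
      apply Units.ext
      rw [Units.val_pow_eq_pow_val, Units.val_one]
      show (PadicInt.toZModPow (p := p) k (y : ℤ_[p])) ^ p ^ (k - m) = 1
      rw [← map_pow]
      have h2 := IRA.pow_dvd p (y : ℤ_[p]) m hm hy (k - m)
      rw [Nat.add_sub_cancel' hk] at h2
      have h3 : (y : ℤ_[p]) ^ p ^ (k - m) - 1 ∈ RingHom.ker (PadicInt.toZModPow (p := p) k) := by
        rw [PadicInt.ker_toZModPow, Ideal.mem_span_singleton]
        exact h2
      rw [RingHom.mem_ker, map_sub, map_one] at h3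
      exact sub_eq_zero.1 h3
    obtain ⟨h, hh1, hh2⟩ := hA1 x (h1 hme x hx)
    exact ⟨h, hh1, (hKU L p h y k).1 hh2⟩
  · intro he y
    refine IRA.core hIC hKF L p Q y 1 (fun k hk => ?_)
    obtain ⟨A, hA1, hA2⟩ := hCY L p v hv Q hQ hQv k hk
    obtain ⟨-, h1⟩ := hRB p hp2 k 1 (v.asIdeal.ramificationIdx ℤ) le_rfl hk A hA2
    let x : (ZMod (p ^ k))ˣ := Units.map ((PadicInt.toZModPow (p := p) k : ℤ_[p] →+* ZMod (p ^ k)) :
      ℤ_[p] →* ZMod (p ^ k)) y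
    obtain ⟨h, hh1, hh2⟩ := hA1 x (by rw [h1 he]; exact Subgroup.mem_top x)
    exact ⟨h, hh1, (hKU L p h y k).1 hh2⟩

end Pool.Agent.Work.MP_59f3ad_nt.FE
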