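import Pool.Agent.Work.MP_59f3ad_nt.FE.StmtsF

/-!
Item RB of the block FE: subgroups of the cyclic group of the units modulo `p^k`.
-/

set_option autoImplicit false

namespace Pool.Agent.Work.MP_59f3ad_nt.FE

namespace IRB

/-- In a finite cyclic group the subgroup `A` consists of all solutions of `x ^ |A| = 1`. -/
theorem mem_of_pow {G : Type} [Group G] [Finite G] [IsCyclic G] (A : Subgroup G) (x : G)
    (hx : x ^ Nat.card A = 1) : x ∈ A := by
  classical
  have : Fintype G := Fintype.ofFinite G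
  have hpos : 0 < Nat.card A := Nat.card_pos
  have h1 := IsCyclic.card_pow_eq_one_le (α := G) hpos
  set S : Finset G := Finset.univ.filter (fun a : G => a ^ Nat.card A = 1) with hS
  set T : Finset G := Finset.univ.filter (fun a : G => a ∈ A) with hT
  have hTS : T ⊆ S := by
    intro a ha
    rw [hT, Finset.mem_filter] at ha
    rw [hS, Finset.mem_filter]
    refine ⟨Finset.mem_univ _, ?_⟩
    have h2 : (⟨a, ha.2⟩ : A) ^ Nat.card A = 1 := pow_card_eq_one'
    exact congrArg Subtype.val h2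
  have hTc : T.card = Nat.card A := by
    rw [hT, Nat.card_eq_fintype_card, Fintype.card_subtype]
  have hST : T = S := Finset.eq_of_subset_of_card_le hTS (by rw [hTc]; exact h1)
  have hxS : x ∈ S := by
    rw [hS, Finset.mem_filter]
    exact ⟨Finset.mem_univ _, hx⟩
  rw [← hST, hT, Finset.mem_filter] at hxS
  exact hxS.2

theorem card_units (p k : ℕ) (hp : p.Prime) (hk : 1 ≤ k) :
    Nat.card (ZMod (p ^ k))ˣ = (p - 1) * p ^ (k - 1) := by
  have : NeZero (p ^ k) := ⟨pow_ne_zero _ hp.ne_zero⟩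
  rw [Nat.card_eq_fintype_card, ZMod.card_units_eq_totient, Nat.totient_prime_pow hp (by omega),
    mul_comm]

theorem dvd_card (p k m e a : ℕ) (hp : p.Prime) (h : (p - 1) * p ^ (k - 1) ∣ a * e)
    (he : ¬ p ^ m ∣ e) : p ^ (k - m) ∣ a := by
  have h1 : p ^ (k - 1) ∣ a * e := (Dvd.intro_left _ rfl).trans h
  obtain ⟨d₁, d₂, h2, h3, h4⟩ := exists_dvd_and_dvd_of_dvd_mul h1
  have h5 : d₁ ∣ p ^ (k - 1) := ⟨d₂, h4⟩
  have h6 : d₂ ∣ p ^ (k - 1) := ⟨d₁, by rw [h4, mul_comm]⟩
  obtain ⟨i, _, rfl⟩ := (Nat.dvd_prime_pow hp).mp h5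
  obtain ⟨j, _, rfl⟩ := (Nat.dvd_prime_pow hp).mp h6
  rw [← pow_add] at h4
  have h7 : k - 1 = i + j := Nat.pow_right_injective hp.two_le h4
  have h8 : j < m := by
    by_contra hc
    exact he ((pow_dvd_pow p (by omega)).trans h3)
  exact (pow_dvd_pow p (by omega)).trans h2

end IRB

theorem pr_RB : StRB := by
  intro p hpF hp2 k m e hm hmk A hA
  have hp : p.Prime := hpF.out
  have : NeZero (p ^ k) := ⟨pow_ne_zero _ hp.ne_zero⟩
  have : IsCyclic (ZMod (p ^ k))ˣ := ZMod.isCyclic_units_of_prime_pow p hp hp2 k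
  refine ⟨fun he x hx => ?_, fun he => ?_⟩
  · apply IRB.mem_of_pow A x
    obtain ⟨c, hc⟩ := IRB.dvd_card p k m e (Nat.card A) hp hA he
    rw [hc, pow_mul, hx, one_pow]
  · subst he
    rw [mul_one, ← IRB.card_units p k hp (by omega)] at hA
    have h1 : Nat.card A ∣ Nat.card (ZMod (p ^ k))ˣ := Subgroup.card_subgroup_dvd_card A
    exact Subgroup.eq_top_of_card_eq A (Nat.dvd_antisymm h1 hA)

end Pool.Agent.Work.MP_59f3ad_nt.FE
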