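import Pool.Agent.Work.MP_59f3ad_nt.FE.StmtsG

/-!
Block FE, item TE: places above `p`, all twists not divisible by `p - 1`. The element `D = act h - 1`
is a unit of the ring `ℤ_p^n` and satisfies a polynomial whose constant term is a unit, so `D⁻¹` is
a polynomial in `D` and preserves `Y`.
-/

set_option autoImplicit false

open NumberField IsDedekindDomain Polynomial

namespace Pool.Agent.Work.MP_59f3ad_nt.FE

universe u

namespace ITE

/-- A unit of `ℤ_p` whose residue is a primitive root. -/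
theorem exists_unit (p : ℕ) [Fact p.Prime] : ∃ x : ℤ_[p]ˣ, ∀ r : ℤ, ¬ ((p : ℤ) - 1) ∣ r →
    IsUnit (((x ^ r : ℤ_[p]ˣ) : ℤ_[p]) - 1) := by
  obtain ⟨g, hg⟩ := IsCyclic.exists_generator (α := (ZMod p)ˣ)
  have hunit : ∀ y : ℤ_[p], PadicInt.toZMod y ≠ 0 → IsUnit y := by
    intro y hy
    by_contra h
    have h1 : y ∈ IsLocalRing.maximalIdeal ℤ_[p] := (IsLocalRing.mem_maximalIdeal y).mpr h
    rw [← PadicInt.ker_toZMod, RingHom.mem_ker] at h1
    exact hy h1
  have h0 : PadicInt.toZMod (((g : ZMod p).val : ℕ) : ℤ_[p]) = (g : ZMod p) := by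
    rw [map_natCast, ZMod.natCast_zmod_val]
  obtain ⟨x, hx⟩ := hunit (((g : ZMod p).val : ℕ) : ℤ_[p]) (by rw [h0]; exact g.ne_zero)
  have hord : orderOf g = p - 1 := by
    rw [orderOf_eq_card_of_forall_mem_zpowers hg, Nat.card_eq_fintype_card, ZMod.card_units]
  have hmap : Units.map (PadicInt.toZMod (p := p)).toMonoidHom x = g := by
    apply Units.ext
    show PadicInt.toZMod (x : ℤ_[p]) = (g : ZMod p)
    rw [hx, h0]
  refine ⟨x, fun r hr => hunit _ ?_⟩
  intro h1
  apply hr
  have h2 : PadicInt.toZMod (((x ^ r : ℤ_[p]ˣ) : ℤ_[p])) = 1 := by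
    rw [map_sub, map_one] at h1
    exact sub_eq_zero.mp h1
  have h3 : Units.map (PadicInt.toZMod (p := p)).toMonoidHom (x ^ r) = 1 := by
    apply Units.ext
    exact h2
  rw [map_zpow, hmap] at h3
  have h4 := orderOf_dvd_iff_zpow_eq_one.mpr h3
  rw [hord] at h4
  have h5 : 1 ≤ p := (Fact.out : p.Prime).one_lt.le
  rwa [Nat.cast_sub h5, Nat.cast_one] at h4

/-- Polynomials in `D` preserve a submodule which is preserved by `D`. -/
theorem aeval_mem {R : Type} [CommRing R] {n : ℕ} (Y : Submodule R (Fin n → R)) (D : Fin n → R)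
    (hD : ∀ t ∈ Y, D * t ∈ Y) (g : R[X]) : ∀ t ∈ Y, aeval D g * t ∈ Y := by
  induction g using Polynomial.induction_on' with
  | add a b ha hb =>
    intro t ht
    rw [map_add, add_mul]
    exact Y.add_mem (ha t ht) (hb t ht)
  | monomial k a =>
    intro t ht
    have h1 : ∀ k : ℕ, D ^ k * t ∈ Y := by
      intro k
      induction k with
      | zero => rwa [pow_zero, one_mul]
      | succ k ih =>
        rw [pow_succ', mul_assoc]
        exact hD _ ih
    rw [aeval_monomial, mul_assoc, ← Algebra.smul_def]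
    exact Y.smul_mem a (h1 k)

/-- Division by `D` inside a submodule preserved by `D`, if all coordinates of `D` are units. -/
theorem div_mem {R : Type} [CommRing R] {n : ℕ} (Y : Submodule R (Fin n → R)) (D : Fin n → R)
    (hD : ∀ t ∈ Y, D * t ∈ Y) (hu : ∀ i, IsUnit (D i)) (c : Fin n → R) (hc : D * c ∈ Y) :
    c ∈ Y := by
  set f : R[X] := ∏ i, (X - C (D i)) with hf
  have h1 : aeval D f = 0 := by
    funext i
    have h2 : (aeval D f) i = aeval (D i) f := by
      have := Polynomial.aeval_algHom_apply (Pi.evalAlgHom R (fun _ : Fin n => R) i) D f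
      exact this.symm
    rw [h2, hf, map_prod]
    exact Finset.prod_eq_zero (Finset.mem_univ i) (by simp)
  have h3 : IsUnit (f.coeff 0) := by
    rw [hf, Polynomial.coeff_zero_eq_eval_zero, Polynomial.eval_prod]
    refine (IsUnit.prod_iff (s := Finset.univ)).mpr (fun i _ => ?_)
    simpa using hu i
  obtain ⟨a, ha⟩ := h3
  have h4 : D * aeval D f.divX = -(algebraMap R (Fin n → R) (f.coeff 0)) := by
    have h5 : aeval D (f.divX * X + C (f.coeff 0)) = 0 := by
      rw [Polynomial.divX_mul_X_add, h1]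
    rw [map_add, map_mul, aeval_X, aeval_C] at h5
    rw [mul_comm]
    exact eq_neg_of_add_eq_zero_left h5
  have h6 : (f.coeff 0) • c ∈ Y := by
    have h7 : (f.coeff 0) • c = -(aeval D f.divX * (D * c)) := by
      rw [← mul_assoc, mul_comm (aeval D f.divX) D, h4, neg_mul, neg_neg, ← Algebra.smul_def]
    rw [h7]
    exact Y.neg_mem (aeval_mem Y D hD _ _ hc)
  have h8 : c = ((a⁻¹ : Rˣ) : R) • ((f.coeff 0) • c) := by
    rw [smul_smul, ← ha, Units.inv_mul, one_smul]
  rw [h8]
  exact Y.smul_mem _ h6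

end ITE

theorem pr_TE : StTE.{u} := by
  intro p _ G _ χ n r Φ hr Y hΦ hY I c hI hx
  obtain ⟨x, hu⟩ := ITE.exists_unit p
  obtain ⟨h, hh, hχ⟩ := hx x
  refine ITE.div_mem Y (act χ r h - 1) ?_ ?_ c ?_
  · intro t ht
    rw [sub_mul, one_mul]
    exact Y.sub_mem (hY h t ht) ht
  · intro i
    have h1 := hu (r i) (hr i)
    show IsUnit ((((χ h) ^ (r i) : ℤ_[p]ˣ) : ℤ_[p]) - 1)
    rw [hχ]
    exact h1
  · rw [← hI h hh]
    exact hΦ h

end Pool.Agent.Work.MP_59f3ad_nt.FE
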