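import Mathlib
import Pool.Agent.Work.MP_59f3ad_nt.FE.StmtsG

/-!
Block FE, item TF: the powers of `1 + p^μ` with different integer exponents are different.
-/

set_option autoImplicit false

namespace Pool.Agent.Work.MP_59f3ad_nt.FE

namespace ITF

theorem pow_ne {p : ℕ} [hp : Fact p.Prime] (μ : ℕ) (u : ℤ_[p]ˣ)
    (hu : (u : ℤ_[p]) = 1 + (p : ℤ_[p]) ^ μ) (k : ℕ) (hk : k ≠ 0) : u ^ k ≠ 1 := by
  intro h
  have h1 : ((u ^ k : ℤ_[p]ˣ) : ℤ_[p]) = 1 := by rw [h, Units.val_one]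
  rw [Units.val_pow_eq_pow_val, hu] at h1
  have h2 : (((1 + p ^ μ) ^ k : ℕ) : ℤ_[p]) = ((1 : ℕ) : ℤ_[p]) := by
    push_cast
    exact h1
  have h3 : (1 + p ^ μ) ^ k = 1 := by exact_mod_cast h2
  have h4 : 0 < p ^ μ := pow_pos hp.out.pos μ
  have h5 : 1 < (1 + p ^ μ) ^ k := Nat.one_lt_pow hk (by omega)
  omega

theorem zpow_ne {p : ℕ} [hp : Fact p.Prime] (μ : ℕ) (u : ℤ_[p]ˣ)
    (hu : (u : ℤ_[p]) = 1 + (p : ℤ_[p]) ^ μ) (s : ℤ) (hs : s ≠ 0) : u ^ s ≠ 1 := by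
  intro h
  rcases Int.natAbs_eq s with h1 | h1
  · rw [h1, zpow_natCast] at h
    exact pow_ne μ u hu _ (by omega) h
  · rw [h1, zpow_neg, zpow_natCast, inv_eq_one] at h
    exact pow_ne μ u hu _ (by omega) h

end ITF

theorem pr_TF : StTF := by
  intro p _ _ μ _ u hu ρ ρ' h
  by_contra hne
  refine ITF.zpow_ne μ u hu (ρ - ρ') (sub_ne_zero.2 hne) ?_
  rw [zpow_sub, h, mul_inv_cancel]

end Pool.Agent.Work.MP_59f3ad_nt.FE
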