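import Pool.Agent.Work.MP_59f3ad_nt.FE.StmtsF

set_option autoImplicit false

/-!
Block FE, item TR: transfer of a subgroup of `Gal(Ω/L)` to `Gal(Ω/K)`, `K` an intermediate field.
-/

open NumberField IsDedekindDomain Topology

namespace Pool.Agent.Work.MP_59f3ad_nt.FE

universe u

namespace ITR

variable (L : Type u) [Field L] (K : IntermediateField L (AlgebraicClosure L))

/-- restriction of scalars -/
noncomputable def rs : (AlgebraicClosure L ≃ₐ[K] AlgebraicClosure L) →*
    (AlgebraicClosure L ≃ₐ[L] AlgebraicClosure L) :=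
  AlgEquiv.restrictScalarsHom L

theorem rs_apply (g : AlgebraicClosure L ≃ₐ[K] AlgebraicClosure L) :
    rs L K g = g.restrictScalars L := rfl

theorem rs_mem (g : AlgebraicClosure L ≃ₐ[K] AlgebraicClosure L) :
    rs L K g ∈ K.fixingSubgroup := by
  rw [IntermediateField.mem_fixingSubgroup_iff]
  intro x hx
  exact g.commutes ⟨x, hx⟩

theorem range_rs : (rs L K).range = K.fixingSubgroup := by
  apply le_antisymm
  · rintro _ ⟨g, rfl⟩
    exact rs_mem L K g
  · intro g hg
    refine ⟨IntermediateField.fixingSubgroupEquiv K ⟨g, hg⟩, ?_⟩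
    ext x
    rfl

theorem open_rs (N : Subgroup (AlgebraicClosure L ≃ₐ[L] AlgebraicClosure L))
    (hN : IsOpen (N : Set (AlgebraicClosure L ≃ₐ[L] AlgebraicClosure L))) :
    IsOpen ((N.comap (rs L K) : Subgroup (AlgebraicClosure L ≃ₐ[K] AlgebraicClosure L)) :
      Set (AlgebraicClosure L ≃ₐ[K] AlgebraicClosure L)) := by
  have h1 : (N : Set (AlgebraicClosure L ≃ₐ[L] AlgebraicClosure L)) ∈ 𝓝 1 :=
    hN.mem_nhds N.one_mem
  rw [krullTopology_mem_nhds_one_iff] at h1
  obtain ⟨E, hE, hEN⟩ := h1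
  apply Subgroup.isOpen_of_mem_nhds (g := 1)
  rw [krullTopology_mem_nhds_one_iff]
  let b := Module.finBasis L E
  let S : Set (AlgebraicClosure L) := Set.range fun i => ((b i : E) : AlgebraicClosure L)
  have hSfin : Finite S := Set.finite_range _
  have halg : Algebra.IsAlgebraic K (AlgebraicClosure L) := Algebra.IsAlgebraic.tower_top (K := L) K
  refine ⟨IntermediateField.adjoin K S, IntermediateField.finiteDimensional_adjoin
    (fun x _ => (Algebra.IsAlgebraic.isAlgebraic (R := K) x).isIntegral), ?_⟩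
  intro g hg
  have hg' : g ∈ (IntermediateField.adjoin K S).fixingSubgroup := hg
  rw [IntermediateField.mem_fixingSubgroup_iff] at hg'
  apply hEN
  show rs L K g ∈ E.fixingSubgroup
  rw [IntermediateField.mem_fixingSubgroup_iff]
  intro x hx
  have h2 : ((⟨x, hx⟩ : E) : AlgebraicClosure L) = x := rfl
  rw [← h2, ← b.sum_repr ⟨x, hx⟩]
  push_cast
  rw [map_sum]
  refine Finset.sum_congr rfl fun i _ => ?_
  rw [map_smul]
  congr 1
  exact hg' _ (IntermediateField.subset_adjoin K S ⟨i, rfl⟩)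

end ITR

open ITR

theorem pr_TR : StTR.{u} := by
  intro L _ _ K _ N hNK hN hcomm hI
  have halg : Algebra.IsAlgebraic K (AlgebraicClosure L) := Algebra.IsAlgebraic.tower_top (K := L) K
  refine ⟨⟨inferInstance, halg⟩, N.comap (rs L K), fun g => Iff.rfl, ?_, open_rs L K N hN, ?_,
    ?_, ?_⟩
  · constructor
    intro n hn g
    have h1 := hcomm _ (rs_mem L K g) _ (rs_mem L K n)
    have h2 : rs L K n ∈ N := hn
    have h3 := N.mul_mem h1 h2
    show rs L K (g * n * g⁻¹) ∈ N
    rw [inv_mul_cancel_right] at h3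
    rw [map_mul, map_mul, map_inv]
    exact h3
  · intro g h
    show rs L K (g * h * g⁻¹ * h⁻¹) ∈ N
    rw [map_mul, map_mul, map_mul, map_inv, map_inv]
    exact hcomm _ (rs_mem L K g) _ (rs_mem L K h)
  · intro Q hQ hQ0 h hh
    exact hI Q hQ hQ0 (rs L K h) hh (rs_mem L K h)
  · rw [Subgroup.index_comap, range_rs]

end Pool.Agent.Work.MP_59f3ad_nt.FE
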