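import Mathlib
import Pool.Agent.Work.MP_59f3ad_nt.FE.StmtsG

set_option autoImplicit false

/-!
Item V1 of the block FE.
-/

open NumberField IsDedekindDomain

namespace Pool.Agent.Work.MP_59f3ad_nt.FE

universe u

namespace IV1

theorem one {R : Type*} [CommRing R] (x : R) (j : ℕ) : (x - 1) ^ 2 ∣ x ^ j - 1 - j * (x - 1) := by
  induction j with
  | zero => simp
  | succ j ih =>
    have e : x ^ (j + 1) - 1 - ((j + 1 : ℕ) : R) * (x - 1) =
        x * (x ^ j - 1 - j * (x - 1)) + j * (x - 1) ^ 2 := by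
      push_cast
      ring
    rw [e]
    exact dvd_add (ih.mul_left x) (Dvd.intro_left _ rfl)

theorem two {R : Type*} [CommRing R] (x : R) (n : ℕ) :
    (x - 1) ^ 2 ∣ ∑ j ∈ Finset.range n, x ^ j - n - (x - 1) * ((∑ j ∈ Finset.range n, j : ℕ) : R) := by
  have e : ∑ j ∈ Finset.range n, x ^ j - n - (x - 1) * ((∑ j ∈ Finset.range n, j : ℕ) : R) =
      ∑ j ∈ Finset.range n, (x ^ j - 1 - j * (x - 1)) := by
    rw [Finset.sum_sub_distrib, Finset.sum_sub_distrib, ← Finset.sum_mul, Finset.sum_const,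
      Finset.card_range, nsmul_one]
    push_cast
    ring
  rw [e]
  exact Finset.dvd_sum fun j _ => one x j

end IV1

theorem pr_V1 : StV1 := by
  intro p hp hp2 x hx
  have hodd : p % 2 = 1 := (hp.out.eq_two_or_odd).resolve_left hp2
  obtain ⟨k, hk⟩ : ∃ k, p = 2 * k + 1 := ⟨p / 2, by omega⟩
  have hsum : ∑ j ∈ Finset.range p, j = p * k := by
    rw [Finset.sum_range_id, Nat.div_eq_of_eq_mul_left (by norm_num)]
    rw [show p - 1 = 2 * k by omega]
    ring
  have h1 := IV1.two x p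
  rw [hsum] at h1
  have h2 : (p : ℤ_[p]) ^ 2 ∣ (x - 1) ^ 2 := pow_dvd_pow_of_dvd hx 2
  have h3 : (p : ℤ_[p]) ^ 2 ∣ (x - 1) * ((p * k : ℕ) : ℤ_[p]) := by
    obtain ⟨c, hc⟩ := hx
    rw [hc]
    refine ⟨c * k, ?_⟩
    push_cast
    ring
  have h4 : (p : ℤ_[p]) ^ 2 ∣ ∑ j ∈ Finset.range p, x ^ j - p := by
    have := dvd_add (h2.trans h1) h3
    rwa [sub_add_cancel] at this
  obtain ⟨w, hw⟩ := h4
  have hnu : -((p : ℤ_[p]) * w) ∈ nonunits ℤ_[p] := by
    rw [mem_nonunits_iff]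
    intro hu
    rw [IsUnit.neg_iff] at hu
    exact PadicInt.prime_p.not_unit (isUnit_of_mul_isUnit_left hu)
  have hu := IsLocalRing.isUnit_one_sub_self_of_mem_nonunits _ hnu
  rw [sub_neg_eq_add] at hu
  obtain ⟨v, hv⟩ := hu
  have h5 : ∑ j ∈ Finset.range p, x ^ j = (p : ℤ_[p]) * v := by
    rw [hv]
    linear_combination hw
  rw [h5]
  exact (associated_mul_unit_left (p : ℤ_[p]) v v.isUnit)

end Pool.Agent.Work.MP_59f3ad_nt.FE
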