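import Pool.Agent.Work.MP_59f3ad_nt.FE.StmtsG

/-!
Block FE, item VA: no nonzero linear form vanishes on `Φ(ker χ)`.
-/

set_option autoImplicit false

open NumberField IsDedekindDomain

namespace Pool.Agent.Work.MP_59f3ad_nt.FE

universe u

namespace IVA

variable {p : ℕ} [Fact p.Prime]

lemma exists_unit (m : ℕ) (hm : 1 ≤ m) : ∃ u : ℤ_[p]ˣ, (u : ℤ_[p]) = 1 + (p : ℤ_[p]) ^ m := by
  have h1 : ¬ IsUnit (-(p : ℤ_[p]) ^ m) := by
    rw [IsUnit.neg_iff, isUnit_pow_iff (by omega)]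
    exact PadicInt.prime_p.not_isUnit
  have h2 := (IsLocalRing.isUnit_or_isUnit_one_sub_self (-(p : ℤ_[p]) ^ m)).resolve_left h1
  obtain ⟨u, hu⟩ := h2
  exact ⟨u, by rw [hu]; ring⟩

/-- Separation of the exponents. -/
lemma isolate {n : ℕ} (u : ℤ_[p]ˣ) (hinj : ∀ ρ ρ' : ℤ, u ^ ρ = u ^ ρ' → ρ = ρ') (r : Fin n → ℤ)
    (b : Fin n → ℤ_[p])
    (h : ∀ j : ℕ, ∑ i, b i * ((u ^ r i : ℤ_[p]ˣ) : ℤ_[p]) ^ j = 0) (ρ : ℤ) :
    ∑ i with r i = ρ, b i = 0 := by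
  classical
  have h2 : ∀ P : Polynomial ℤ_[p], ∑ i, b i * P.eval ((u ^ r i : ℤ_[p]ˣ) : ℤ_[p]) = 0 := by
    intro P
    induction P using Polynomial.induction_on' with
    | add P Q hP hQ =>
      simp only [Polynomial.eval_add, mul_add, Finset.sum_add_distrib, hP, hQ, add_zero]
    | monomial j c =>
      simp only [Polynomial.eval_monomial]
      have e : ∀ i, b i * (c * ((u ^ r i : ℤ_[p]ˣ) : ℤ_[p]) ^ j) =
          c * (b i * ((u ^ r i : ℤ_[p]ˣ) : ℤ_[p]) ^ j) := fun i => by ring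
      simp only [e]
      rw [← Finset.mul_sum, h j, mul_zero]
  have h3 := h2 (∏ ρ' ∈ (Finset.univ.image r).erase ρ,
    (Polynomial.X - Polynomial.C ((u ^ ρ' : ℤ_[p]ˣ) : ℤ_[p])))
  have h4 : ∀ i, b i * (∏ ρ' ∈ (Finset.univ.image r).erase ρ,
      (Polynomial.X - Polynomial.C ((u ^ ρ' : ℤ_[p]ˣ) : ℤ_[p]))).eval
        ((u ^ r i : ℤ_[p]ˣ) : ℤ_[p]) =
      if r i = ρ then b i * (∏ ρ' ∈ (Finset.univ.image r).erase ρ,
        (((u ^ ρ : ℤ_[p]ˣ) : ℤ_[p]) - ((u ^ ρ' : ℤ_[p]ˣ) : ℤ_[p]))) else 0 := by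
    intro i
    rw [Polynomial.eval_prod]
    simp only [Polynomial.eval_sub, Polynomial.eval_X, Polynomial.eval_C]
    split_ifs with hi
    · rw [hi]
    · rw [Finset.prod_eq_zero (i := r i), mul_zero]
      · exact Finset.mem_erase.2 ⟨hi, Finset.mem_image_of_mem r (Finset.mem_univ i)⟩
      · exact sub_self _
  rw [Finset.sum_congr rfl (fun i _ => h4 i), ← Finset.sum_filter, ← Finset.sum_mul] at h3
  refine (mul_eq_zero.1 h3).resolve_right ?_
  refine Finset.prod_ne_zero_iff.2 ?_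
  intro ρ' hρ' h5
  rw [sub_eq_zero] at h5
  exact (Finset.mem_erase.1 hρ').1 (hinj _ _ (Units.ext h5)).symm

end IVA

theorem pr_VA (hAC : StAC.{u}) (hTF : StTF) : StVA.{u} := by
  intro p _ hp G _ _ χ n r Φ hC hr Y hY m I0 hI0 hfull a ha
  obtain ⟨u, hu⟩ := IVA.exists_unit (p := p) (max m 1) (le_max_right _ _)
  have hum : (p : ℤ_[p]) ^ m ∣ (u : ℤ_[p]) - 1 := by
    rw [hu, add_sub_cancel_left]
    exact pow_dvd_pow _ (le_max_left _ _)
  obtain ⟨γ, hγI, hγ⟩ := hfull u hum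
  have hinj := hTF p hp (max m 1) (le_max_right _ _) u hu
  have hst := (hAC p G χ n r Φ hC.mul Y hY m).1
  -- the sums over the indices with given exponent vanish on the kernel
  have h3 : ∀ k, χ k = 1 → ∀ ρ, ∑ i with r i = ρ, a i * Φ k i = 0 := by
    intro k hk ρ
    refine IVA.isolate u hinj r (fun i => a i * Φ k i) (fun j => ?_) ρ
    have h := ha _ (hst (γ ^ j) (Φ k) ((hY _).2 ⟨k, hk, rfl⟩))
    rw [← h]
    refine Finset.sum_congr rfl fun i _ => ?_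
    have e : act χ r (γ ^ j) i = ((u ^ r i : ℤ_[p]ˣ) : ℤ_[p]) ^ j := by
      unfold act
      rw [map_pow, hγ, ← Units.val_pow_eq_pow_val]
      congr 1
      rw [← zpow_natCast, ← zpow_mul, ← zpow_natCast, ← zpow_mul, mul_comm]
    rw [Pi.mul_apply, e]
    ring
  refine hC.ind a fun ρ => ⟨0, fun g => ?_⟩
  rw [mul_zero]
  by_cases hρ : ρ = 0
  · subst hρ
    apply Finset.sum_eq_zero
    intro i hi
    exact absurd (Finset.mem_filter.1 hi).2 (hr i)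
  -- the cocycle relation for the partial sum
  have hψ : ∀ g h, ∑ i with r i = ρ, a i * Φ (g * h) i = ∑ i with r i = ρ, a i * Φ g i +
      (((χ g) ^ ρ : ℤ_[p]ˣ) : ℤ_[p]) * ∑ i with r i = ρ, a i * Φ h i := by
    intro g h
    rw [Finset.mul_sum, ← Finset.sum_add_distrib]
    refine Finset.sum_congr rfl fun i hi => ?_
    have hi' : r i = ρ := (Finset.mem_filter.1 hi).2
    rw [hC.mul g h, Pi.add_apply, Pi.mul_apply]
    unfold act
    rw [hi']
    ring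
  have hψ0 : ∀ h ∈ I0, ∑ i with r i = ρ, a i * Φ h i = 0 := by
    intro h hh
    apply Finset.sum_eq_zero
    intro i _
    rw [hI0 h hh, Pi.zero_apply, mul_zero]
  have hψl : ∀ g, (p : ℤ_[p]) ^ m ∣ (χ g : ℤ_[p]) - 1 → ∑ i with r i = ρ, a i * Φ g i = 0 := by
    intro g hg
    obtain ⟨h, hh, hχ⟩ := hfull (χ g) hg
    have hk : χ (h⁻¹ * g) = 1 := by
      rw [map_mul, map_inv, hχ, inv_mul_cancel]
    have h5 := hψ h (h⁻¹ * g)
    rw [mul_inv_cancel_left, hψ0 h hh, h3 _ hk ρ, mul_zero, add_zero] at h5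
    exact h5
  have hγm : (p : ℤ_[p]) ^ m ∣ (χ γ : ℤ_[p]) - 1 := by
    rw [hγ]
    exact hum
  have hcon : χ (g * γ * g⁻¹) = χ γ := by
    rw [map_mul, map_mul, map_inv, mul_comm (χ g), mul_inv_cancel_right]
  have h6 := hψ g γ
  have h7 := hψ (g * γ * g⁻¹) g
  rw [inv_mul_cancel_right, hcon, hψl (g * γ * g⁻¹) (by rw [hcon]; exact hγm), zero_add] at h7
  rw [hψl γ hγm, mul_zero, add_zero, h7, hγ] at h6
  have h8 : (((u ^ ρ : ℤ_[p]ˣ) : ℤ_[p]) - 1) * ∑ i with r i = ρ, a i * Φ g i = 0 := by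
    rw [sub_mul, h6, one_mul, sub_self]
  refine (mul_eq_zero.1 h8).resolve_left fun h9 => hρ ?_
  apply hinj
  rw [zpow_zero]
  exact Units.ext (by rw [Units.val_one]; exact sub_eq_zero.1 h9)

end Pool.Agent.Work.MP_59f3ad_nt.FE
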