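import Mathlib
import Pool.Agent.Work.MP_59f3ad_nt.FE.StmtsG

/-!
Block FE, item YS: the image of the kernel of `χ` is a `ℤ_p`-submodule.
-/

set_option autoImplicit false

open NumberField IsDedekindDomain

namespace Pool.Agent.Work.MP_59f3ad_nt.FE

universe u

theorem pr_YS : StYS.{u} := by
  intro p _ G _ _ _ _ χ hχ n r Φ hΦ hmul
  set A : Set (Fin n → ℤ_[p]) := Φ '' {k | χ k = 1} with hA
  have hclK : IsClosed {k : G | χ k = 1} := isClosed_eq hχ continuous_const
  have hclA : IsClosed A := (hclK.isCompact.image hΦ).isClosed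
  have h1 : Φ 1 = 0 := by
    have h := hmul 1 1
    rw [mul_one, act_one, one_mul] at h
    exact left_eq_add.1 h
  have hadd : ∀ s ∈ A, ∀ t ∈ A, s + t ∈ A := by
    rintro _ ⟨k, hk, rfl⟩ _ ⟨l, hl, rfl⟩
    refine ⟨k * l, ?_, ?_⟩
    · show χ (k * l) = 1
      rw [map_mul, show χ k = 1 from hk, show χ l = 1 from hl, mul_one]
    · rw [hmul, act_eq_one χ r hk, one_mul]
  have hzero : (0 : Fin n → ℤ_[p]) ∈ A := ⟨1, map_one χ, h1⟩
  have hnat : ∀ t ∈ A, ∀ m : ℕ, (m : ℤ_[p]) • t ∈ A := by
    intro t ht m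
    induction m with
    | zero => rw [Nat.cast_zero, zero_smul]; exact hzero
    | succ m ih => rw [Nat.cast_succ, add_smul, one_smul]; exact hadd _ ih _ ht
  have hsmul : ∀ t ∈ A, ∀ c : ℤ_[p], c • t ∈ A := by
    intro t ht c
    have hcl : IsClosed {c : ℤ_[p] | c • t ∈ A} :=
      hclA.preimage (continuous_id.smul continuous_const)
    have := (PadicInt.denseRange_natCast (p := p)).induction_on (p := fun c => c • t ∈ A) c hcl
      (fun m => hnat t ht m)
    exact this
  refine ⟨{ carrier := A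
            zero_mem' := hzero
            add_mem' := fun {s t} hs ht => hadd s hs t ht
            smul_mem' := fun c t ht => hsmul t ht c }, fun t => ?_⟩
  show t ∈ A ↔ _
  rw [hA]
  exact Iff.rfl

end Pool.Agent.Work.MP_59f3ad_nt.FE
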