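import Mathlib
import Pool.Agent.Work.MP_59f3ad_nt.FE.StmtsE
import Pool.Agent.Work.MP_59f3ad_nt.FE.I_YS
import Pool.Agent.Work.MP_59f3ad_nt.FE.I_AC
import Pool.Agent.Work.MP_59f3ad_nt.FE.I_IM
import Pool.Agent.Work.MP_59f3ad_nt.FE.I_TF
import Pool.Agent.Work.MP_59f3ad_nt.FE.I_VA
import Pool.Agent.Work.MP_59f3ad_nt.FE.I_FI
import Pool.Agent.Work.MP_59f3ad_nt.FE.I_IX
import Pool.Agent.Work.MP_59f3ad_nt.FE.I_V1
import Pool.Agent.Work.MP_59f3ad_nt.FE.I_V2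
import Pool.Agent.Work.MP_59f3ad_nt.FE.I_CL
import Pool.Agent.Work.MP_59f3ad_nt.FE.I_NO
import Pool.Agent.Work.MP_59f3ad_nt.FE.I_CO
import Pool.Agent.Work.MP_59f3ad_nt.FE.I_TE
import Pool.Agent.Work.MP_59f3ad_nt.FE.I_G1
import Pool.Agent.Work.MP_59f3ad_nt.FE.I_G2
import Pool.Agent.Work.MP_59f3ad_nt.FE.I_IC
import Pool.Agent.Work.MP_59f3ad_nt.FE.I_LI
import Pool.Agent.Work.MP_59f3ad_nt.FE.I_DN
import Pool.Agent.Work.MP_59f3ad_nt.FE.I_DQ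
import Pool.Agent.Work.MP_59f3ad_nt.FE.I_DV
import Pool.Agent.Work.MP_59f3ad_nt.FE.I_DK
import Pool.Agent.Work.MP_59f3ad_nt.FE.I_DX
import Pool.Agent.Work.MP_59f3ad_nt.FE.I_DT
import Pool.Agent.Work.MP_59f3ad_nt.FE.I_DE
import Pool.Agent.Work.MP_59f3ad_nt.FE.I_LO
import Pool.Agent.Work.MP_59f3ad_nt.FE.I_MU
import Pool.Agent.Work.MP_59f3ad_nt.FE.I_KU
import Pool.Agent.Work.MP_59f3ad_nt.FE.I_KF
import Pool.Agent.Work.MP_59f3ad_nt.FE.I_CY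
import Pool.Agent.Work.MP_59f3ad_nt.FE.I_RB
import Pool.Agent.Work.MP_59f3ad_nt.FE.I_RA
import Pool.Agent.Work.MP_59f3ad_nt.FE.I_CC
import Pool.Agent.Work.MP_59f3ad_nt.FE.I_LC
import Pool.Agent.Work.MP_59f3ad_nt.FE.I_UX
import Pool.Agent.Work.MP_59f3ad_nt.FE.I_TR
import Pool.Agent.Work.MP_59f3ad_nt.FE.I_CN
import Pool.Agent.Work.MP_59f3ad_nt.FE.I_EX
import Pool.Agent.Work.MP_59f3ad_nt.FE.I_E1
import Pool.Agent.Work.MP_59f3ad_nt.FE.I_E2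
import Pool.Agent.Work.MP_59f3ad_nt.FE.I_EB

/-!
Block FE: all items together.
-/

set_option autoImplicit false

namespace Pool.Agent.Work.MP_59f3ad_nt.FE

universe u

theorem all_VA : StVA.{u} := pr_VA pr_AC pr_TF

theorem all_IM : StIM.{u} := pr_IM pr_AC

theorem all_G1 : StG1.{u} :=
  pr_G1 pr_YS pr_AC all_IM all_VA pr_FI pr_IX pr_V1 pr_V2 pr_CL pr_NO pr_CO

theorem all_G2 : StG2.{u} :=
  pr_G2 pr_YS pr_AC all_IM all_VA pr_FI pr_IX pr_V2 pr_CL pr_NO pr_CO pr_TE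

theorem all_KF : StKF.{u} := pr_KF pr_KU

theorem all_DK : StDK.{u} := pr_DK pr_DV

theorem all_DT : StDT.{u} := pr_DT pr_DQ

theorem all_DE : StDE.{u} := pr_DE pr_DN all_DT all_DK pr_DX

theorem all_LO : StLO.{u} := pr_LO all_DE

theorem all_CY : StCY.{u} := pr_CY pr_LI all_KF

theorem all_RA : StRA.{u} := pr_RA pr_IC pr_KU all_KF all_CY pr_RB

theorem all_LC : StLC.{u} := pr_LC all_LO pr_MU all_RA

theorem all_UX : StUX.{u} := pr_UX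

theorem all_EX : StEX.{u} := pr_EX all_KF pr_TR all_UX

theorem all_CN : StCN.{u} := pr_CN all_KF

/-- The general bound, from the library UCF. -/
theorem all_E1 (hUCF : UCF.StUCF.{u}) : StE1.{u} :=
  pr_E1 all_KF pr_CC all_LC all_G1 all_EX all_CN hUCF

/-- The weighted bound, from the library UCF. -/
theorem all_E2 (hUCF : UCF.StUCF.{u}) : StE2.{u} :=
  pr_E2 all_KF pr_CC all_LC all_G2 all_EX all_CN hUCF

/-- The extension for the half theorem. -/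
theorem all_EB : StEB.{u} :=
  pr_EB pr_KU all_KF pr_CC all_LC all_G2 all_EX

end Pool.Agent.Work.MP_59f3ad_nt.FE
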