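import Pool.Agent.Work.MP_59f3ad_nt.FE.Stmts2

/-!
Block FE, item E4 (helper13): the weighted bound for the twists divisible by `k = (p-1)/n`.
-/

set_option autoImplicit false

open NumberField IsDedekindDomain

namespace Pool.Agent.Work.MP_59f3ad_nt.FE

universe u

theorem pr_E4 (hKF : StKF.{u}) (hCC : StCC.{u}) (hLC : StLC.{u}) (hG3 : StG3.{u})
    (hFX2 : StFX2.{u}) (hEX2 : StEX2.{u}) (hUCF : UCF.StUCF.{u}) : StE4.{u} := by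
  intro L _ _ p _ hp2 hUr k n hkn
  have hp : p.Prime := Fact.out
  have hsurj : ∀ y : ℤ_[p]ˣ, ∃ h : GK L, cyc L p h = y := by
    obtain ⟨-, Q, -, -, hQ⟩ := hLC L p hp2 0 Fin.elim0 Fin.elim0 Fin.elim0 (fun i => i.elim0) 0
      (Or.inr ⟨rfl, hUr⟩)
    intro y
    obtain ⟨h, -, hh⟩ := hQ y (by rw [pow_zero]; exact one_dvd _)
    exact ⟨h, hh⟩
  obtain ⟨K₁, hfin, hle, hdeg, hLev, hGal⟩ := hFX2 L p hp2 hsurj k n hkn
  have hnK : NumberField K₁ := NumberField.of_module_finite L K₁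
  refine ⟨K₁, hnK, hle, hdeg, fun m r hr S φ hφ hind => ?_⟩
  have hcoc := hCC L p m r φ (fun i => (hφ i).1.1) hind
  obtain ⟨hloc, Q0, hQ0, hQ0b, hQ0v⟩ := hLC L p hp2 m r S φ hφ 0 (Or.inr ⟨rfl, hUr⟩)
  have hcont : Continuous (cyc L p) := (hKF L p).1
  obtain ⟨N, hN1, -, hN3, hN4, hN5, hN6, -⟩ := hG3 p hp2 (GK L) (cyc L p) hcont k
    ⟨n, hkn.symm⟩ m r (fun g i => φ i g) hr hcoc
    {I | ∃ Q : Ideal (𝓞 (AlgebraicClosure L)), Q.IsPrime ∧ Q ≠ ⊥ ∧ I = {h : GK L | Inr Q h}}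
    (by
      rintro I ⟨Q, hQ, hQb, rfl⟩
      exact hloc Q hQ hQb)
    ⟨_, ⟨Q0, hQ0, hQ0b, rfl⟩, fun x => hQ0v x (by rw [pow_zero]; exact one_dvd _)⟩
  rw [← hLev] at hN1 hN4 hN6
  obtain ⟨M, -, hNF1, hNF2, hGal', hfin', hab, hunr⟩ := hEX2 L K₁ N hN1 hN3 hN4
    (fun Q hQ hQb h hh hl => by
      rw [hLev] at hl
      exact hN5 _ ⟨Q, hQ, hQb, rfl⟩ h hh hl)
  have hodd : Odd (Module.finrank K₁ M) := by
    rw [hfin', hN6]
    exact (hp.odd_of_ne_two hp2).pow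
  have h1 := hUCF K₁ M hab hodd hunr
  rw [← hN6, ← hfin']
  exact h1.2

end Pool.Agent.Work.MP_59f3ad_nt.FE
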