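import Pool.Agent.Work.MP_59f3ad_nt.FE.Stmts2

/-!
Block FE, item EB4: the extension for the half theorem, twists divisible by `(p-1)/n`.
-/

set_option autoImplicit false

open NumberField IsDedekindDomain

namespace Pool.Agent.Work.MP_59f3ad_nt.FE

universe u

namespace IEB4

/-- `p - 1` does not divide an odd number. -/
theorem ndvd {p : ℕ} [hp : Fact p.Prime] (hp2 : p ≠ 2) {r : ℤ} (hr : Odd r) : ¬ ((p : ℤ) - 1) ∣ r := by
  intro h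
  have h1 : Odd p := hp.out.odd_of_ne_two hp2
  obtain ⟨k, hk⟩ := h1
  have h2 : (2 : ℤ) ∣ (p : ℤ) - 1 := ⟨k, by rw [hk]; push_cast; ring⟩
  have h3 : (2 : ℤ) ∣ r := h2.trans h
  obtain ⟨a, ha⟩ := hr
  omega

/-- `act τ = -1` if `χ τ = -1` and all `r_i` are odd. -/
theorem act_neg {p : ℕ} [Fact p.Prime] {G : Type u} [Group G] {n : ℕ} (χ : G →* ℤ_[p]ˣ)
    (r : Fin n → ℤ) (hr : ∀ i, Odd (r i)) (τ : G) (h : χ τ = -1) : act χ r τ = -1 := by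
  funext i
  simp [act, h, (hr i).neg_one_zpow]

/-- the group computation -/
theorem grp {G : Type u} [Group G] (N H : Subgroup G) [N.Normal] (c s t : G)
    (hs : s ∈ H) (hl : t⁻¹ * c ∈ H)
    (hcomm : ∀ g ∈ H, ∀ h ∈ H, g * h * g⁻¹ * h⁻¹ ∈ N)
    (ht : ∀ g ∈ H, t * g * t⁻¹ * g ∈ N) : c * s * c⁻¹ * s ∈ N := by
  have h1 := hcomm _ hl _ hs
  have h2 : t * ((t⁻¹ * c) * s * (t⁻¹ * c)⁻¹ * s⁻¹) * t⁻¹ ∈ N := ‹N.Normal›.conj_mem _ h1 t
  have h3 := N.mul_mem h2 (ht s hs)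
  have e : t * ((t⁻¹ * c) * s * (t⁻¹ * c)⁻¹ * s⁻¹) * t⁻¹ * (t * s * t⁻¹ * s) = c * s * c⁻¹ * s := by
    group
  rwa [e] at h3

/-- `c ∉ Lev ψ 1`, `c² ∈ Lev ψ 1`, `ψ τ = -1`: then `τ⁻¹ c ∈ Lev ψ 1`. -/
theorem lev {p : ℕ} [hp : Fact p.Prime] {G : Type u} [Group G] (ψ : G →* ℤ_[p]ˣ) (c t : G)
    (h1 : c ∉ Lev ψ 1) (h2 : c * c ∈ Lev ψ 1) (ht : ψ t = -1) : t⁻¹ * c ∈ Lev ψ 1 := by
  have h3 : (p : ℤ_[p]) ^ 1 ∣ ((ψ (c * c) : ℤ_[p]ˣ) : ℤ_[p]) - 1 := h2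
  have h4 : ¬ (p : ℤ_[p]) ^ 1 ∣ ((ψ c : ℤ_[p]ˣ) : ℤ_[p]) - 1 := h1
  have e1 : ((ψ (c * c) : ℤ_[p]ˣ) : ℤ_[p]) - 1 =
      (((ψ c : ℤ_[p]ˣ) : ℤ_[p]) - 1) * (((ψ c : ℤ_[p]ˣ) : ℤ_[p]) + 1) := by
    rw [map_mul, Units.val_mul]
    ring
  rw [e1, pow_one] at h3
  rw [pow_one] at h4
  have h5 : (p : ℤ_[p]) ∣ ((ψ c : ℤ_[p]ˣ) : ℤ_[p]) + 1 :=
    (PadicInt.prime_p.dvd_or_dvd h3).resolve_left h4
  show (p : ℤ_[p]) ^ 1 ∣ ((ψ (t⁻¹ * c) : ℤ_[p]ˣ) : ℤ_[p]) - 1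
  have h6 : (-1 : ℤ_[p]ˣ)⁻¹ = -1 := inv_eq_of_mul_eq_one_left (by simp)
  have e2 : ((ψ (t⁻¹ * c) : ℤ_[p]ˣ) : ℤ_[p]) - 1 = -(((ψ c : ℤ_[p]ˣ) : ℤ_[p]) + 1) := by
    rw [map_mul, map_inv, ht, h6]
    push_cast
    ring
  rw [e2, pow_one]
  exact (dvd_neg).2 h5

end IEB4

open IEB4 in
theorem pr_EB4 (hKF : StKF.{u}) (hCC : StCC.{u}) (hLC : StLC.{u}) (hG3 : StG3.{u})
    (hFX2 : StFX2.{u}) (hEX2 : StEX2.{u}) : StEB4.{u} := by
  intro L _ _ p _ hp2 hUr k n hkn hk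
  obtain ⟨-, Q1, -, -, hQ1v⟩ := hLC L p hp2 0 (fun i => i.elim0) (fun i => i.elim0)
    (fun i => i.elim0) (fun i => i.elim0) 0 (Or.inr ⟨rfl, hUr⟩)
  have hsur : ∀ y : ℤ_[p]ˣ, ∃ h : GK L, cyc L p h = y := by
    intro y
    obtain ⟨h, -, hh⟩ := hQ1v y (by simp)
    exact ⟨h, hh⟩
  obtain ⟨K₁, hfd, hle, hfr, hfix1, hgal1⟩ := hFX2 L p hp2 hsur k n hkn
  have hNF : NumberField K₁ := NumberField.of_module_finite L K₁
  refine ⟨K₁, hNF, hle, hfr, hgal1, ?_⟩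
  intro m r hr S φ hφ hInd
  have hcoc := hCC L p m r φ (fun i => (hφ i).1.1) hInd
  obtain ⟨hL1, Q0, hQ1, hQ2, hQ3⟩ := hLC L p hp2 m r S φ hφ 0 (Or.inr ⟨rfl, hUr⟩)
  obtain ⟨hcont, -⟩ := hKF L p
  have hval : ∀ x : ℤ_[p]ˣ, ∃ h ∈ {h : GK L | Inr Q0 h}, cyc L p h = x :=
    fun x => hQ3 x (by simp)
  obtain ⟨N, hN1, hN2, hN3, hN4, hN5, hN6, hN7⟩ := hG3 p hp2 (GK L) (cyc L p) hcont k
    ⟨n, hkn.symm⟩ m r (fun g i => φ i g) (fun i => ⟨(hr i).1, ndvd hp2 (hr i).2⟩) hcoc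
    {I | ∃ Q : Ideal (𝓞 (AlgebraicClosure L)), Q.IsPrime ∧ Q ≠ ⊥ ∧ I = {h : GK L | Inr Q h}}
    (by rintro I ⟨Q, h1, h2, rfl⟩; exact hL1 Q h1 h2)
    ⟨_, ⟨Q0, hQ1, hQ2, rfl⟩, hval⟩
  rw [← hfix1] at hN1 hN4 hN6
  obtain ⟨M, hM1, hM2, hM3, hM4, hM5, hM6, hM7⟩ := hEX2 L K₁ N hN1 hN3 hN4
    (fun Q h1 h2 h h3 h4 => hN5 _ ⟨Q, h1, h2, rfl⟩ h h3 (by rw [← hfix1]; exact h4))
  have hgal : IsGalois L M := by
    have hfix : (M.restrictScalars L).fixingSubgroup = N := by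
      ext g
      rw [IntermediateField.mem_fixingSubgroup_iff, hM1]
      constructor
      · intro h y
        exact h _ y.2
      · intro h x hx
        exact h ⟨x, hx⟩
    have hn : (M.restrictScalars L).fixingSubgroup.Normal := by rw [hfix]; exact hN2
    exact (InfiniteGalois.normal_iff_isGalois (M.restrictScalars L)).1 hn
  refine ⟨M, hM3, hgal, hM4, hM6, ?_, hM7, ?_⟩
  · rw [hM5, hN6]
  · intro c σ hc1 hc2 y
    have htow : IsScalarTower L M (AlgebraicClosure L) := IsScalarTower.of_algebraMap_eq fun x => rfl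
    have hc' : ∀ z : M, (c.liftNormal (AlgebraicClosure L)) (z : AlgebraicClosure L) =
        (c z : AlgebraicClosure L) := fun z => AlgEquiv.liftNormal_commutes c (AlgebraicClosure L) z
    have hs' : ∀ z : M, ((σ.restrictScalars L).liftNormal (AlgebraicClosure L))
        (z : AlgebraicClosure L) = (σ z : AlgebraicClosure L) :=
      fun z => AlgEquiv.liftNormal_commutes (σ.restrictScalars L) (AlgebraicClosure L) z
    generalize c.liftNormal (AlgebraicClosure L) = c' at hc'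
    generalize (σ.restrictScalars L).liftNormal (AlgebraicClosure L) = s' at hs'
    have h1 : s' ∈ K₁.fixingSubgroup := by
      rw [IntermediateField.mem_fixingSubgroup_iff]
      intro x hx
      have h2 := hs' (algebraMap K₁ M ⟨x, hx⟩)
      rw [σ.commutes] at h2
      exact h2
    have h2 : c' ∉ K₁.fixingSubgroup := by
      intro h
      rw [IntermediateField.mem_fixingSubgroup_iff] at h
      obtain ⟨x, hx⟩ := hc2
      apply hx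
      have h3 := hc' (algebraMap K₁ M x)
      have h4 : c' ((algebraMap K₁ M x : M) : AlgebraicClosure L) =
          ((algebraMap K₁ M x : M) : AlgebraicClosure L) := h x x.2
      rw [h4] at h3
      exact (Subtype.ext h3).symm
    have h3 : c' * c' ∈ K₁.fixingSubgroup := by
      rw [IntermediateField.mem_fixingSubgroup_iff]
      intro x hx
      have h4 := hc' (algebraMap K₁ M ⟨x, hx⟩)
      have h5 := hc' (c (algebraMap K₁ M ⟨x, hx⟩))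
      rw [hc1, ← h4] at h5
      exact h5
    obtain ⟨τ, -, hτ⟩ := hval (-1)
    have hψτ : ((cyc L p) ^ k) τ = -1 := by
      rw [MonoidHom.pow_apply, hτ, hk.neg_one_pow]
    rw [hfix1] at h1 h2 h3 hN4
    have h4 := lev ((cyc L p) ^ k) c' τ h2 h3 hψτ
    have h6 : c' * s' * c'⁻¹ * s' ∈ N :=
      grp N (Lev ((cyc L p) ^ k) 1) c' s' τ h1 h4 hN4
        (hN7 τ (act_neg (cyc L p) r (fun i => (hr i).2) τ hτ))
    have h7 := (hM1 _).1 h6 (σ⁻¹ y)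
    have h8 : s' ((σ⁻¹ y : M) : AlgebraicClosure L) = (y : AlgebraicClosure L) := by
      rw [hs']
      congr 1
      exact σ.apply_symm_apply y
    have h9 : c'⁻¹ (y : AlgebraicClosure L) = ((c⁻¹ y : M) : AlgebraicClosure L) := by
      have h10 := hc' (c⁻¹ y)
      have h11 : c (c⁻¹ y) = y := c.apply_symm_apply y
      rw [h11] at h10
      rw [← h10]
      exact c'.symm_apply_apply _
    have h12 : (c' * s' * c'⁻¹ * s') ((σ⁻¹ y : M) : AlgebraicClosure L) =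
        ((c (σ (c⁻¹ y)) : M) : AlgebraicClosure L) := by
      show c' (s' (c'⁻¹ (s' ((σ⁻¹ y : M) : AlgebraicClosure L)))) = _
      rw [h8, h9, hs', hc']
    rw [h12] at h7
    exact Subtype.ext h7

end Pool.Agent.Work.MP_59f3ad_nt.FE
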