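import Pool.Agent.Work.MP_59f3ad_nt.FE.StmtsE

/-!
Block FE, second part (captain helper6): the twists `r` divisible by `(p-1)/n`. The field `L(μ_p)` is
replaced by its subfield `K₁` of degree `n` over `L`, which belongs to the character `χ^k`,
`k = (p-1)/n`, modulo `p`. Every docstring is the complete proof; models: the landed files
`FE/I_G2.lean`, `FE/I_EX.lean`, `FE/I_E2.lean`, `FE/I_EB.lean`, `US/T/I_FX.lean`.
-/

set_option autoImplicit false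

open NumberField IsDedekindDomain

namespace Pool.Agent.Work.MP_59f3ad_nt.FE

universe u

/-- G3 (EASY-MEDIUM), group side. Copy `FE/I_G2.lean` with `H = Lev (χ^k) 1` in place of `Lev χ 1`
everywhere after the choice of `W`. Let `ψ = χ^k`, `r i = k s i`: `act χ r = act ψ s`. `γ ∈ I0` with
`χ γ = u = 1 + p` as there, `W = mulS (act χ r γ - 1) Y`. The only new point is
`(act g - 1) t ∈ W` for `g ∈ Lev ψ 1`, `t ∈ Y`: this is CL for `ψ`, `s`, `μ = 1` and the same `γ`, as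
`ψ γ = (1+p)^k` and `(1+p)^k - 1` is `p` times a unit (V2 with `μ = 1` and `r = k`: `p ∤ k` because
`0 < k ≤ p - 1`, so `padicValInt p k = 0`). `Lev ψ 1` is open (`ψ` is continuous), contains `ker χ`,
`lev_conj ψ 1`. USES YS AC IM VA FI IX V2 CL NO CO TE (all landed, see `FE/All.lean`). -/
def StG3 : Prop := ∀ (p : ℕ) [Fact p.Prime], p ≠ 2 → ∀ (G : Type u) [Group G]
  [TopologicalSpace G] [IsTopologicalGroup G] [CompactSpace G] (χ : G →* ℤ_[p]ˣ), Continuous χ →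
  ∀ k : ℕ, k ∣ p - 1 → ∀ (n : ℕ) (r : Fin n → ℤ) (Φ : G → Fin n → ℤ_[p]),
  (∀ i, (k : ℤ) ∣ r i ∧ ¬ ((p : ℤ) - 1) ∣ r i) → Coc χ r Φ →
  ∀ J : Set (Set G), (∀ I ∈ J, Loc χ r Φ 0 I) → (∃ I ∈ J, ∀ x : ℤ_[p]ˣ, ∃ h ∈ I, χ h = x) →
  ∃ N : Subgroup G, N ≤ Lev (χ ^ k) 1 ∧ N.Normal ∧ IsOpen (N : Set G) ∧
    (∀ g ∈ Lev (χ ^ k) 1, ∀ h ∈ Lev (χ ^ k) 1, g * h * g⁻¹ * h⁻¹ ∈ N) ∧
    (∀ I ∈ J, ∀ h ∈ I, h ∈ Lev (χ ^ k) 1 → h ∈ N) ∧
    N.relIndex (Lev (χ ^ k) 1) = p ^ (∑ i, (1 + padicValInt p (r i))) ∧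
    ∀ τ : G, act χ r τ = -1 → ∀ g ∈ Lev (χ ^ k) 1, τ * g * τ⁻¹ * g ∈ N

/-- FX2 (EASY-MEDIUM), the field `K₁`. Copy `US/T/I_FX.lean` with `1` for the level `2` and `k` for the
exponent `p - 1`: `H = Lev (χ^k) 1 ≥ Lev χ 1 = (mu L p 1).fixingSubgroup` is open and closed,
`K₁ = fixedField H`. `H` is the kernel of `g ↦ (χ g mod p)^k`, whose image is the group of `k`-th
powers of the cyclic group `(ℤ/p)ˣ` of order `p - 1 = k n`, of order `(p-1)/gcd(p-1, k) = n`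
(`IsCyclic.card_powMonoidHom_range`). Galois: `H` is normal (`InfiniteGalois.normal_iff_isGalois`). -/
def StFX2 : Prop := ∀ (L : Type u) [Field L] [NumberField L] (p : ℕ) [Fact p.Prime], p ≠ 2 →
  (∀ y : ℤ_[p]ˣ, ∃ h : GK L, cyc L p h = y) → ∀ k n : ℕ, k * n = p - 1 →
  ∃ K₁ : IntermediateField L (AlgebraicClosure L), FiniteDimensional L K₁ ∧ K₁ ≤ mu L p 1 ∧
    Module.finrank L K₁ = n ∧ K₁.fixingSubgroup = Lev ((cyc L p) ^ k) 1 ∧ IsGalois L K₁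

/-- EX2 (EASY). Copy `FE/I_EX.lean` with `K` in place of `mu L p k` (`TR`, `UX` are general). -/
def StEX2 : Prop := ∀ (L : Type u) [Field L] [NumberField L]
  (K : IntermediateField L (AlgebraicClosure L)) [FiniteDimensional L K]
  (N : Subgroup (GK L)), N ≤ K.fixingSubgroup → IsOpen (N : Set (GK L)) →
  (∀ g ∈ K.fixingSubgroup, ∀ h ∈ K.fixingSubgroup, g * h * g⁻¹ * h⁻¹ ∈ N) →
  (∀ Q : Ideal (𝓞 (AlgebraicClosure L)), Q.IsPrime → Q ≠ ⊥ → ∀ h : GK L, Inr Q h →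
    h ∈ K.fixingSubgroup → h ∈ N) →
  ∃ M : IntermediateField K (AlgebraicClosure L),
    (∀ g : GK L, g ∈ N ↔ ∀ y : M, g (y : AlgebraicClosure L) = (y : AlgebraicClosure L)) ∧
    NumberField K ∧ NumberField M ∧ IsGalois K M ∧
    Module.finrank K M = N.relIndex K.fixingSubgroup ∧
    (∀ σ τ : Gal(M/K), σ * τ = τ * σ) ∧
    ∀ P : Ideal (𝓞 M), P.IsPrime → P ≠ ⊥ → P.ramificationIdx (𝓞 K) = 1

/-- E4 (EASY-MEDIUM), the weighted bound for the twists divisible by `k = (p-1)/n`. Models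
`FE/I_E2.lean`, `US/T/I_E3.lean`. `cyc` is onto by the last part of LC (`m = 0`, empty family).
`K₁` from FX2. Then CC, LC, G3 (`J` the set of the `{h | Inr Q h}`), EX2 for `K₁`, and UCF.
USES KF CC LC G3 FX2 EX2 UCF. -/
def StE4 : Prop := ∀ (L : Type u) [Field L] [NumberField L] (p : ℕ) [Fact p.Prime], p ≠ 2 →
  Ur L p → ∀ k n : ℕ, k * n = p - 1 →
  ∃ (K₁ : IntermediateField L (AlgebraicClosure L)) (_ : NumberField K₁), K₁ ≤ mu L p 1 ∧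
    Module.finrank L K₁ = n ∧ ∀ (m : ℕ) (r : Fin m → ℤ),
    (∀ i, (k : ℤ) ∣ r i ∧ ¬ ((p : ℤ) - 1) ∣ r i) →
    ∀ (S : Fin m → Set (HeightOneSpectrum (𝓞 L))) (φ : Fin m → GK L → ℤ_[p]),
    (∀ i, φ i ∈ ShaZ L p (r i) (S i)) → Indep L p r φ →
    p ^ (∑ i, (1 + padicValInt p (r i))) ∣ classNumber K₁

/-- EB4 (MEDIUM), the extension for the half theorem, twists `r` odd and divisible by the odd number
`k = (p-1)/n`. Copy `FE/I_EB.lean`. `K₁` from FX2, `χ = cyc L p`, `ψ = χ^k`,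
`K₁.fixingSubgroup = Lev ψ 1`. As there (G3, EX2) one gets `M` over `K₁`, Galois over `L`. Last part:
lift `c` to `c' ∈ GK L`. `c'` moves an element of `K₁`, so `c' ∉ Lev ψ 1`, `p ∤ ψ(c') - 1`;
`c'^2` fixes `K₁`, so `p ∣ ψ(c')^2 - 1`; hence `p ∣ ψ(c') + 1`. By LC there is `τ` with `χ τ = -1`,
`ψ τ = (-1)^k = -1` (`k` odd), so `τ⁻¹ c' ∈ Lev ψ 1`; `act χ r τ = -1` as the `r_i` are odd. The rest
(`IEB.grp`) is unchanged. `p - 1 ∤ r_i` by `IEB.ndvd`. USES KF CC LC G3 FX2 EX2. -/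
def StEB4 : Prop := ∀ (L : Type u) [Field L] [NumberField L] (p : ℕ) [Fact p.Prime], p ≠ 2 →
  Ur L p → ∀ k n : ℕ, k * n = p - 1 → Odd k →
  ∃ (K₁ : IntermediateField L (AlgebraicClosure L)) (_ : NumberField K₁), K₁ ≤ mu L p 1 ∧
    Module.finrank L K₁ = n ∧ IsGalois L K₁ ∧ ∀ (m : ℕ) (r : Fin m → ℤ),
    (∀ i, (k : ℤ) ∣ r i ∧ Odd (r i)) →
    ∀ (S : Fin m → Set (HeightOneSpectrum (𝓞 L))) (φ : Fin m → GK L → ℤ_[p]),
    (∀ i, φ i ∈ ShaZ L p (r i) (S i)) → Indep L p r φ →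
    ∃ (M : IntermediateField K₁ (AlgebraicClosure L)) (_ : NumberField M),
      IsGalois L M ∧ IsGalois K₁ M ∧ (∀ σ τ : Gal(M/K₁), σ * τ = τ * σ) ∧
      Module.finrank K₁ M = p ^ (∑ i, (1 + padicValInt p (r i))) ∧ UCF.Unram K₁ M ∧
      ∀ (c : Gal(M/L)) (σ : Gal(M/K₁)),
        (∀ x : K₁, c (c (algebraMap K₁ M x)) = algebraMap K₁ M x) →
        (∃ x : K₁, c (algebraMap K₁ M x) ≠ algebraMap K₁ M x) →
        ∀ y : M, c (σ (c⁻¹ y)) = σ⁻¹ y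

end Pool.Agent.Work.MP_59f3ad_nt.FE
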