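import Mathlib
import Pool.Agent.Work.MP_59f3ad_nt.FE.Stmts2

/-!
Block FE, item EX2: from an open subgroup of the absolute Galois group of `L`, contained in the one
of a finite extension `K`, to an abelian extension of `K`, unramified at all finite places.
-/

set_option autoImplicit false

open NumberField IsDedekindDomain

namespace Pool.Agent.Work.MP_59f3ad_nt.FE

universe u

theorem pr_EX2 (hTR : StTR.{u}) (hUX : StUX.{u}) : StEX2.{u} := by
  intro L _ _ K _ N hNL hopen hcomm hin'
  obtain ⟨hac, N', hN', hnor, hop', hcm', hin2, hidx⟩ := hTR L K N hNL hopen hcomm hin'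
  have hnK : NumberField K := NumberField.of_module_finite L K
  obtain ⟨M, hMN, hMf, hMg, hMd, hMc, hMu⟩ := hUX K (AlgebraicClosure L) N' hop' hcm' hin2
  have hnM : NumberField M := NumberField.of_module_finite K M
  refine ⟨M, ?_, hnK, hnM, hMg, ?_, hMc, hMu⟩
  · intro g
    constructor
    · intro hg y
      have h1 : g ∈ K.fixingSubgroup := hNL hg
      rw [IntermediateField.mem_fixingSubgroup_iff] at h1
      let g' : AlgebraicClosure L ≃ₐ[K] AlgebraicClosure L :=
        AlgEquiv.ofRingEquiv (f := g.toRingEquiv) (fun x => h1 x.1 x.2)
      have h2 : g'.restrictScalars L = g := by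
        ext x
        rfl
      have h3 : g' ∈ N' := by
        rw [hN', h2]
        exact hg
      rw [← hMN, IntermediateField.mem_fixingSubgroup_iff] at h3
      exact h3 y.1 y.2
    · intro hg
      have h1 : ∀ x : K, g (x : AlgebraicClosure L) = (x : AlgebraicClosure L) := by
        intro x
        exact hg (algebraMap K M x)
      let g' : AlgebraicClosure L ≃ₐ[K] AlgebraicClosure L :=
        AlgEquiv.ofRingEquiv (f := g.toRingEquiv) (fun x => h1 x)
      have h2 : g'.restrictScalars L = g := by
        ext x
        rfl
      have h3 : g' ∈ N' := by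
        rw [← hMN, IntermediateField.mem_fixingSubgroup_iff]
        intro x hx
        exact hg ⟨x, hx⟩
      rw [hN', h2] at h3
      exact h3
  · rw [hMd, hidx]

end Pool.Agent.Work.MP_59f3ad_nt.FE
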