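import Pool.Agent.Work.MP_59f3ad_nt.FE.Stmts2

/-!
# Block FE, item FX2: the field `K₁` of degree `n`
-/

set_option autoImplicit false

open NumberField IsDedekindDomain

namespace Pool.Agent.Work.MP_59f3ad_nt.FE

universe u

namespace IFX2

/-- reduction of a `p`-adic unit modulo `p` -/
noncomputable def red (p : ℕ) [Fact p.Prime] : ℤ_[p]ˣ →* (ZMod (p ^ 1))ˣ :=
  Units.map (PadicInt.toZModPow 1 : ℤ_[p] →+* ZMod (p ^ 1)).toMonoidHom

theorem red_surj (p : ℕ) [Fact p.Prime] : Function.Surjective (red p) := by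
  have : Fact (1 < p ^ 1) := ⟨Nat.one_lt_pow one_ne_zero (Fact.out : p.Prime).one_lt⟩
  have hs : Function.Surjective (PadicInt.toZModPow 1 : ℤ_[p] →+* ZMod (p ^ 1)) :=
    ZMod.ringHom_surjective _
  exact IsLocalRing.surjective_units_map_of_local_ringHom _ hs (IsLocalHom.of_surjective _ hs)

theorem red_eq_one (p : ℕ) [Fact p.Prime] (x : ℤ_[p]ˣ) :
    red p x = 1 ↔ (p : ℤ_[p]) ^ 1 ∣ (x : ℤ_[p]) - 1 := by
  rw [Units.ext_iff]
  show PadicInt.toZModPow 1 (x : ℤ_[p]) = 1 ↔ _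
  rw [← Ideal.mem_span_singleton, ← PadicInt.ker_toZModPow, RingHom.mem_ker, map_sub, map_one,
    sub_eq_zero]

/-- the homomorphism `g ↦ (χ g mod p)^k` -/
noncomputable def hm {G : Type u} [Group G] (p : ℕ) [Fact p.Prime] (χ : G →* ℤ_[p]ˣ) (k : ℕ) :
    G →* (ZMod (p ^ 1))ˣ :=
  (powMonoidHom k).comp ((red p).comp χ)

theorem ker_hm {G : Type u} [Group G] (p : ℕ) [Fact p.Prime] (χ : G →* ℤ_[p]ˣ) (k : ℕ) :
    (hm p χ k).ker = Lev (χ ^ k) 1 := by
  ext g
  rw [MonoidHom.mem_ker]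
  show (red p (χ g)) ^ k = 1 ↔
    (p : ℤ_[p]) ^ 1 ∣ (((χ ^ k) g : ℤ_[p]ˣ) : ℤ_[p]) - 1
  rw [← red_eq_one, MonoidHom.pow_apply, map_pow]

theorem index_Lev {G : Type u} [Group G] (p : ℕ) [Fact p.Prime] (hp2 : p ≠ 2)
    (χ : G →* ℤ_[p]ˣ) (hχ : Function.Surjective χ) (k n : ℕ) (hkn : k * n = p - 1) :
    (Lev (χ ^ k) 1).index = n := by
  have hp : p.Prime := Fact.out
  rw [← ker_hm, Subgroup.index_ker]
  have h1 : (hm p χ k).range = (powMonoidHom k : (ZMod (p ^ 1))ˣ →* _).range := by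
    have hs : Function.Surjective ((red p).comp χ) := (red_surj p).comp hχ
    unfold hm
    rw [MonoidHom.range_comp, MonoidHom.range_eq_top.mpr hs, ← MonoidHom.range_eq_map]
  rw [h1]
  have : IsCyclic (ZMod (p ^ 1))ˣ := ZMod.isCyclic_units_of_prime_pow p hp hp2 1
  have : NeZero (p ^ 1) := ⟨pow_ne_zero _ hp.ne_zero⟩
  have hp1 : 0 < p - 1 := Nat.sub_pos_of_lt hp.one_lt
  have hk : 0 < k := by
    rcases Nat.eq_zero_or_pos k with h | h
    · rw [h, zero_mul] at hkn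
      omega
    · exact h
  rw [IsCyclic.card_powMonoidHom_range, Nat.card_eq_fintype_card, ZMod.card_units_eq_totient,
    Nat.totient_prime_pow hp (by norm_num : 0 < 1)]
  rw [Nat.sub_self, pow_zero, one_mul, ← hkn, Nat.gcd_eq_right (Dvd.intro _ rfl),
    Nat.mul_div_cancel_left _ hk]

theorem Lev_le {G : Type u} [Group G] (p : ℕ) [Fact p.Prime] (χ : G →* ℤ_[p]ˣ) (n : ℕ) :
    Lev χ 1 ≤ Lev (χ ^ n) 1 := by
  intro g hg
  have hg' : (p : ℤ_[p]) ^ 1 ∣ (χ g : ℤ_[p]) - 1 := hg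
  show (p : ℤ_[p]) ^ 1 ∣ (((χ ^ n) g : ℤ_[p]ˣ) : ℤ_[p]) - 1
  rw [MonoidHom.pow_apply, Units.val_pow_eq_pow_val]
  refine hg'.trans ?_
  have h := sub_dvd_pow_sub_pow (χ g : ℤ_[p]) 1 n
  rwa [one_pow] at h

theorem Lev_normal {G : Type u} [Group G] (p : ℕ) [Fact p.Prime] (χ : G →* ℤ_[p]ˣ) (k : ℕ) :
    (Lev (χ ^ k) 1).Normal := by
  rw [← ker_hm]
  infer_instance

end IFX2

open IFX2

theorem pr_FX2 (hKF : StKF.{u}) : StFX2.{u} := by
  intro L _ _ p _ hp2 hsurj k n hkn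
  obtain ⟨-, hk⟩ := hKF L p
  obtain ⟨hLev, hfin, -⟩ := hk 1
  have hle : (mu L p 1).fixingSubgroup ≤ Lev ((cyc L p) ^ k) 1 := by
    rw [← hLev]
    exact Lev_le p (cyc L p) k
  have hopen0 : IsOpen ((mu L p 1).fixingSubgroup : Set (GK L)) :=
    IntermediateField.fixingSubgroup_isOpen _
  have hopen : IsOpen ((Lev ((cyc L p) ^ k) 1 : Subgroup (GK L)) : Set (GK L)) :=
    Subgroup.isOpen_mono hle hopen0
  have hclosed : IsClosed ((Lev ((cyc L p) ^ k) 1 : Subgroup (GK L)) : Set (GK L)) :=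
    Subgroup.isClosed_of_isOpen _ hopen
  have hfix : (IntermediateField.fixedField
      (Lev ((cyc L p) ^ k) 1 : Subgroup (GK L))).fixingSubgroup =
      Lev ((cyc L p) ^ k) 1 :=
    InfiniteGalois.fixingSubgroup_fixedField
      (⟨Lev ((cyc L p) ^ k) 1, hclosed⟩ : ClosedSubgroup (GK L))
  have hKle : IntermediateField.fixedField
      (Lev ((cyc L p) ^ k) 1 : Subgroup (GK L)) ≤ mu L p 1 := by
    have h := InfiniteGalois.fixedField_fixingSubgroup (mu L p 1)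
    rw [← h]
    intro x hx
    rw [IntermediateField.mem_fixedField_iff] at hx ⊢
    exact fun f hf => hx f (hle hf)
  refine ⟨IntermediateField.fixedField (Lev ((cyc L p) ^ k) 1 : Subgroup (GK L)),
    ?_, hKle, ?_, hfix, ?_⟩
  · exact FiniteDimensional.of_injective (IntermediateField.inclusion hKle).toLinearMap
      (IntermediateField.inclusion hKle).injective
  · rw [IntermediateField.finrank_eq_fixingSubgroup_index, hfix]
    exact index_Lev p hp2 (cyc L p) hsurj k n hkn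
  · rw [← InfiniteGalois.normal_iff_isGalois, hfix]
    exact Lev_normal p (cyc L p) k

end Pool.Agent.Work.MP_59f3ad_nt.FE
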