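import Pool.Agent.Work.MP_59f3ad_nt.FE.All
import Pool.Agent.Work.MP_59f3ad_nt.FE.Stmts2
import Pool.Agent.Work.MP_59f3ad_nt.FE.I_G3
import Pool.Agent.Work.MP_59f3ad_nt.FE.I_FX2
import Pool.Agent.Work.MP_59f3ad_nt.FE.I_EX2
import Pool.Agent.Work.MP_59f3ad_nt.FE.I_E4
import Pool.Agent.Work.MP_59f3ad_nt.FE.I_EB4

/-!
Block FE, second part: the twists divisible by `(p-1)/n`, all items together.
-/

set_option autoImplicit false

namespace Pool.Agent.Work.MP_59f3ad_nt.FE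

universe u

theorem all_G3 : StG3.{u} :=
  pr_G3 pr_YS pr_AC all_IM all_VA pr_FI pr_IX pr_V2 pr_CL pr_NO pr_CO pr_TE

theorem all_FX2 : StFX2.{u} := pr_FX2 all_KF

theorem all_EX2 : StEX2.{u} := pr_EX2 pr_TR all_UX

/-- The weighted bound for the twists divisible by `(p-1)/n`, from the library UCF. -/
theorem all_E4 (hUCF : UCF.StUCF.{u}) : StE4.{u} :=
  pr_E4 all_KF pr_CC all_LC all_G3 all_FX2 all_EX2 hUCF

/-- The extension for the half theorem, twists divisible by `(p-1)/n`. -/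
theorem all_EB4 : StEB4.{u} :=
  pr_EB4 all_KF pr_CC all_LC all_G3 all_FX2 all_EX2

end Pool.Agent.Work.MP_59f3ad_nt.FE
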