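import Mathlib
import Pool.Agent.Work.MP_59f3ad_nt.FE.StmtsF

/-!
Block FE, item CY: the image of inertia in the Galois group of a cyclotomic extension.
-/

set_option autoImplicit false

open NumberField IsDedekindDomain
open scoped Pointwise

namespace Pool.Agent.Work.MP_59f3ad_nt.FE

universe u

namespace ICY

/-- the ramification index over `ℤ` of a prime above `p` is divisible by `(p-1) p^k` if the field
contains a primitive root of unity of order `p^(k+1)` -/
theorem ram (M : Type u) [Field M] [NumberField M] (p k : ℕ) [Fact p.Prime] (ζ : M)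
    (hζ : IsPrimitiveRoot ζ (p ^ (k + 1))) (P : Ideal (𝓞 M)) [hP : P.IsPrime]
    (hp : (p : 𝓞 M) ∈ P) : (p - 1) * p ^ k ∣ P.ramificationIdx ℤ := by
  let F : IntermediateField ℚ M := IntermediateField.adjoin ℚ {ζ}
  have hF : IsCyclotomicExtension {p ^ (k + 1)} ℚ F :=
    hζ.intermediateField_adjoin_isCyclotomicExtension ℚ
  let q : Ideal (𝓞 F) := P.under (𝓞 F)
  have hq : q.IsPrime := inferInstance
  have hPq : P.LiesOver q := ⟨rfl⟩
  have hql : q.LiesOver (Ideal.span {(p : ℤ)}) := by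
    rw [Ideal.liesOver_iff]
    refine Ideal.IsMaximal.eq_of_le (Int.ideal_span_isMaximal_of_prime p) Ideal.IsPrime.ne_top' ?_
    rw [Ideal.span_singleton_le_iff_mem, Ideal.under_def, Ideal.mem_comap, map_natCast]
    show algebraMap (𝓞 F) (𝓞 M) (p : 𝓞 F) ∈ P
    rw [map_natCast]
    exact hp
  have h1 := IsCyclotomicExtension.Rat.ramificationIdx_eq_of_prime_pow p k F q
  have h2 := Ideal.ramificationIdx_tower (R := ℤ) q P
  rw [h2, h1, mul_comm (p - 1)]
  exact dvd_mul_right _ _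

end ICY

theorem pr_CY (hLI : StLI.{u}) (hKF : StKF.{u}) : StCY.{u} := by
  intro L _ _ p _ v hv Q hQ hQv k hk
  obtain ⟨k, rfl⟩ : ∃ k' : ℕ, k = k' + 1 := ⟨k - 1, by omega⟩
  obtain ⟨-, hfix⟩ := hKF L p
  obtain ⟨-, hfin, hcyc⟩ := hfix (k + 1)
  let M : IntermediateField L (AlgebraicClosure L) := mu L p (k + 1)
  have hfinM : FiniteDimensional L M := hfin
  have hcycM : IsCyclotomicExtension {p ^ (k + 1)} L M := hcyc
  have hnf : NumberField M := NumberField.of_module_finite L M
  have hgal : IsGalois L M := IsCyclotomicExtension.isGalois {p ^ (k + 1)} L M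
  have hp0 : NeZero (p ^ (k + 1)) := ⟨pow_ne_zero _ (Fact.out : p.Prime).ne_zero⟩
  let ζ : M := IsCyclotomicExtension.zeta (p ^ (k + 1)) L M
  have hζ : IsPrimitiveRoot ζ (p ^ (k + 1)) := IsCyclotomicExtension.zeta_spec (p ^ (k + 1)) L M
  let P : Ideal (𝓞 M) := Q.comap (algebraMap (𝓞 M) (𝓞 (AlgebraicClosure L)))
  have hP : P.IsPrime := Ideal.comap_isPrime _ Q
  have hl : P.LiesOver v.asIdeal := by
    constructor
    rw [← hQv]
    ext a
    exact Iff.rfl
  have hPp : (p : 𝓞 M) ∈ P := by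
    have h1 : algebraMap (𝓞 L) (𝓞 M) (p : 𝓞 L) ∈ P := by
      rw [← Ideal.mem_comap, ← Ideal.under_def, ← hl.over]
      exact hv
    rwa [map_natCast] at h1
  have gal1 : IsGaloisGroup Gal(M/L) (𝓞 L) (𝓞 M) := .of_isFractionRing _ _ _ L M
  have hvm : v.asIdeal.IsMaximal := v.isMaximal
  have fin1 : Finite ((𝓞 L) ⧸ v.asIdeal) := Ring.HasFiniteQuotients.finiteQuotient v.ne_bot
  have c1 := Ideal.card_inertia_eq_ramificationIdxIn (G := Gal(M/L)) v.asIdeal P
  rw [Ideal.ramificationIdxIn_eq_ramificationIdx v.asIdeal P Gal(M/L)] at c1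
  have hinj : Function.Injective (hζ.autToPow L) := hζ.autToPow_injective (K := L)
  refine ⟨(P.inertia Gal(M/L)).map (hζ.autToPow L), ?_, ?_⟩
  · rintro x ⟨σ, hσ, rfl⟩
    obtain ⟨h, hh1, hh2⟩ := hLI L (AlgebraicClosure L) M Q hQ σ (by
      intro y z z' hz hz'
      have hy : IsIntegral ℤ y := by
        have h1 : IsIntegral ℤ (algebraMap M (AlgebraicClosure L) y) := by
          have h2 : algebraMap M (AlgebraicClosure L) y = (z : AlgebraicClosure L) := hz.symm
          rw [h2]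
          exact z.isIntegral_coe
        exact (isIntegral_algebraMap_iff (algebraMap M (AlgebraicClosure L)).injective).1 h1
      let y0 : 𝓞 M := ⟨y, hy⟩
      have e1 : z = algebraMap (𝓞 M) (𝓞 (AlgebraicClosure L)) y0 := RingOfIntegers.ext hz
      have e2 : z' = algebraMap (𝓞 M) (𝓞 (AlgebraicClosure L)) (σ • y0) := RingOfIntegers.ext hz'
      rw [e1, e2, ← map_sub]
      exact hσ y0)
    refine ⟨h, hh1, fun η hη => ?_⟩
    have hζΩ : IsPrimitiveRoot (ζ : AlgebraicClosure L) (p ^ (k + 1)) :=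
      hζ.map_of_injective (f := algebraMap M (AlgebraicClosure L))
        (algebraMap M (AlgebraicClosure L)).injective
    obtain ⟨i, -, rfl⟩ := hζΩ.eq_pow_of_pow_eq_one hη
    have h3 := hζ.autToPow_spec L σ
    have h4 : h (ζ : AlgebraicClosure L) = (ζ : AlgebraicClosure L) ^
        ((hζ.autToPow L σ : (ZMod (p ^ (k + 1)))ˣ) : ZMod (p ^ (k + 1))).val := by
      rw [hh2 ζ, ← h3]
      rfl
    rw [map_pow, h4, ← pow_mul, ← pow_mul, mul_comm]
  · have c2 : Nat.card ((P.inertia Gal(M/L)).map (hζ.autToPow L)) =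
        Nat.card (P.inertia Gal(M/L)) :=
      (Nat.card_congr ((P.inertia Gal(M/L)).equivMapOfInjective _ hinj).toEquiv).symm
    have c3 := Ideal.ramificationIdx_tower (R := ℤ) v.asIdeal P
    have c4 := ICY.ram M p k ζ hζ P hPp
    rw [Nat.add_sub_cancel, c2, c1, mul_comm (P.ramificationIdx (𝓞 L)), ← c3]
    exact c4

end Pool.Agent.Work.MP_59f3ad_nt.FE
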