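import Mathlib
import Pool.Agent.Work.MP_59f3ad_nt.FE.StmtsE

/-!
Block FE, item E2 (helper56): the weighted bound.
-/

set_option autoImplicit false

open NumberField IsDedekindDomain

namespace Pool.Agent.Work.MP_59f3ad_nt.FE

universe u

theorem pr_E2 (hKF : StKF.{u}) (hCC : StCC.{u}) (hLC : StLC.{u}) (hG2 : StG2.{u})
    (hEX : StEX.{u}) (hCN : StCN.{u}) (hUCF : UCF.StUCF.{u}) : StE2.{u} := by
  intro L _ _ p _ hp2 hUr n r hr S φ hφ hind K _ _ _ hK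
  have hp : p.Prime := Fact.out
  have hZ1 : ∀ i, φ i ∈ Z1 L p (r i) := fun i => (hφ i).1.1
  have hcoc := hCC L p n r φ hZ1 hind
  obtain ⟨hloc, Q0, hQ0p, hQ0b, hQ0⟩ := hLC L p hp2 n r S φ hφ 0 (Or.inr ⟨rfl, hUr⟩)
  obtain ⟨hcont, hKFk⟩ := hKF L p
  obtain ⟨N, hN1, hN2, hN3, hN4, hN5, hN6, hN7⟩ := hG2 p hp2 (GK L) (cyc L p) hcont n r
    (fun g i => φ i g) hr hcoc
    {I | ∃ Q : Ideal (𝓞 (AlgebraicClosure L)), Q.IsPrime ∧ Q ≠ ⊥ ∧ I = {h : GK L | Inr Q h}}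
    (by
      rintro I ⟨Q, hQ, hQb, rfl⟩
      exact hloc Q hQ hQb)
    ⟨_, ⟨Q0, hQ0p, hQ0b, rfl⟩, fun x => hQ0 x (by rw [pow_zero]; exact one_dvd _)⟩
  obtain ⟨M, hM1, hNF1, hNF2, hGal, hfin, hab, hunr⟩ := hEX L p 1 N hN1 hN3 hN4
    (fun Q hQ hQb h hh hl => hN5 _ ⟨Q, hQ, hQb, rfl⟩ h hh hl)
  have hodd : Odd (Module.finrank (mu L p 1) M) := by
    rw [hfin, hN6]
    exact (hp.odd_of_ne_two hp2).pow
  have h1 := hUCF (mu L p 1) M hab hodd hunr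
  have h2 : classNumber K = classNumber (mu L p 1) := hCN L K p 1 (by rw [pow_one]; exact hK)
  rw [h2, ← hN6, ← hfin]
  exact h1.2

end Pool.Agent.Work.MP_59f3ad_nt.FE
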