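import Pool.Agent.Work.MP_59f3ad_nt.FE.StmtsG

/-!
Block FE, item V2: the valuation of `u^r - 1` for `u = 1 + p^μ`.
-/

set_option autoImplicit false

open NumberField IsDedekindDomain

namespace Pool.Agent.Work.MP_59f3ad_nt.FE

namespace IV2

/-- Lifting the exponent in the integers. -/
theorem int (p : ℕ) [hp : Fact p.Prime] (hp2 : p ≠ 2) (μ : ℕ) (hμ : 1 ≤ μ) (n : ℕ) (hn : n ≠ 0) :
    ∃ w : ℤ, ((1 + (p : ℤ) ^ μ) ^ n - 1) = (p : ℤ) ^ (μ + padicValNat p n) * w ∧ ¬ (p : ℤ) ∣ w := by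
  have hodd : Odd p := hp.out.odd_of_ne_two hp2
  have hpz : Prime (p : ℤ) := Nat.prime_iff_prime_int.mp hp.out
  have h1 : (p : ℤ) ∣ (1 + (p : ℤ) ^ μ) - 1 := by
    rw [add_sub_cancel_left]
    exact dvd_pow_self _ (by omega)
  have h2 : ¬ (p : ℤ) ∣ 1 + (p : ℤ) ^ μ := by
    intro h
    have h3 : (p : ℤ) ∣ 1 := by
      have := dvd_sub h (dvd_pow_self (p : ℤ) (by omega : μ ≠ 0))
      simpa using this
    exact hpz.not_isUnit (isUnit_of_dvd_one h3)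
  have h := Int.emultiplicity_pow_sub_pow hp.out hodd h1 h2 n
  rw [one_pow, add_sub_cancel_left, emultiplicity_pow_self hpz.ne_zero hpz.not_isUnit,
    ← padicValNat_eq_emultiplicity hn, ← Nat.cast_add] at h
  obtain ⟨⟨w, hw⟩, hn2⟩ := emultiplicity_eq_coe.mp h
  refine ⟨w, hw, ?_⟩
  rintro ⟨w', rfl⟩
  exact hn2 ⟨w', by rw [hw, pow_succ]; ring⟩

/-- The case of a natural exponent. -/
theorem nat (p : ℕ) [hp : Fact p.Prime] (hp2 : p ≠ 2) (μ : ℕ) (hμ : 1 ≤ μ) (n : ℕ) (hn : n ≠ 0)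
    (u : ℤ_[p]) (hu : u = 1 + (p : ℤ_[p]) ^ μ) :
    Associated (u ^ n - 1) ((p : ℤ_[p]) ^ (μ + padicValNat p n)) := by
  obtain ⟨w, hw, hw2⟩ := int p hp2 μ hμ n hn
  have hwu : IsUnit (w : ℤ_[p]) := by
    rw [PadicInt.isUnit_iff]
    by_contra hne
    have hlt : ‖(w : ℤ_[p])‖ < 1 := lt_of_le_of_ne (PadicInt.norm_le_one _) hne
    exact hw2 (PadicInt.norm_int_lt_one_iff_dvd w |>.mp hlt)
  have e : u ^ n - 1 = (p : ℤ_[p]) ^ (μ + padicValNat p n) * (w : ℤ_[p]) := by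
    have := congrArg (Int.cast : ℤ → ℤ_[p]) hw
    push_cast at this
    rw [hu, this]
  rw [e]
  exact (associated_mul_unit_left _ _ hwu)

end IV2

/-- Item V2. -/
theorem pr_V2 : StV2 := by
  intro p _ hp2 μ hμ u hu r hr
  rcases Int.natAbs_eq r with h | h
  · have hn : r.natAbs ≠ 0 := Int.natAbs_ne_zero.mpr hr
    have h1 := IV2.nat p hp2 μ hμ r.natAbs hn (u : ℤ_[p]) hu
    have e : ((u ^ r : ℤ_[p]ˣ) : ℤ_[p]) = (u : ℤ_[p]) ^ r.natAbs := by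
      rw [h, zpow_natCast, Units.val_pow_eq_pow_val, Int.natAbs_natCast]
    rw [e]
    exact h1
  · have hn : r.natAbs ≠ 0 := Int.natAbs_ne_zero.mpr hr
    have h1 := IV2.nat p hp2 μ hμ r.natAbs hn (u : ℤ_[p]) hu
    have e : ((u ^ r : ℤ_[p]ˣ) : ℤ_[p]) - 1 =
        ((u : ℤ_[p]) ^ r.natAbs - 1) * ((-(u ^ r) : ℤ_[p]ˣ) : ℤ_[p]) := by
      have h2 : (u : ℤ_[p]) ^ r.natAbs * ((u ^ r : ℤ_[p]ˣ) : ℤ_[p]) = 1 := by
        rw [← Units.val_pow_eq_pow_val, ← Units.val_mul, ← zpow_natCast, ← zpow_add]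
        have : (r.natAbs : ℤ) + r = 0 := by omega
        rw [this, zpow_zero, Units.val_one]
      rw [Units.val_neg, sub_mul, mul_neg, h2]
      ring
    rw [e]
    exact (associated_mul_unit_left _ _ (Units.isUnit _)).trans h1

end Pool.Agent.Work.MP_59f3ad_nt.FE
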